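import Mathlib

/-!
The choice of the parameters: from the key inequality to `1 - θ ≤ h g (1 + g)`.
-/

set_option autoImplicit false

namespace Pool.Agent.Lib.MP_9701dc_gt.DD

/-- Monotonicity used to pass from `a` to `b`. -/
theorem params_mono {a b κ : ℝ} (hb : 0 ≤ b) (hba : b ≤ a) (ha : a ≤ 1) (hκ : 0 ≤ κ) :
    b ^ 2 * ((1 - a) * (a + κ)) ≤ a ^ 2 * ((1 - b) * (b + κ)) := by
  have h1 : 0 ≤ a * b * (a - b) := by
    have : 0 ≤ a := hb.trans hba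
    exact mul_nonneg (mul_nonneg this hb) (sub_nonneg.mpr hba)
  have h2 : 0 ≤ κ * ((a - b) * (a + b - a * b)) := by
    refine mul_nonneg hκ (mul_nonneg (sub_nonneg.mpr hba) ?_)
    nlinarith [mul_nonneg hb (sub_nonneg.mpr ha), hb.trans hba]
  nlinarith [h1, h2]

/-- Passing from `a` to `b`. -/
theorem params_step {a b κ₀ ε r : ℝ} (hb0 : 0 ≤ b) (hba : b ≤ a) (ha1 : a ≤ 1) (hκ : 0 ≤ κ₀)
    (hr : 0 < r) (hkey : (1 - ε) * a ^ 2 ≤ r * ((1 - a) * (a + κ₀))) :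
    (1 - ε) * b ^ 2 ≤ r * ((1 - b) * (b + κ₀)) := by
  rcases eq_or_lt_of_le hb0 with hb00 | hb00
  · rw [← hb00]
    have : 0 ≤ r * ((1 - 0) * (0 + κ₀)) := by
      rw [sub_zero, one_mul, zero_add]
      exact mul_nonneg hr.le hκ
    simpa using this
  · have ha0 : 0 < a := hb00.trans_le hba
    have hm := params_mono hb0 hba ha1 hκ
    have h1 : (1 - ε) * b ^ 2 * a ^ 2 ≤ r * ((1 - b) * (b + κ₀)) * a ^ 2 := by
      calc (1 - ε) * b ^ 2 * a ^ 2 = b ^ 2 * ((1 - ε) * a ^ 2) := by ring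
        _ ≤ b ^ 2 * (r * ((1 - a) * (a + κ₀))) :=
          mul_le_mul_of_nonneg_left hkey (sq_nonneg b)
        _ = r * (b ^ 2 * ((1 - a) * (a + κ₀))) := by ring
        _ ≤ r * (a ^ 2 * ((1 - b) * (b + κ₀))) :=
          mul_le_mul_of_nonneg_left hm hr.le
        _ = r * ((1 - b) * (b + κ₀)) * a ^ 2 := by ring
    exact le_of_mul_le_mul_right h1 (pow_pos ha0 2)

/-- A quadratic inequality. -/
theorem params_quad {b θ c : ℝ} (hb : 0 ≤ b) (hθ : 0 < θ) (hc : 0 ≤ c)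
    (hq : b ^ 2 ≤ (θ / 2) ^ 2 + c * b) : b ≤ θ / 2 + c := by
  by_contra hcon
  rw [not_le] at hcon
  have h4 : θ / 2 < b := by linarith
  have hb' : 0 < b := by linarith
  have h5 : (θ / 2) ^ 2 < θ / 2 * b := by
    rw [pow_two]
    exact mul_lt_mul_of_pos_left h4 (by linarith)
  have h6 : (θ / 2 + c) * b < b * b := mul_lt_mul_of_pos_right hcon hb'
  have h7 : (θ / 2 + c) * b = θ / 2 * b + c * b := by ring
  have h8 : b * b = b ^ 2 := by ring
  rw [h7, h8] at h6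
  linarith

/-- The core: normalised variables. -/
theorem params_core {h g δ a κ₀ ε θ h₀ : ℝ} (h0 : 0 < h₀) (hh : h₀ ≤ h) (hg : 0 < g)
    (hhg : h * g ≤ 1) (hδ0 : 0 < δ) (hδ1 : δ ≤ 1) (ha1 : a ≤ 1)
    (hba : δ * (1 - h * g) ≤ a) (hκ : 0 ≤ κ₀) (hε : 0 < ε) (hθ : 0 < θ)
    (hεθ : ε ≤ θ ^ 2 / 12) (hδθ : 1 - δ ≤ θ / 2) (hδθ' : 1 - δ ≤ h₀ * θ ^ 2 / 12)
    (hκθ : κ₀ ≤ h₀ * θ ^ 2 / 12)
    (hkey : (1 - ε) * a ^ 2 ≤ δ * g * ((1 - a) * (a + κ₀))) :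
    1 - θ ≤ h * g * (1 + g) := by
  obtain ⟨b, hbdef⟩ : ∃ b, b = δ * (1 - h * g) := ⟨_, rfl⟩
  rw [← hbdef] at hba
  have hh0 : 0 < h := h0.trans_le hh
  have hb0 : 0 ≤ b := by rw [hbdef]; exact mul_nonneg hδ0.le (by linarith)
  have hb1 : b ≤ 1 := hba.trans ha1
  have hhgpos : 0 < h * g := mul_pos hh0 hg
  have hδg : 0 < δ * g := mul_pos hδ0 hg
  have hb : (1 - ε) * b ^ 2 ≤ δ * g * ((1 - b) * (b + κ₀)) :=
    params_step hb0 hba ha1 hκ hδg hkey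
  -- bounds
  have hg1 : h₀ * g ≤ 1 := (mul_le_mul_of_nonneg_right hh hg.le).trans hhg
  have hδgg : δ * g ≤ g := by nlinarith
  have h1b : 1 - b ≤ (1 - δ) + h * g := by
    rw [hbdef]; nlinarith
  have h1b0 : 0 ≤ 1 - b := by linarith
  have hδ' : 0 ≤ 1 - δ := by linarith
  -- first term
  have t1 : δ * g * ((1 - b) * b) ≤ θ ^ 2 / 12 + h * g ^ 2 * b := by
    calc δ * g * ((1 - b) * b) ≤ g * ((1 - b) * b) :=
          mul_le_mul_of_nonneg_right hδgg (mul_nonneg h1b0 hb0)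
      _ = g * b * (1 - b) := by ring
      _ ≤ g * b * ((1 - δ) + h * g) :=
          mul_le_mul_of_nonneg_left h1b (mul_nonneg hg.le hb0)
      _ = g * (1 - δ) * b + h * g ^ 2 * b := by ring
      _ ≤ θ ^ 2 / 12 + h * g ^ 2 * b := by
          have : g * (1 - δ) ≤ θ ^ 2 / 12 := by
            calc g * (1 - δ) ≤ g * (h₀ * θ ^ 2 / 12) :=
                  mul_le_mul_of_nonneg_left hδθ' hg.le
              _ = (h₀ * g) * (θ ^ 2 / 12) := by ring
              _ ≤ 1 * (θ ^ 2 / 12) :=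
                  mul_le_mul_of_nonneg_right hg1 (by positivity)
              _ = θ ^ 2 / 12 := one_mul _
          have h3 : 0 ≤ g * (1 - δ) := mul_nonneg hg.le hδ'
          nlinarith
  have t2 : δ * g * ((1 - b) * κ₀) ≤ θ ^ 2 / 12 := by
    calc δ * g * ((1 - b) * κ₀) ≤ g * ((1 - b) * κ₀) :=
          mul_le_mul_of_nonneg_right hδgg (mul_nonneg h1b0 hκ)
      _ ≤ g * (1 * κ₀) := by
          refine mul_le_mul_of_nonneg_left ?_ hg.le
          exact mul_le_mul_of_nonneg_right (by linarith) hκ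
      _ = g * κ₀ := by ring
      _ ≤ g * (h₀ * θ ^ 2 / 12) := mul_le_mul_of_nonneg_left hκθ hg.le
      _ = (h₀ * g) * (θ ^ 2 / 12) := by ring
      _ ≤ 1 * (θ ^ 2 / 12) := mul_le_mul_of_nonneg_right hg1 (by positivity)
      _ = θ ^ 2 / 12 := one_mul _
  have t3 : ε * b ^ 2 ≤ θ ^ 2 / 12 := by
    have : b ^ 2 ≤ 1 := by nlinarith
    nlinarith [sq_nonneg b]
  have hq : b ^ 2 ≤ (θ / 2) ^ 2 + h * g ^ 2 * b := by
    have e : δ * g * ((1 - b) * (b + κ₀)) =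
        δ * g * ((1 - b) * b) + δ * g * ((1 - b) * κ₀) := by ring
    rw [e] at hb
    nlinarith
  have hbθ : b ≤ θ / 2 + h * g ^ 2 := params_quad hb0 hθ (by positivity) hq
  have e1 : 1 - h * g = (1 - h * g) * (1 - δ) + b := by rw [hbdef]; ring
  have e2 : (1 - h * g) * (1 - δ) ≤ 1 - δ := by nlinarith
  have e3 : h * g * (1 + g) = h * g + h * g ^ 2 := by ring
  rw [e3]
  linarith

/-- **M6**: the choice of the parameters. -/
theorem params (h₀ H θ δ' : ℝ) (h0 : 0 < h₀) (hH : h₀ < H) (hθ : 0 < θ) (hθ1 : θ < 1)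
    (hδ' : 0 < δ') :
    ∃ K D₀ : ℝ, 1 ≤ K ∧ 1 / K ≤ δ' ∧ ∀ D N M S τ h : ℝ, D₀ ≤ D → 1 ≤ D → 0 < N → N ≤ M →
      M ≤ N * (1 + 1 / K) → h₀ ≤ h → h ≤ H → 0 < S → h * (D * S / N) ≤ 1 →
      N - D * h * S ≤ τ → 0 ≤ τ → τ ≤ M →
      (∀ ε, 0 < ε → ε < 1 → (1 - ε) * τ ^ 2 ≤ S * (D * (τ * (1 - τ / M)) +
        1 / ε * (2 * (K / h) * (1 + K / h) / (D * h)) * (M - τ))) →
      1 - θ ≤ h * (D * S / N) * (1 + D * S / N) := by
  obtain ⟨K, hK1, hKδ, hKθ, hKh⟩ : ∃ K : ℝ, 1 ≤ K ∧ 1 / K ≤ δ' ∧ 1 / K ≤ θ / 2 ∧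
      1 / K ≤ h₀ * θ ^ 2 / 12 := by
    have p1 : 0 < θ / 2 := by positivity
    have p2 : 0 < h₀ * θ ^ 2 / 12 := by positivity
    refine ⟨max (max 1 (1 / δ')) (max (1 / (θ / 2)) (1 / (h₀ * θ ^ 2 / 12))), ?_, ?_, ?_, ?_⟩
    · exact (le_max_left _ _).trans (le_max_left _ _)
    · rw [one_div_le (by positivity) hδ']
      exact (le_max_right _ _).trans (le_max_left _ _)
    · rw [one_div_le (by positivity) p1]
      exact (le_max_left _ _).trans (le_max_right _ _)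
    · rw [one_div_le (by positivity) p2]
      exact (le_max_right _ _).trans (le_max_right _ _)
  have hK0 : 0 < K := by linarith
  obtain ⟨ε, hεdef⟩ : ∃ ε : ℝ, ε = θ ^ 2 / 12 := ⟨_, rfl⟩
  have hε : 0 < ε := by rw [hεdef]; positivity
  have hε1 : ε < 1 := by rw [hεdef]; nlinarith
  obtain ⟨C, hCdef⟩ : ∃ C : ℝ, C = 2 * (K / h₀) * (1 + K / h₀) / (ε * h₀) := ⟨_, rfl⟩
  have hC : 0 < C := by rw [hCdef]; positivity
  refine ⟨K, C / (h₀ * θ ^ 2 / 12), hK1, hKδ, ?_⟩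
  intro D N M S τ h hD hD1 hN hNM hMN hh hhH hS hhg hNτ hτ0 hτM hkey
  have hD0 : 0 < D := by linarith
  have hM : 0 < M := hN.trans_le hNM
  have hh0 : 0 < h := h0.trans_le hh
  have hg : 0 < D * S / N := by positivity
  obtain ⟨κ₀, hκdef⟩ : ∃ κ₀ : ℝ, κ₀ = 1 / ε * (2 * (K / h) * (1 + K / h) / (D * h)) / D :=
    ⟨_, rfl⟩
  have hκ0 : 0 ≤ κ₀ := by rw [hκdef]; positivity
  have hκle : κ₀ ≤ h₀ * θ ^ 2 / 12 := by
    have p2 : 0 < h₀ * θ ^ 2 / 12 := by positivity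
    have hCD : C / D ≤ h₀ * θ ^ 2 / 12 := by
      rw [div_le_iff₀ hD0, mul_comm]
      rwa [div_le_iff₀ p2] at hD
    refine le_trans ?_ hCD
    have hKh' : K / h ≤ K / h₀ := div_le_div_of_nonneg_left hK0.le h0 hh
    have hKh0 : 0 < K / h := by positivity
    have n1 : 2 * (K / h) * (1 + K / h) ≤ 2 * (K / h₀) * (1 + K / h₀) := by
      have : 0 < K / h₀ := by positivity
      nlinarith
    have hDD : D * h₀ ≤ D * (D * h) := by
      refine mul_le_mul_of_nonneg_left ?_ hD0.le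
      nlinarith
    have e1 : κ₀ = 2 * (K / h) * (1 + K / h) / (ε * (D * (D * h))) := by
      rw [hκdef]; field_simp
    have e2 : C / D = 2 * (K / h₀) * (1 + K / h₀) / (ε * (D * h₀)) := by
      rw [hCdef]; field_simp
    rw [e1, e2]
    apply div_le_div₀
    · positivity
    · exact n1
    · positivity
    · exact mul_le_mul_of_nonneg_left hDD hε.le
  have hδ0 : 0 < N / M := by positivity
  have hδ1 : N / M ≤ 1 := (div_le_one hM).mpr hNM
  have h1δ : 1 - N / M ≤ 1 / K := by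
    have hK' : 0 < 1 / K := by positivity
    have : N / M * (1 + 1 / K) ≥ 1 := by
      have : M / M ≤ N * (1 + 1 / K) / M := by gcongr
      rw [div_self hM.ne'] at this
      calc N / M * (1 + 1 / K) = N * (1 + 1 / K) / M := by ring
        _ ≥ 1 := this
    nlinarith
  refine params_core (h := h) (g := D * S / N) (δ := N / M) (a := τ / M) (κ₀ := κ₀) (ε := ε)
    (θ := θ) (h₀ := h₀) h0 hh hg hhg hδ0 hδ1 ((div_le_one hM).mpr hτM) ?_ hκ0 hε hθ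
    (by rw [hεdef]) (h1δ.trans hKθ) (h1δ.trans hKh) hκle ?_
  · have e : N / M * (1 - h * (D * S / N)) = (N - D * h * S) / M := by
      field_simp
    rw [e]
    gcongr
  · have hk := hkey ε hε hε1
    have e1 : (1 - ε) * (τ / M) ^ 2 = (1 - ε) * τ ^ 2 / M ^ 2 := by ring
    have e2 : N / M * (D * S / N) * ((1 - τ / M) * (τ / M + κ₀)) =
        S * (D * (τ * (1 - τ / M)) + D * κ₀ * (M - τ)) / M ^ 2 := by
      field_simp
    have e3 : D * κ₀ = 1 / ε * (2 * (K / h) * (1 + K / h) / (D * h)) := by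
      rw [hκdef]; field_simp
    rw [e1, e2, e3]
    gcongr

end Pool.Agent.Lib.MP_9701dc_gt.DD
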