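import Pool.Agent.Lib.MP_9701dc_gt.DD.Spectral
import Pool.Agent.Lib.MP_9701dc_gt.DD.Params

set_option autoImplicit false

/-!
# The sharp determinant bound (module M7b)
-/

namespace Pool.Agent.Lib.MP_9701dc_gt.DD

open Finset Matrix

theorem det_sharp (ε : ℝ) (hε : 0 < ε) : ∃ k₀ : ℕ, ∀ k ≥ k₀, ∀ (n : ℕ) (v : Fin n)
    (T : Row n k v → Finset (Fin n)), Function.Injective T → (∀ i, (T i).card = k + 1) →
    ∀ A : Matrix (Row n k v) (Row n k v) ℝ, (∀ i σ, A i σ = (inc σ.1 (T i) : ℝ)) → A.det ≠ 0 →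
      Real.log (A.det ^ 2) ≤ (Fintype.card (Row n k v)) * (Real.log (k + 1) - 1 + ε) := by
  obtain ⟨h₀, H, θ, h0, hH, hθ, hθ1, hcmp⟩ := mp_compare (ε / 2) (by linarith)
  obtain ⟨K, D₀, hK, hKε, hpar⟩ := params h₀ H θ (ε / 2) h0 hH hθ hθ1 (by linarith)
  refine ⟨⌈D₀⌉₊, fun k hk n v T hT hc A hA hdet => ?_⟩
  rcases isEmpty_or_nonempty (Row n k v) with hemp | hne
  · rw [det_isEmpty, one_pow, Real.log_one, Fintype.card_eq_zero, Nat.cast_zero, zero_mul]
  have hD : (0 : ℝ) < (k : ℝ) + 1 := by positivity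
  have hDD : D₀ ≤ (k : ℝ) + 1 := by
    have h1 : D₀ ≤ ⌈D₀⌉₊ := Nat.le_ceil _
    have h2 : ((⌈D₀⌉₊ : ℕ) : ℝ) ≤ k := by exact_mod_cast hk
    linarith
  have hKpos : 0 < K := by linarith
  have hL : 0 < K * ((k : ℝ) + 1) := by positivity
  set N : ℝ := (Fintype.card (Row n k v) : ℝ) with hN
  have hNpos : 0 < N := by
    rw [hN]
    exact_mod_cast Fintype.card_pos
  -- the systems
  set X : (h : ℝ) → 0 < h → Sys n (Row n k v) := fun h hh =>
    mkSys k v T hT hc (K * (k + 1)) ((k + 1) * h) hL (by positivity) with hX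
  -- the eigenvalues do not depend on h
  set γ : Row n k v → ℝ := (X h₀ h0).ev with hγ
  have hev : ∀ h (hh : 0 < h), (X h hh).ev = γ := fun h hh => rfl
  have hγ0 : ∀ i, 0 ≤ γ i := fun i => (X h₀ h0).ev_nonneg i
  have hγs : ∑ i, γ i ≤ (k + 1) * N := (X h₀ h0).sum_ev_le
  -- the determinant
  have hGA : (X h₀ h0).G = A * diagonal (fun σ : Row n k v => wt T (K * (k + 1)) σ.1) * Aᵀ := by
    ext i j
    rw [mul_apply]
    rw [Sys.G_apply]
    have h1 : ∀ σ : Row n k v, (A * diagonal (fun σ : Row n k v => wt T (K * (k + 1)) σ.1)) i σ *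
        Aᵀ σ j = wt T (K * (k + 1)) σ.1 * (inc σ.1 (T i) : ℝ) * (inc σ.1 (T j) : ℝ) := by
      intro σ
      rw [mul_diagonal, transpose_apply, hA, hA]
      ring
    rw [sum_congr rfl fun σ _ => h1 σ,
      Finset.sum_coe_sort (rows n k v) (fun σ => wt T (K * (k + 1)) σ * (inc σ (T i) : ℝ) *
        (inc σ (T j) : ℝ))]
    symm
    rw [← sum_subset (subset_univ (rows n k v))]
    · refine sum_congr rfl fun σ hσ => ?_
      have e1 : ∀ i, (X h₀ h0).b σ i = (inc σ (T i) : ℝ) := by
        intro i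
        unfold Sys.b
        rw [if_pos]
        · rfl
        · exact hσ
      rw [e1, e1]
      rfl
    · intro σ _ hσ
      rw [(X h₀ h0).b_of_notMem hσ]
      ring
  have hdetG : (X h₀ h0).G.det = A.det ^ 2 * ∏ σ : Row n k v, wt T (K * (k + 1)) σ.1 := by
    rw [hGA, det_mul, det_mul, det_diagonal, det_transpose]
    ring
  have hwpos : ∀ σ : Row n k v, 0 < wt T (K * (k + 1)) σ.1 := fun σ => wt_pos T hL σ.1
  have hA2 : 0 < A.det ^ 2 := by positivity
  have hGpos : 0 < ∏ i, γ i := by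
    rw [← (X h₀ h0).det_G, hdetG]
    exact mul_pos hA2 (prod_pos fun σ _ => hwpos σ)
  have hγpos : ∀ i, 0 < γ i := by
    intro i
    refine lt_of_le_of_ne (hγ0 i) ?_
    intro h
    have : ∏ i, γ i = 0 := prod_eq_zero (mem_univ i) h.symm
    rw [this] at hGpos
    exact lt_irrefl _ hGpos
  -- M_w
  have hMw : ∀ h (hh : 0 < h), (X h hh).Mw = ∑ σ ∈ rows n k v, 1 / wt T (K * (k + 1)) σ :=
    fun h hh => rfl
  have hcard : ((rows n k v).card : ℝ) = N := by
    rw [hN, Fintype.card_coe]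
  have hMge : N ≤ ∑ σ ∈ rows n k v, 1 / wt T (K * (k + 1)) σ := by
    calc N = ∑ _σ ∈ rows n k v, (1 : ℝ) := by rw [sum_const, nsmul_eq_mul, mul_one, hcard]
      _ ≤ _ := sum_le_sum fun σ _ => inv_wt_ge T hL σ
  have hMle : ∑ σ ∈ rows n k v, 1 / wt T (K * (k + 1)) σ ≤ N * (1 + 1 / K) := by
    calc ∑ σ ∈ rows n k v, 1 / wt T (K * (k + 1)) σ
        ≤ ∑ σ ∈ rows n k v, (1 + dgr T σ / (K * (k + 1))) :=
          sum_le_sum fun σ _ => inv_wt_le T hL σ
      _ = N + (∑ σ ∈ rows n k v, dgr T σ) / (K * (k + 1)) := by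
          rw [sum_add_distrib, sum_const, nsmul_eq_mul, mul_one, hcard, sum_div]
      _ ≤ N + ((k + 1) * N) / (K * (k + 1)) := by
          have := sum_dgr_le k v T hc
          gcongr
      _ = _ := by
          field_simp
  -- the hypothesis of the comparison
  have hmain : ∑ i, Real.log (h₀ + γ i / (k + 1)) ≤ (-1 + ε / 2) * N := by
    refine hcmp (Row n k v) (fun i => γ i / (k + 1)) (fun i => div_nonneg (hγ0 i) hD.le) ?_ ?_
    · rw [← sum_div, div_le_iff₀ hD]
      linarith
    · intro h hh0 hhH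
      have hh : 0 < h := lt_of_lt_of_le h0 hh0
      have hS : (X h hh).S = ∑ i, 1 / ((k + 1) * h + γ i) := by
        rw [(X h hh).S_eq, hev h hh]
        rfl
      have hgs : gs (fun i => γ i / ((k : ℝ) + 1)) h = ((k : ℝ) + 1) * (X h hh).S / N := by
        unfold gs
        rw [hS, mul_sum]
        congr 1
        refine sum_congr rfl fun i _ => ?_
        have h1 := hγ0 i
        have h2 : (0 : ℝ) < ((k : ℝ) + 1) * h + γ i := by positivity
        have h3 : h + γ i / ((k : ℝ) + 1) = (((k : ℝ) + 1) * h + γ i) / ((k : ℝ) + 1) := by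
          field_simp
        rw [h3, one_div_div]
        field_simp
      rw [hgs]
      have hSpos : 0 < (X h hh).S := by
        rw [hS]
        refine sum_pos (fun i _ => ?_) univ_nonempty
        have h1 := hγ0 i
        positivity
      have hSle : (X h hh).S ≤ N / (((k : ℝ) + 1) * h) := by
        rw [hS]
        calc ∑ i, 1 / (((k : ℝ) + 1) * h + γ i) ≤ ∑ _i : Row n k v, 1 / (((k : ℝ) + 1) * h) := by
              refine sum_le_sum fun i _ => ?_
              have h1 := hγ0 i
              apply one_div_le_one_div_of_le (by positivity)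
              linarith
          _ = _ := by
              rw [sum_const, nsmul_eq_mul, card_univ, ← hN]
              ring
      have hLκ : (X h hh).L = K / h * (X h hh).η := by
        change K * ((k : ℝ) + 1) = K / h * (((k : ℝ) + 1) * h)
        field_simp
      refine hpar ((k : ℝ) + 1) N (X h hh).Mw (X h hh).S ((X h hh).tau (X h hh).Ph) h hDD
        (by
          have : (0 : ℝ) ≤ k := Nat.cast_nonneg _
          linarith) hNpos ?_ ?_ hh0 hhH hSpos ?_ ?_ (X h hh).tau_nonneg (X h hh).tau_le ?_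
      · rw [hMw h hh]; exact hMge
      · rw [hMw h hh]; exact hMle
      · rw [le_div_iff₀ (by positivity)] at hSle
        rw [← mul_div_assoc, div_le_one hNpos]
        linarith
      · have := (X h hh).tau_ge
        exact this
      · intro e he he1
        have hMpos : 0 < (X h hh).Mw := by
          rw [hMw h hh]; linarith
        exact (X h hh).key (K / h) e hLκ he he1 hMpos
  -- conclusion
  have h1 : Real.log (∏ i, γ i) ≤ N * Real.log (k + 1) + (-1 + ε / 2) * N := by
    rw [Real.log_prod (fun i _ => (hγpos i).ne')]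
    have h2 : ∀ i, Real.log (γ i) ≤ Real.log (k + 1) + Real.log (h₀ + γ i / (k + 1)) := by
      intro i
      have h3 := hγpos i
      rw [← Real.log_mul hD.ne' (by positivity)]
      apply Real.log_le_log h3
      rw [mul_add, mul_div_cancel₀ _ hD.ne']
      have : 0 < ((k : ℝ) + 1) * h₀ := by positivity
      linarith
    calc ∑ i, Real.log (γ i) ≤ ∑ i, (Real.log (k + 1) + Real.log (h₀ + γ i / (k + 1))) :=
          sum_le_sum fun i _ => h2 i
      _ = N * Real.log (k + 1) + ∑ i, Real.log (h₀ + γ i / (k + 1)) := by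
          rw [sum_add_distrib, sum_const, nsmul_eq_mul, card_univ]
      _ ≤ _ := by linarith
  have h2 : Real.log (∏ i, γ i) = Real.log (A.det ^ 2) +
      ∑ σ : Row n k v, Real.log (wt T (K * (k + 1)) σ.1) := by
    rw [← (X h₀ h0).det_G, hdetG, Real.log_mul hA2.ne' (prod_pos fun σ _ => hwpos σ).ne',
      Real.log_prod (fun σ _ => (hwpos σ).ne')]
  have h3 : - ∑ σ : Row n k v, Real.log (wt T (K * (k + 1)) σ.1) ≤ ε / 2 * N := by
    rw [← sum_neg_distrib]
    have h4 : ∀ σ : Row n k v, - Real.log (wt T (K * (k + 1)) σ.1) ≤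
        1 / wt T (K * (k + 1)) σ.1 - 1 := by
      intro σ
      rw [← Real.log_inv, ← one_div]
      exact Real.log_le_sub_one_of_pos (one_div_pos.mpr (hwpos σ))
    calc ∑ σ : Row n k v, - Real.log (wt T (K * (k + 1)) σ.1)
        ≤ ∑ σ : Row n k v, (1 / wt T (K * (k + 1)) σ.1 - 1) := sum_le_sum fun σ _ => h4 σ
      _ = ∑ σ ∈ rows n k v, 1 / wt T (K * (k + 1)) σ - N := by
          rw [sum_sub_distrib, Finset.sum_coe_sort (rows n k v)
            (fun σ => 1 / wt T (K * (k + 1)) σ), sum_const, nsmul_eq_mul, mul_one, card_univ]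
      _ ≤ N * (1 / K) := by linarith
      _ ≤ _ := by nlinarith
  linarith

end Pool.Agent.Lib.MP_9701dc_gt.DD
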