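import Pool.Agent.Lib.MP_9701dc_gt.GR.Reduced

set_option autoImplicit false
set_option linter.unusedSectionVars false

/-!
# The Gram matrix of boundaries and the reduced minor

`det (gram (T i) (T j)) = det (A)^2 * det (1 + Bᵀ B)`, where `A` is the reduced incidence matrix of
the faces `T i` and `B` the boundary matrix on the reduced rows.
-/

namespace Pool.Agent.Lib.MP_9701dc_gt.DD

open Finset Pool.Agent.Lib.MP_9701dc_gt Pool.Agent.Lib.MP_9701dc_gt.GR

variable {n d : ℕ}

/-- the identity plus the reduced down-Laplacian -/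
noncomputable def Err (n d : ℕ) (v : Fin n) : Matrix (Row n d v) (Row n d v) ℝ :=
  1 + (Brr n d v).transpose * Brr n d v

theorem det_Err (hn : 2 ≤ n) (v : Fin n) : 0 < (Err n d v).det ∧
    Real.log (Err n d v).det =
      (Fintype.card (Row n d v) : ℝ) * d / ((n : ℝ) - 1) * Real.log n := by
  have hs : (1 : ℝ) < n := by exact_mod_cast hn
  have hH : (Err n d v).IsHermitian := by
    have h1 := Matrix.isHermitian_conjTranspose_mul_self (Brr n d v)
    rw [Matrix.conjTranspose_eq_transpose_of_trivial] at h1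
    exact Matrix.isHermitian_one.add h1
  have hprod : (Err n d v - 1) *
      (Err n d v - (n : ℝ) • (1 : Matrix (Row n d v) (Row n d v) ℝ)) = 0 := by
    unfold Err
    set B := Brr n d v with hB
    have h1 : B.transpose * (B * B.transpose * B) = B.transpose * (((n : ℝ) - 1) • B) := by
      rw [hB, B_mul]
    have h2 : B.transpose * B * (B.transpose * B) = ((n : ℝ) - 1) • (B.transpose * B) := by
      rw [Matrix.mul_smul] at h1
      rw [← h1]
      simp only [Matrix.mul_assoc]
    have h3 : 1 + B.transpose * B - 1 = B.transpose * B := by abel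
    have h4 : 1 + B.transpose * B - (n : ℝ) • (1 : Matrix (Row n d v) (Row n d v) ℝ) =
        B.transpose * B - ((n : ℝ) - 1) • (1 : Matrix (Row n d v) (Row n d v) ℝ) := by
      rw [sub_smul, one_smul]
      abel
    rw [h3, h4, mul_sub, h2, mul_smul_comm, mul_one, sub_self]
  obtain ⟨h1, h2⟩ := log_det_of_two _ hH hs hprod
  refine ⟨h1, ?_⟩
  rw [h2]
  have h3 := trace_eq (d := d) v
  rw [mul_transpose_eq, Matrix.trace_sub, Matrix.trace_smul, Matrix.trace_one, smul_eq_mul] at h3
  have h4 : (Err n d v).trace = (Fintype.card (Row n d v) : ℝ) +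
      ((Brr n d v).transpose * Brr n d v).trace := by
    unfold Err
    rw [Matrix.trace_add, Matrix.trace_one]
  have h5 : (Err n d v).trace - Fintype.card (Row n d v) =
      (Fintype.card (Row n d v) : ℝ) * d := by
    rw [h4]
    linarith
  rw [h5]

theorem sum_rows_inc (v : Fin n) {ρ : Finset (Fin n)} (hρ : ρ.card + 1 = d) (hv : v ∉ ρ)
    (τ : Finset (Fin n)) :
    ∑ σ : Row n d v, inc ρ σ.1 * inc σ.1 τ = -(sg v ρ * inc (insert v ρ) τ) := by
  have h := inc_comp ρ τ
  have h1 : ∑ σ : Row n d v, inc ρ σ.1 * inc σ.1 τ =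
      ∑ σ ∈ rows n d v, inc ρ σ * inc σ τ :=
    (sum_coe_sort (rows n d v) fun σ => inc ρ σ * inc σ τ)
  have h2 : ∑ σ : Finset (Fin n), inc ρ σ * inc σ τ =
      ∑ σ ∈ insert (insert v ρ) (rows n d v), inc ρ σ * inc σ τ := by
    symm
    refine sum_subset (subset_univ _) fun σ _ hσ => ?_
    by_contra hc
    obtain ⟨x, hx, hx'⟩ := inc_ne_zero (left_ne_zero_of_mul hc)
    apply hσ
    by_cases hxv : x = v
    · subst hxv
      rw [hx']
      exact mem_insert_self _ _
    · refine mem_insert_of_mem (mem_rows.mpr ⟨?_, ?_⟩)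
      · rw [hx', card_insert_of_notMem hx, hρ]
      · rw [hx', mem_insert, not_or]
        exact ⟨fun h => hxv h.symm, hv⟩
  have hnot : insert v ρ ∉ rows n d v := by
    intro hmem
    exact (mem_rows.mp hmem).2 (mem_insert_self _ _)
  rw [h2, sum_insert hnot, inc_insert hv] at h
  rw [h1]
  linarith

theorem sum_rows_inc_zero (v : Fin n) {ρ : Finset (Fin n)} (hρ : ¬ (ρ.card + 1 = d ∧ v ∉ ρ))
    (τ : Finset (Fin n)) :
    ∑ σ : Row n d v, inc ρ σ.1 * inc σ.1 τ = 0 := by
  refine sum_eq_zero fun σ _ => ?_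
  have : inc ρ σ.1 = 0 := by
    by_contra hc
    obtain ⟨x, hx, hx'⟩ := inc_ne_zero hc
    have hσ := mem_rows.mp σ.2
    apply hρ
    constructor
    · rw [← hσ.1, hx', card_insert_of_notMem hx]
    · intro hvθ
      apply hσ.2
      rw [hx']
      exact mem_insert_of_mem hvθ
  rw [this, zero_mul]

theorem gram_eq (v : Fin n) {τ τ' : Finset (Fin n)} (hτ : τ.card = d + 1) :
    gram τ τ' = ∑ σ : Row n d v, inc σ.1 τ * inc σ.1 τ' +
      ∑ ρ : Finset (Fin n), (∑ σ : Row n d v, inc ρ σ.1 * inc σ.1 τ) *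
        (∑ σ : Row n d v, inc ρ σ.1 * inc σ.1 τ') := by
  set S : Finset (Finset (Fin n)) := univ.filter fun ρ => ρ.card + 1 = d ∧ v ∉ ρ with hS
  have h1 : ∑ ρ : Finset (Fin n), (∑ σ : Row n d v, inc ρ σ.1 * inc σ.1 τ) *
        (∑ σ : Row n d v, inc ρ σ.1 * inc σ.1 τ') =
      ∑ ρ ∈ S, inc (insert v ρ) τ * inc (insert v ρ) τ' := by
    rw [← sum_subset (subset_univ S)]
    · refine sum_congr rfl fun ρ hρ => ?_
      have hρ' := (mem_filter.mp hρ).2
      rw [sum_rows_inc v hρ'.1 hρ'.2, sum_rows_inc v hρ'.1 hρ'.2]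
      calc -(sg v ρ * inc (insert v ρ) τ) * -(sg v ρ * inc (insert v ρ) τ') =
          sg v ρ * sg v ρ * (inc (insert v ρ) τ * inc (insert v ρ) τ') := by ring
        _ = inc (insert v ρ) τ * inc (insert v ρ) τ' := by rw [sg_sq, one_mul]
    · intro ρ _ hρ
      have hρ' : ¬ (ρ.card + 1 = d ∧ v ∉ ρ) := fun h => hρ (mem_filter.mpr ⟨mem_univ _, h⟩)
      rw [sum_rows_inc_zero v hρ', zero_mul]
  have h2 : ∑ σ : Row n d v, inc σ.1 τ * inc σ.1 τ' =
      ∑ σ ∈ rows n d v, inc σ τ * inc σ τ' :=
    (sum_coe_sort (rows n d v) fun σ => inc σ τ * inc σ τ')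
  have h3 : ∑ ρ ∈ S, inc (insert v ρ) τ * inc (insert v ρ) τ' =
      ∑ σ ∈ S.image (insert v), inc σ τ * inc σ τ' := by
    rw [sum_image]
    intro a ha b hb hab
    have ha' := (mem_filter.mp ha).2
    have hb' := (mem_filter.mp hb).2
    have h5 : (insert v a).erase v = (insert v b).erase v := by
      have : insert v a = insert v b := hab
      rw [this]
    rwa [erase_insert ha'.2, erase_insert hb'.2] at h5
  have hdisj : Disjoint (rows n d v) (S.image (insert v)) := by
    rw [disjoint_left]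
    intro σ hσ hσ'
    obtain ⟨ρ, _, rfl⟩ := mem_image.mp hσ'
    exact (mem_rows.mp hσ).2 (mem_insert_self _ _)
  rw [h1, h2, h3, ← sum_union hdisj]
  unfold gram
  symm
  refine sum_subset (subset_univ _) fun σ _ hσ => ?_
  by_contra hc
  obtain ⟨x, hx, hx'⟩ := inc_ne_zero (left_ne_zero_of_mul hc)
  have hcard : σ.card = d := by
    rw [hx', card_insert_of_notMem hx] at hτ
    omega
  apply hσ
  rw [mem_union]
  by_cases hvσ : v ∈ σ
  · right
    refine mem_image.mpr ⟨σ.erase v, mem_filter.mpr ⟨mem_univ _, ?_, notMem_erase v σ⟩,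
      insert_erase hvσ⟩
    rw [card_erase_add_one hvσ, hcard]
  · left
    exact mem_rows.mpr ⟨hcard, hvσ⟩

/-- **The Gram determinant of the boundaries.** -/
theorem gram_det (v : Fin n) (T : Row n d v → Finset (Fin n)) (hc : ∀ i, (T i).card = d + 1)
    (A : Matrix (Row n d v) (Row n d v) ℝ) (hA : ∀ i σ, A i σ = (inc σ.1 (T i) : ℝ)) :
    (Matrix.of fun i j => (gram (T i) (T j) : ℝ)).det = A.det ^ 2 * (Err n d v).det := by
  have h : (Matrix.of fun i j => (gram (T i) (T j) : ℝ)) = A * Err n d v * A.transpose := by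
    have h1 : A * Err n d v * A.transpose =
        A * A.transpose + (A * (Brr n d v).transpose) * (A * (Brr n d v).transpose).transpose := by
      unfold Err
      rw [mul_add, mul_one, add_mul, Matrix.transpose_mul, Matrix.transpose_transpose]
      simp only [Matrix.mul_assoc]
    rw [h1]
    ext i j
    rw [Matrix.of_apply, gram_eq v (hc i)]
    simp only [Matrix.add_apply, Matrix.mul_apply, Matrix.transpose_apply, Brr, hA]
    push_cast
    congr 1
    refine sum_congr rfl fun ρ _ => ?_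
    congr 1 <;> exact sum_congr rfl fun σ _ => mul_comm _ _
  rw [h, Matrix.det_mul, Matrix.det_mul, Matrix.det_transpose]
  ring

end Pool.Agent.Lib.MP_9701dc_gt.DD
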