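import Pool.Agent.Lib.MP_9701dc_gt.DD.Key

set_option autoImplicit false

/-!
# The resolvent (module M4)
-/

namespace Pool.Agent.Lib.MP_9701dc_gt.DD

open Finset Matrix

namespace Sys

variable {n : ℕ} {ι : Type*} [Fintype ι] (X : Sys n ι)

/-- weighted Gram matrix -/
def G : Matrix ι ι ℝ := Matrix.of fun i j => ∑ ρ, X.w ρ * X.b ρ i * X.b ρ j

theorem G_apply (i j : ι) : X.G i j = ∑ ρ, X.w ρ * X.b ρ i * X.b ρ j := rfl

theorem G_quad (x : ι → ℝ) :
    x ⬝ᵥ (X.G *ᵥ x) = ∑ ρ, X.w ρ * (∑ i, X.b ρ i * x i) ^ 2 := by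
  have h1 : ∀ ρ, X.w ρ * (∑ i, X.b ρ i * x i) ^ 2 =
      ∑ i, ∑ j, x i * (X.w ρ * X.b ρ i * X.b ρ j) * x j := by
    intro ρ
    rw [sq, sum_mul_sum, mul_sum]
    refine sum_congr rfl fun i _ => ?_
    rw [mul_sum]
    exact sum_congr rfl fun j _ => by ring
  simp only [h1]
  simp only [dotProduct, mulVec, G_apply, mul_sum, sum_mul]
  rw [sum_comm (f := fun ρ i => ∑ j, x i * (X.w ρ * X.b ρ i * X.b ρ j) * x j)]
  refine sum_congr rfl fun i _ => ?_
  rw [sum_comm (f := fun ρ j => x i * (X.w ρ * X.b ρ i * X.b ρ j) * x j)]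
  exact sum_congr rfl fun j _ => sum_congr rfl fun ρ _ => by ring

theorem G_symm : X.G.IsHermitian := by
  ext i j
  simp only [conjTranspose_apply, star_trivial, G_apply]
  exact sum_congr rfl fun ρ _ => by ring

variable [DecidableEq ι]

/-- `G + η` -/
def M : Matrix ι ι ℝ := X.G + X.η • (1 : Matrix ι ι ℝ)

theorem M_quad (x : ι → ℝ) :
    x ⬝ᵥ (X.M *ᵥ x) = ∑ ρ, X.w ρ * (∑ i, X.b ρ i * x i) ^ 2 + X.η * ∑ i, x i ^ 2 := by
  unfold M
  rw [add_mulVec, dotProduct_add, G_quad, smul_mulVec, one_mulVec, dotProduct_smul]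
  congr 1
  rw [smul_eq_mul]
  congr 1
  simp only [dotProduct]
  exact sum_congr rfl fun i _ => by ring

theorem M_posDef : X.M.PosDef := by
  refine Matrix.PosDef.of_dotProduct_mulVec_pos ?_ fun x hx => ?_
  · unfold M
    refine IsHermitian.add X.G_symm ?_
    ext i j
    simp only [conjTranspose_apply, star_trivial, Matrix.smul_apply, smul_eq_mul]
    by_cases h : i = j
    · rw [h]
    · rw [one_apply_ne h, one_apply_ne (Ne.symm h)]
  · rw [star_trivial, M_quad]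
    have h1 : 0 ≤ ∑ ρ, X.w ρ * (∑ i, X.b ρ i * x i) ^ 2 :=
      sum_nonneg fun ρ _ => mul_nonneg (X.w_pos ρ).le (sq_nonneg _)
    have h2 : 0 < ∑ i, x i ^ 2 := by
      obtain ⟨i, hi⟩ := Function.ne_iff.mp hx
      exact sum_pos' (fun i _ => sq_nonneg _) ⟨i, mem_univ i, by
        have : x i ≠ 0 := hi
        positivity⟩
    have := mul_pos X.η_pos h2
    linarith

/-- the resolvent -/
noncomputable def R : Matrix ι ι ℝ := X.M⁻¹

theorem isUnit_det : IsUnit X.M.det := X.M_posDef.det_pos.ne'.isUnit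

theorem M_mul_R : X.M * X.R = 1 := Matrix.mul_nonsing_inv _ X.isUnit_det

theorem R_mul_M : X.R * X.M = 1 := Matrix.nonsing_inv_mul _ X.isUnit_det

theorem R_posDef : X.R.PosDef := X.M_posDef.inv

/-- the solution -/
noncomputable def Ph (i : ι) (s : Finset (Fin n)) : ℝ := ∑ j, X.R i j * X.b s j

theorem Ph_isSol : X.IsSol X.Ph := by
  refine ⟨fun i s hs => ?_, fun i s => ?_⟩
  · unfold Ph
    exact sum_eq_zero fun j _ => by rw [X.b_of_notMem hs, mul_zero]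
  · have h1 : (X.M *ᵥ (X.R *ᵥ (X.b s))) i = X.b s i := by
      rw [mulVec_mulVec, M_mul_R, one_mulVec]
    rw [← h1]
    have h2 : X.R *ᵥ (X.b s) = fun j => X.Ph j s := rfl
    rw [h2]
    unfold M
    rw [add_mulVec, smul_mulVec, one_mulVec]
    simp only [Pi.add_apply, Pi.smul_apply, smul_eq_mul]
    congr 1
    simp only [mulVec, dotProduct, G_apply, mul_sum, sum_mul]
    rw [sum_comm]
    exact sum_congr rfl fun j _ => sum_congr rfl fun ρ _ => by ring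

/-- `S = tr (G + η)⁻¹` -/
noncomputable def S : ℝ := X.R.trace

theorem tau_ge : (Fintype.card ι : ℝ) - X.η * X.S ≤ X.tau X.Ph := by
  have h0 : X.tau X.Ph = ∑ ρ, X.b ρ ⬝ᵥ (X.R *ᵥ X.b ρ) := by
    unfold tau Th Ph
    rfl
  have h1 : ∀ ρ, 0 ≤ X.b ρ ⬝ᵥ (X.R *ᵥ X.b ρ) := by
    intro ρ
    have := X.R_posDef.posSemidef.dotProduct_mulVec_nonneg (X.b ρ)
    simpa using this
  have h2 : ∑ ρ, X.w ρ * (X.b ρ ⬝ᵥ (X.R *ᵥ X.b ρ)) = (X.R * X.G).trace := by
    simp only [trace, diag_apply, mul_apply, G_apply, dotProduct, mulVec, mul_sum]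
    rw [sum_comm]
    refine sum_congr rfl fun i _ => ?_
    rw [sum_comm]
    exact sum_congr rfl fun j _ => sum_congr rfl fun ρ _ => by
      ring
  have h3 : (X.R * X.G).trace = (Fintype.card ι : ℝ) - X.η * X.S := by
    have h4 : X.G = X.M - X.η • (1 : Matrix ι ι ℝ) := by
      unfold M
      rw [add_sub_cancel_right]
    rw [h4, mul_sub, R_mul_M, trace_sub, trace_one, mul_smul_comm, mul_one, trace_smul, smul_eq_mul]
    rfl
  rw [← h3, ← h2, h0]
  refine sum_le_sum fun ρ _ => ?_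
  have := X.w_le ρ
  have := h1 ρ
  nlinarith

/-- Cauchy–Schwarz. -/
theorem cs (F : ι → Finset (Fin n) → ℝ) :
    (∑ i, F i (X.T i)) ^ 2 ≤ X.S *
      (∑ ρ, ∑ s, X.w ρ * (∑ i, X.b ρ i * F i s) ^ 2 + X.η * ∑ i, ∑ s, F i s ^ 2) := by
  set A := ∑ ρ, ∑ s, X.w ρ * (∑ i, X.b ρ i * F i s) ^ 2 + X.η * ∑ i, ∑ s, F i s ^ 2 with hA
  set B := ∑ i, F i (X.T i) with hB
  -- indicator vectors
  set E : Finset (Fin n) → ι → ℝ := fun s i => if X.T i = s then 1 else 0 with hE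
  set f : Finset (Fin n) → ι → ℝ := fun s i => F i s with hf
  have hAs : A = ∑ s, f s ⬝ᵥ (X.M *ᵥ f s) := by
    simp only [M_quad, sum_add_distrib]
    rw [hA, sum_comm (f := fun ρ s => X.w ρ * (∑ i, X.b ρ i * F i s) ^ 2),
      sum_comm (f := fun i s => F i s ^ 2), mul_sum]
  have hBs : B = ∑ s, f s ⬝ᵥ E s := by
    simp only [dotProduct, hE, hf]
    rw [sum_comm]
    refine sum_congr rfl fun i _ => ?_
    rw [sum_eq_single (X.T i)]
    · rw [if_pos rfl, mul_one]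
    · intro s _ hs
      rw [if_neg (Ne.symm hs), mul_zero]
    · intro h; exact absurd (mem_univ _) h
  have hSs : X.S = ∑ s, E s ⬝ᵥ (X.R *ᵥ E s) := by
    simp only [dotProduct, mulVec, hE]
    rw [sum_comm]
    unfold S trace
    refine sum_congr rfl fun i _ => ?_
    rw [sum_eq_single (X.T i)]
    · rw [if_pos rfl, one_mul, sum_eq_single i]
      · rw [if_pos rfl, mul_one, diag_apply]
      · intro j _ hj
        rw [if_neg (fun h => hj (X.T_inj h)), mul_zero]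
      · intro h; exact absurd (mem_univ _) h
    · intro s _ hs
      rw [if_neg (Ne.symm hs), zero_mul]
    · intro h; exact absurd (mem_univ _) h
  have key : ∀ t : ℝ, 0 ≤ A - 2 * t * B + t ^ 2 * X.S := by
    intro t
    have h1 : ∀ s, 0 ≤ (f s - t • (X.R *ᵥ E s)) ⬝ᵥ (X.M *ᵥ (f s - t • (X.R *ᵥ E s))) := by
      intro s
      have := X.M_posDef.posSemidef.dotProduct_mulVec_nonneg (f s - t • (X.R *ᵥ E s))
      simpa using this
    have hMt : X.Mᵀ = X.M := by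
      ext i j
      have := congrFun (congrFun X.M_posDef.1 i) j
      rw [conjTranspose_apply, star_trivial] at this
      rw [transpose_apply, this]
    have h2 : ∀ s, (f s - t • (X.R *ᵥ E s)) ⬝ᵥ (X.M *ᵥ (f s - t • (X.R *ᵥ E s))) =
        f s ⬝ᵥ (X.M *ᵥ f s) - 2 * t * (f s ⬝ᵥ E s) + t ^ 2 * (E s ⬝ᵥ (X.R *ᵥ E s)) := by
      intro s
      have e1 : X.M *ᵥ (X.R *ᵥ E s) = E s := by
        rw [mulVec_mulVec, M_mul_R, one_mulVec]
      have e2 : (X.R *ᵥ E s) ⬝ᵥ (X.M *ᵥ f s) = f s ⬝ᵥ E s := by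
        rw [dotProduct_mulVec, ← mulVec_transpose, hMt, e1, dotProduct_comm]
      rw [mulVec_sub, mulVec_smul, e1, sub_dotProduct, dotProduct_sub, dotProduct_sub,
        dotProduct_smul, dotProduct_smul, smul_dotProduct, smul_dotProduct, e2,
        dotProduct_comm (X.R *ᵥ E s) (E s)]
      simp only [smul_eq_mul]
      ring
    have h3 : 0 ≤ ∑ s, (f s - t • (X.R *ᵥ E s)) ⬝ᵥ (X.M *ᵥ (f s - t • (X.R *ᵥ E s))) :=
      sum_nonneg fun s _ => h1 s
    simp only [h2, sum_add_distrib, sum_sub_distrib, ← mul_sum] at h3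
    rw [hAs, hBs, hSs]
    exact h3
  have hS0 : 0 ≤ X.S := X.R_posDef.posSemidef.trace_nonneg
  have hA0 : 0 ≤ A := by
    have := key 0
    simpa using this
  rcases eq_or_lt_of_le hS0 with h | h
  · rw [← h] at key ⊢
    -- B must vanish
    have hB0 : B = 0 := by
      by_contra hne
      have := key ((A + 1) / (2 * B))
      have e : 2 * ((A + 1) / (2 * B)) * B = A + 1 := by field_simp
      rw [e] at this
      linarith
    rw [hB0]; simp
  · have := key (B / X.S)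
    have e : A - 2 * (B / X.S) * B + (B / X.S) ^ 2 * X.S = A - B ^ 2 / X.S := by
      field_simp
      ring
    rw [e] at this
    have h2 : B ^ 2 / X.S ≤ A := by linarith
    rw [div_le_iff₀ h] at h2
    linarith

/-- **Key inequality.** -/
theorem key (κ ε : ℝ) (hκ : X.L = κ * X.η) (hε : 0 < ε) (hε1 : ε < 1) (hM : 0 < X.Mw) :
    (1 - ε) * X.tau X.Ph ^ 2 ≤ X.S *
      ((X.k + 1) * (X.tau X.Ph * (1 - X.tau X.Ph / X.Mw)) +
        1 / ε * (2 * κ * (1 + κ) / X.η) * (X.Mw - X.tau X.Ph)) := by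
  have hsol := X.Ph_isSol
  have h1 := EF_le hsol (X.tau X.Ph / X.Mw) ε hε
  have h2 := apriori_sum hsol κ hκ
  have h3 := X.cs (Fc X X.Ph)
  rw [sum_Fc hsol] at h3
  have hη := X.η_pos
  have hS0 : 0 ≤ X.S := X.R_posDef.posSemidef.trace_nonneg
  have h4 : ∑ i, ∑ s, (((X.T i) \ s).card : ℝ) ^ 2 * X.Ph i s ^ 2 ≤
      (2 * κ * (1 + κ) / X.η) * (X.Mw - X.tau X.Ph) := by
    rw [div_mul_eq_mul_div, le_div_iff₀ hη]
    linarith
  have h5 : 1 / ε * ∑ i, ∑ s, (((X.T i) \ s).card : ℝ) ^ 2 * X.Ph i s ^ 2 ≤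
      1 / ε * ((2 * κ * (1 + κ) / X.η) * (X.Mw - X.tau X.Ph)) :=
    mul_le_mul_of_nonneg_left h4 (by positivity)
  have h6 : X.tau X.Ph - 2 * (X.tau X.Ph / X.Mw) * X.tau X.Ph +
      (X.tau X.Ph / X.Mw) ^ 2 * X.Mw = X.tau X.Ph * (1 - X.tau X.Ph / X.Mw) := by
    field_simp
    ring
  rw [h6] at h1
  have h7 : (1 - ε) * X.tau X.Ph ^ 2 ≤ X.S * ((1 - ε) * EF X X.Ph) := by
    have h8 : X.tau X.Ph ^ 2 ≤ X.S * EF X X.Ph := h3
    have := mul_le_mul_of_nonneg_left h8 (by linarith : 0 ≤ 1 - ε)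
    linarith
  refine h7.trans (mul_le_mul_of_nonneg_left ?_ hS0)
  linarith

theorem tau_le : X.tau X.Ph ≤ X.Mw := by
  have h1 := energy' X.Ph_isSol
  have h2 : 0 ≤ ∑ ρ, ∑ s, X.w ρ * (X.dg ρ s - X.Th X.Ph ρ s) ^ 2 :=
    sum_nonneg fun ρ _ => sum_nonneg fun s _ => mul_nonneg (X.w_pos ρ).le (sq_nonneg _)
  have h3 : 0 ≤ X.η * ∑ i, ∑ s, X.Ph i s ^ 2 :=
    mul_nonneg X.η_pos.le (sum_nonneg fun i _ => sum_nonneg fun s _ => sq_nonneg _)
  linarith

theorem tau_nonneg : 0 ≤ X.tau X.Ph := by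
  have h1 := energy X.Ph_isSol
  have h2 : 0 ≤ ∑ ρ, ∑ s, X.w ρ * X.Th X.Ph ρ s ^ 2 :=
    sum_nonneg fun ρ _ => sum_nonneg fun s _ => mul_nonneg (X.w_pos ρ).le (sq_nonneg _)
  have h3 : 0 ≤ X.η * ∑ i, ∑ s, X.Ph i s ^ 2 :=
    mul_nonneg X.η_pos.le (sum_nonneg fun i _ => sum_nonneg fun s _ => sq_nonneg _)
  linarith

end Sys

end Pool.Agent.Lib.MP_9701dc_gt.DD
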