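import Pool.Agent.Lib.MP_9701dc_gt.DD.Sign2
import Pool.Agent.Lib.MP_9701dc_gt.DD.Resolvent
import Pool.Agent.Lib.MP_9701dc_gt.GR.Hodge

set_option autoImplicit false

/-!
# The key inequality with a free parameter (module W6)
-/

namespace Pool.Agent.Lib.MP_9701dc_gt.DD

open Finset

namespace Sys

variable {n : ℕ} {ι : Type*} [Fintype ι] {X : Sys n ι}
variable {Φ : ι → Finset (Fin n) → ℝ}

/-- the rows of `Φ` are cycles -/
def IsCyc (Φ : ι → Finset (Fin n) → ℝ) : Prop :=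
  ∀ i, ∀ s : Finset (Fin n), ∑ z ∈ sᶜ, sr z s * Φ i (insert z s) = 0

theorem Th_cyc (hcyc : IsCyc Φ) (ρ s : Finset (Fin n)) :
    ∑ z ∈ sᶜ, sr z s * X.Th Φ ρ (insert z s) = 0 := by
  unfold Th
  simp only [mul_sum]
  rw [sum_comm]
  refine sum_eq_zero fun j _ => ?_
  have h := hcyc j s
  calc ∑ z ∈ sᶜ, sr z s * (X.b ρ j * Φ j (insert z s))
      = X.b ρ j * ∑ z ∈ sᶜ, sr z s * Φ j (insert z s) := by
        rw [mul_sum]; exact sum_congr rfl fun z _ => by ring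
    _ = 0 := by rw [h, mul_zero]

/-- the created function -/
def Fb (X : Sys n ι) (β : ℝ) (Φ : ι → Finset (Fin n) → ℝ) (i : ι) (s : Finset (Fin n)) : ℝ :=
  crf (fv β (X.T i)) (Φ i) s

theorem crf_sum (f : Fin n → ℝ) (c : ι → ℝ) (x : ι → Finset (Fin n) → ℝ)
    (s : Finset (Fin n)) : crf f (fun s => ∑ i, c i * x i s) s = ∑ i, c i * crf f (x i) s := by
  unfold crf
  simp only [mul_sum]
  rw [sum_comm]
  exact sum_congr rfl fun i _ => sum_congr rfl fun z _ => by ring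

theorem b_Fb (β : ℝ) (ρ s : Finset (Fin n)) :
    ∑ i, X.b ρ i * Fb X β Φ i s = crf (fv β ρ) (X.Th Φ ρ) s + Gh X Φ ρ s := by
  have h1 : ∀ i, X.b ρ i * Fb X β Φ i s =
      X.b ρ i * crf (fv β ρ) (Φ i) s + X.b ρ i * cr ((X.T i) \ ρ) (Φ i) s := by
    intro i
    by_cases hb : X.b ρ i = 0
    · rw [hb]; ring
    · obtain ⟨_, z, hz, hT, _⟩ := X.b_ne hb
      unfold Fb
      rw [crf_fv_split (v := ρ) (by rw [hT]; exact subset_insert _ _)]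
      ring
  simp only [h1, sum_add_distrib]
  unfold Gh
  congr 1
  rw [← crf_sum (fv β ρ) (fun i => X.b ρ i) Φ s]
  rfl

/-- the energy of the created function -/
def EB (X : Sys n ι) (β : ℝ) (Φ : ι → Finset (Fin n) → ℝ) : ℝ :=
  ∑ ρ, ∑ s, X.w ρ * (∑ i, X.b ρ i * Fb X β Φ i s) ^ 2 + X.η * ∑ i, ∑ s, Fb X β Φ i s ^ 2

theorem EB_le (hΦ : X.IsSol Φ) (hcyc : IsCyc Φ) (hM : 0 < X.Mw) (hkn : X.k + 1 ≤ n)
    (β ε : ℝ) (hε : 0 < ε) :
    (1 - ε) * EB X β Φ ≤ ((X.k + 1) * β ^ 2 + ((n : ℝ) - X.k) * (1 - β) ^ 2) * X.tau Φ -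
      X.k * X.tau Φ ^ 2 / X.Mw +
      1 / ε * ∑ i, ∑ s, (((X.T i) \ s).card : ℝ) ^ 2 * Φ i s ^ 2 := by
  have hk : (0 : ℝ) ≤ X.k := Nat.cast_nonneg _
  have hkn' : (X.k : ℝ) + 1 ≤ n := by exact_mod_cast hkn
  set F2 : ℝ := (X.k + 1) * β ^ 2 + ((n : ℝ) - X.k) * (1 - β) ^ 2 with hF2
  have hF20 : 0 ≤ F2 := by
    have : 0 ≤ (n : ℝ) - X.k := by linarith
    positivity
  -- norm of the created function
  have h1 : ∑ i, ∑ s, Fb X β Φ i s ^ 2 ≤ F2 * ∑ i, ∑ s, Φ i s ^ 2 := by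
    rw [mul_sum]
    refine sum_le_sum fun i _ => ?_
    have h2 := crf_norm_le (fv β (X.T i)) (Φ i) X.k
      (fun s hs => hΦ.supp i s fun hm => hs (X.Rd_card s hm))
    rw [fv_norm, X.T_card i] at h2
    have h3 : 0 ≤ ∑ s, Φ i s ^ 2 := sum_nonneg fun s _ => sq_nonneg _
    refine h2.trans (mul_le_mul_of_nonneg_right ?_ h3)
    push_cast
    rw [hF2]
    nlinarith [sq_nonneg (1 - β)]
  have h2 : ∑ ρ, ∑ s, X.w ρ * (crf (fv β ρ) (X.Th Φ ρ) s) ^ 2 ≤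
      F2 * ∑ ρ, ∑ s, X.w ρ * X.Th Φ ρ s ^ 2 - X.k * ∑ ρ, X.w ρ * X.Th Φ ρ ρ ^ 2 := by
    rw [mul_sum, mul_sum, ← sum_sub_distrib]
    refine sum_le_sum fun ρ _ => ?_
    rw [← mul_sum, ← mul_sum]
    have hw := X.w_pos ρ
    by_cases hρ : ρ ∈ X.Rd
    · have h3 := crf_anf_norm (fv β ρ) (X.Th Φ ρ) X.k (by
        intro s hs
        exact Th_of_right hΦ fun hm => hs (X.Rd_card s hm))
      have h4 := anf_fv_norm_ge β ρ (X.Th Φ ρ) (Th_cyc hcyc ρ)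
      rw [fv_norm, X.Rd_card ρ hρ] at h3
      rw [X.Rd_card ρ hρ] at h4
      have h6 : 0 ≤ ∑ s, X.Th Φ ρ s ^ 2 := sum_nonneg fun s _ => sq_nonneg _
      have h7 : ∑ s, (crf (fv β ρ) (X.Th Φ ρ) s) ^ 2 ≤
          F2 * ∑ s, X.Th Φ ρ s ^ 2 - X.k * X.Th Φ ρ ρ ^ 2 := by
        have h8 : (X.k * β ^ 2 + ((n : ℝ) - X.k) * (1 - β) ^ 2) * ∑ s, X.Th Φ ρ s ^ 2 ≤
            F2 * ∑ s, X.Th Φ ρ s ^ 2 := by
          refine mul_le_mul_of_nonneg_right ?_ h6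
          rw [hF2]
          nlinarith [sq_nonneg β]
        linarith
      have := mul_le_mul_of_nonneg_left h7 hw.le
      calc _ ≤ _ := this
        _ = _ := by ring
    · have h3 : ∀ s, crf (fv β ρ) (X.Th Φ ρ) s = 0 := by
        intro s
        unfold crf
        refine sum_eq_zero fun z _ => ?_
        rw [Th_of_left hρ]; ring
      simp only [h3, Th_of_left hρ]
      simp
  have h2' : X.tau Φ ^ 2 / X.Mw ≤ ∑ ρ, X.w ρ * X.Th Φ ρ ρ ^ 2 := by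
    rw [div_le_iff₀ hM, tau_eq]
    have h3 : (∑ ρ ∈ X.Rd, X.Th Φ ρ ρ) ^ 2 ≤
        (∑ ρ ∈ X.Rd, X.w ρ * X.Th Φ ρ ρ ^ 2) * ∑ ρ ∈ X.Rd, 1 / X.w ρ := by
      refine sum_sq_le_sum_mul_sum_of_sq_le_mul X.Rd (fun ρ _ => ?_) (fun ρ _ => ?_)
        (fun ρ _ => le_of_eq ?_)
      · have := X.w_pos ρ
        positivity
      · have := X.w_pos ρ
        positivity
      · have := (X.w_pos ρ).ne'
        field_simp
    have h4 : ∑ ρ ∈ X.Rd, X.w ρ * X.Th Φ ρ ρ ^ 2 ≤ ∑ ρ, X.w ρ * X.Th Φ ρ ρ ^ 2 :=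
      sum_le_sum_of_subset_of_nonneg (subset_univ _) fun ρ _ _ =>
        mul_nonneg (X.w_pos ρ).le (sq_nonneg _)
    exact h3.trans (mul_le_mul_of_nonneg_right h4 hM.le)
  have h3 : (1 - ε) * ∑ ρ, ∑ s, X.w ρ * (∑ i, X.b ρ i * Fb X β Φ i s) ^ 2 ≤
      ∑ ρ, ∑ s, X.w ρ * (crf (fv β ρ) (X.Th Φ ρ) s) ^ 2 +
      1 / ε * ∑ ρ, ∑ s, X.w ρ * Gh X Φ ρ s ^ 2 := by
    rw [mul_sum, mul_sum, ← sum_add_distrib]
    refine sum_le_sum fun ρ _ => ?_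
    rw [mul_sum, mul_sum, ← sum_add_distrib]
    refine sum_le_sum fun s _ => ?_
    rw [b_Fb β ρ s]
    set x := crf (fv β ρ) (X.Th Φ ρ) s
    set y := Gh X Φ ρ s
    have hw := X.w_pos ρ
    have h4 : (1 - ε) * (x + y) ^ 2 ≤ x ^ 2 + 1 / ε * y ^ 2 := by
      have h5 : x ^ 2 + 1 / ε * y ^ 2 - (1 - ε) * (x + y) ^ 2 =
          (ε * x - (1 - ε) * y) ^ 2 / ε + y ^ 2 := by
        field_simp
        ring
      have h6 : 0 ≤ (ε * x - (1 - ε) * y) ^ 2 / ε := by positivity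
      nlinarith [sq_nonneg y]
    have h7 := mul_le_mul_of_nonneg_left h4 hw.le
    linarith
  have h4 := Gh_bound hΦ
  have h5 := energy hΦ
  have h6 : 0 ≤ ∑ i, ∑ s, Fb X β Φ i s ^ 2 :=
    sum_nonneg fun i _ => sum_nonneg fun s _ => sq_nonneg _
  have hη := X.η_pos
  unfold EB
  have h7 : 1 / ε * ∑ ρ, ∑ s, X.w ρ * Gh X Φ ρ s ^ 2 ≤
      1 / ε * ∑ i, ∑ s, (((X.T i) \ s).card : ℝ) ^ 2 * Φ i s ^ 2 :=
    mul_le_mul_of_nonneg_left h4 (by positivity)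
  have h8 : (1 - ε) * (X.η * ∑ i, ∑ s, Fb X β Φ i s ^ 2) ≤
      X.η * (F2 * ∑ i, ∑ s, Φ i s ^ 2) := by
    have h9 : X.η * ∑ i, ∑ s, Fb X β Φ i s ^ 2 ≤ X.η * (F2 * ∑ i, ∑ s, Φ i s ^ 2) :=
      mul_le_mul_of_nonneg_left h1 hη.le
    have h10 : 0 ≤ X.η * ∑ i, ∑ s, Fb X β Φ i s ^ 2 := mul_nonneg hη.le h6
    nlinarith
  have h9 : X.k * (X.tau Φ ^ 2 / X.Mw) ≤ X.k * ∑ ρ, X.w ρ * X.Th Φ ρ ρ ^ 2 :=
    mul_le_mul_of_nonneg_left h2' hk
  calc _ = (1 - ε) * ∑ ρ, ∑ s, X.w ρ * (∑ i, X.b ρ i * Fb X β Φ i s) ^ 2 +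
      (1 - ε) * (X.η * ∑ i, ∑ s, Fb X β Φ i s ^ 2) := by ring
    _ ≤ (F2 * ∑ ρ, ∑ s, X.w ρ * X.Th Φ ρ s ^ 2 - X.k * (X.tau Φ ^ 2 / X.Mw)) +
      1 / ε * ∑ i, ∑ s, (((X.T i) \ s).card : ℝ) ^ 2 * Φ i s ^ 2 +
      X.η * (F2 * ∑ i, ∑ s, Φ i s ^ 2) := by linarith
    _ = _ := by rw [← h5]; ring

/-- the diagonal of the created function has sum `β τ` -/
theorem sum_Fb (hΦ : X.IsSol Φ) (β : ℝ) : ∑ i, Fb X β Φ i (X.T i) = β * X.tau Φ := by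
  rw [← sum_Fc hΦ, mul_sum]
  refine sum_congr rfl fun i _ => ?_
  unfold Fb Fc crf cr
  rw [inter_self, mul_sum]
  refine sum_congr rfl fun z hz => ?_
  unfold fv
  rw [if_pos hz]
  ring

/-- columnwise energy -/
theorem energy_col (hΦ : X.IsSol Φ) (s : Finset (Fin n)) :
    ∑ ρ, X.w ρ * X.Th Φ ρ s ^ 2 + X.η * ∑ i, Φ i s ^ 2 = X.Th Φ s s := by
  have h1 : ∑ i, Φ i s * X.b s i = X.Th Φ s s := by
    unfold Th
    exact sum_congr rfl fun i _ => by ring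
  rw [← h1]
  have h2 : ∀ i, Φ i s * X.b s i = ∑ ρ, X.w ρ * X.b ρ i * X.Th Φ ρ s * Φ i s +
      X.η * Φ i s ^ 2 := by
    intro i
    rw [← hΦ.eq i s, mul_add, mul_sum]
    congr 1
    · exact sum_congr rfl fun ρ _ => by unfold Th; ring
    · ring
  simp only [h2, sum_add_distrib]
  congr 1
  · rw [sum_comm]
    refine sum_congr rfl fun ρ _ => ?_
    calc X.w ρ * X.Th Φ ρ s ^ 2 = (X.w ρ * X.Th Φ ρ s) * ∑ i, X.b ρ i * Φ i s := by
          have : ∑ i, X.b ρ i * Φ i s = X.Th Φ ρ s := rfl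
          rw [this]; ring
      _ = _ := by
          rw [mul_sum]; exact sum_congr rfl fun i _ => by ring
  · rw [mul_sum]

theorem w_Th_le (hΦ : X.IsSol Φ) (s : Finset (Fin n)) :
    0 ≤ X.Th Φ s s ∧ X.w s * X.Th Φ s s ≤ 1 := by
  have h1 := energy_col hΦ s
  have h2 : X.w s * X.Th Φ s s ^ 2 ≤ ∑ ρ, X.w ρ * X.Th Φ ρ s ^ 2 :=
    single_le_sum (f := fun ρ => X.w ρ * X.Th Φ ρ s ^ 2)
      (fun ρ _ => mul_nonneg (X.w_pos ρ).le (sq_nonneg _)) (mem_univ s)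
  have h3 : 0 ≤ X.η * ∑ i, Φ i s ^ 2 :=
    mul_nonneg X.η_pos.le (sum_nonneg fun i _ => sq_nonneg _)
  have h4 : X.w s * X.Th Φ s s ^ 2 ≤ X.Th Φ s s := by linarith
  have h5 : 0 ≤ X.w s * X.Th Φ s s ^ 2 := mul_nonneg (X.w_pos s).le (sq_nonneg _)
  have h6 : 0 ≤ X.Th Φ s s := h5.trans h4
  refine ⟨h6, ?_⟩
  rcases eq_or_lt_of_le h6 with h | h
  · rw [← h]; norm_num
  · by_contra hc
    push Not at hc
    have := mul_lt_mul_of_pos_right hc h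
    nlinarith

section

variable [DecidableEq ι] (X)

theorem weighted_trace : ∑ ρ, X.w ρ * X.Th X.Ph ρ ρ = (Fintype.card ι : ℝ) - X.η * X.S := by
  have h0 : ∀ ρ, X.Th X.Ph ρ ρ = X.b ρ ⬝ᵥ (X.R.mulVec (X.b ρ)) := by
    intro ρ
    unfold Th Ph
    rfl
  simp only [h0]
  have h2 : ∑ ρ, X.w ρ * (X.b ρ ⬝ᵥ (X.R.mulVec (X.b ρ))) = (X.R * X.G).trace := by
    simp only [Matrix.trace, Matrix.diag_apply, Matrix.mul_apply, G_apply, dotProduct,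
      Matrix.mulVec, mul_sum]
    rw [sum_comm]
    refine sum_congr rfl fun i _ => ?_
    rw [sum_comm]
    exact sum_congr rfl fun j _ => sum_congr rfl fun ρ _ => by
      ring
  have h3 : (X.R * X.G).trace = (Fintype.card ι : ℝ) - X.η * X.S := by
    have h4 : X.G = X.M - X.η • (1 : Matrix ι ι ℝ) := by
      unfold M
      rw [add_sub_cancel_right]
    rw [h4, mul_sub, R_mul_M, Matrix.trace_sub, Matrix.trace_one, mul_smul_comm, mul_one,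
      Matrix.trace_smul, smul_eq_mul]
    rfl
  rw [h2, h3]

theorem tau_le' : X.tau X.Ph ≤ (Fintype.card ι : ℝ) - X.η * X.S +
    ∑ ρ ∈ X.Rd, (1 / X.w ρ - 1) := by
  rw [← weighted_trace, tau_eq]
  have h1 : ∑ ρ ∈ X.Rd, X.w ρ * X.Th X.Ph ρ ρ ≤ ∑ ρ, X.w ρ * X.Th X.Ph ρ ρ :=
    sum_le_sum_of_subset_of_nonneg (subset_univ _) fun ρ _ _ =>
      mul_nonneg (X.w_pos ρ).le (w_Th_le X.Ph_isSol ρ).1
  refine le_trans ?_ (add_le_add h1 le_rfl)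
  rw [← sum_add_distrib]
  refine sum_le_sum fun ρ _ => ?_
  obtain ⟨h2, h3⟩ := w_Th_le X.Ph_isSol ρ
  have hw := X.w_pos ρ
  have hw1 := X.w_le ρ
  have h4 : X.Th X.Ph ρ ρ ≤ 1 / X.w ρ := by
    rw [le_div_iff₀ hw]; linarith
  have h5 : X.w ρ * (1 / X.w ρ) = 1 := by field_simp
  nlinarith

/-- **Key inequality with parameter.** -/
theorem key2 (κ ε β : ℝ) (hκ : X.L = κ * X.η) (hε : 0 < ε) (hε1 : ε < 1) (hM : 0 < X.Mw)
    (hkn : X.k + 1 ≤ n) (hcyc : IsCyc X.Ph) :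
    (1 - ε) * β ^ 2 * X.tau X.Ph ^ 2 ≤ X.S *
      (((X.k + 1) * β ^ 2 + ((n : ℝ) - X.k) * (1 - β) ^ 2) * X.tau X.Ph -
        X.k * X.tau X.Ph ^ 2 / X.Mw +
        1 / ε * (2 * κ * (1 + κ) / X.η) * (X.Mw - X.tau X.Ph)) := by
  have hsol := X.Ph_isSol
  have h1 := EB_le hsol hcyc hM hkn β ε hε
  have h2 := apriori_sum hsol κ hκ
  have h3 := X.cs (Fb X β X.Ph)
  rw [sum_Fb hsol] at h3
  have hη := X.η_pos
  have hS0 : 0 ≤ X.S := X.R_posDef.posSemidef.trace_nonneg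
  have h4 : ∑ i, ∑ s, (((X.T i) \ s).card : ℝ) ^ 2 * X.Ph i s ^ 2 ≤
      (2 * κ * (1 + κ) / X.η) * (X.Mw - X.tau X.Ph) := by
    rw [div_mul_eq_mul_div, le_div_iff₀ hη]
    linarith
  have h5 : 1 / ε * ∑ i, ∑ s, (((X.T i) \ s).card : ℝ) ^ 2 * X.Ph i s ^ 2 ≤
      1 / ε * ((2 * κ * (1 + κ) / X.η) * (X.Mw - X.tau X.Ph)) :=
    mul_le_mul_of_nonneg_left h4 (by positivity)
  have h7 : (1 - ε) * β ^ 2 * X.tau X.Ph ^ 2 ≤ X.S * ((1 - ε) * EB X β X.Ph) := by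
    have h8 : (β * X.tau X.Ph) ^ 2 ≤ X.S * EB X β X.Ph := h3
    have := mul_le_mul_of_nonneg_left h8 (by linarith : 0 ≤ 1 - ε)
    linarith
  refine h7.trans (mul_le_mul_of_nonneg_left ?_ hS0)
  linarith

/-- for the full set of rows the solution is a cycle -/
theorem Ph_cyc (hfull : ∀ ρ : Finset (Fin n), ρ.card = X.k → ρ ∈ X.Rd) : IsCyc X.Ph := by
  intro i s
  have hb : ∀ ρ j, X.b ρ j = (inc ρ (X.T j) : ℝ) := by
    intro ρ j
    unfold b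
    by_cases hρ : ρ.card = X.k
    · rw [if_pos (hfull ρ hρ)]
    · rw [if_neg (fun h => hρ (X.Rd_card ρ h)), inc_eq_zero_of_card]
      · simp
      · rw [X.T_card j]; omega
  unfold Ph
  simp only [mul_sum, hb]
  rw [sum_comm]
  refine sum_eq_zero fun j _ => ?_
  have h1 : ∑ z ∈ sᶜ, sg z s * inc (insert z s) (X.T j) = 0 := by
    rw [← GR.inc_comp s (X.T j)]
    have h2 : ∑ σ : Finset (Fin n), inc s σ * inc σ (X.T j) =
        ∑ σ ∈ (sᶜ).image (fun z => insert z s), inc s σ * inc σ (X.T j) := by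
      symm
      refine sum_subset (subset_univ _) fun σ _ hσ => ?_
      by_contra hc
      obtain ⟨z, hz, hzσ⟩ := inc_ne_zero (left_ne_zero_of_mul hc)
      apply hσ
      rw [mem_image]
      exact ⟨z, mem_compl.mpr hz, hzσ.symm⟩
    rw [h2, sum_image]
    · refine sum_congr rfl fun z hz => ?_
      rw [inc_insert (mem_compl.mp hz)]
    · intro a ha c hc hac
      have hac' : insert a s = insert c s := hac
      by_contra hne
      have : a ∈ insert c s := by rw [← hac']; exact mem_insert_self _ _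
      rw [mem_insert] at this
      rcases this with h | h
      · exact hne h
      · exact (mem_compl.mp ha) h
  have h2 := congrArg (Int.cast : ℤ → ℝ) h1
  push_cast at h2
  calc ∑ z ∈ sᶜ, sr z s * (X.R i j * (inc (insert z s) (X.T j) : ℝ))
      = X.R i j * ∑ z ∈ sᶜ, (sg z s : ℝ) * (inc (insert z s) (X.T j) : ℝ) := by
        rw [mul_sum]
        exact sum_congr rfl fun z _ => by unfold sr; ring
    _ = 0 := by rw [h2, mul_zero]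

end

end Sys

end Pool.Agent.Lib.MP_9701dc_gt.DD
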