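import Mathlib

/-!
The choice of the parameters, Wachter form: from the key inequality with `β` to
`(1 - h g) (q + g (1 + p h)) ≤ g + θ q`.
-/

set_option autoImplicit false

namespace Pool.Agent.Lib.MP_9701dc_gt.DD

/-- Eliminating `β` by the discriminant. -/
theorem params2_disc {r y g ε c E : ℝ}
    (h : ∀ β : ℝ, (1 - ε) * β ^ 2 * y ^ 2 / g ≤ (β ^ 2 + r * (1 - β) ^ 2) * y - c * y ^ 2 + E) :
    (r * y) ^ 2 ≤ (y * (1 + r) - (1 - ε) * y ^ 2 / g) * (r * y - c * y ^ 2 + E) := by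
  have h1 : ∀ x : ℝ, 0 ≤ (y * (1 + r) - (1 - ε) * y ^ 2 / g) * (x * x) + (-(2 * (r * y))) * x +
      (r * y - c * y ^ 2 + E) := by
    intro x
    have h2 := h x
    have e : (1 - ε) * x ^ 2 * y ^ 2 / g = (1 - ε) * y ^ 2 / g * (x * x) := by ring
    rw [e] at h2
    nlinarith [h2]
  have h3 := discrim_le_zero h1
  unfold discrim at h3
  nlinarith [h3]

/-- Normalisation. -/
theorem params2_norm {p m q' g y b E ε : ℝ} (hp : 0 < p) (hq' : 0 < q') (hg : 0 < g) (hy : 0 < y)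
    (h : (q' / p * y) ^ 2 ≤ (y * ((1 + m) / p) - (1 - ε) * y ^ 2 / g) *
      (q' / p * y - b * q' * y ^ 2 + E)) :
    q' ≤ ((1 + m) - (1 - ε) * p * y / g) * (1 - b * p * y + p * E / (q' * y)) := by
  have hc : 0 < q' * y ^ 2 / p ^ 2 := by positivity
  have e1 : (q' / p * y) ^ 2 = q' * (q' * y ^ 2 / p ^ 2) := by ring
  have e2 : (y * ((1 + m) / p) - (1 - ε) * y ^ 2 / g) * (q' / p * y - b * q' * y ^ 2 + E) =
      ((1 + m) - (1 - ε) * p * y / g) * (1 - b * p * y + p * E / (q' * y)) *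
        (q' * y ^ 2 / p ^ 2) := by
    field_simp
  rw [e1, e2] at h
  exact le_of_mul_le_mul_right h hc

theorem params2_lin {p m q' A X Z : ℝ} (hq' : q' = 1 - p + m) (hm0 : 0 ≤ m) (hm1 : m ≤ 1)
    (hA : 0 ≤ A) (hX : 0 ≤ X) (hZ : 0 ≤ Z) (h : q' ≤ ((1 + m) - A) * (1 - X + Z)) :
    X + A * (1 - X) ≤ p + 2 * Z := by
  nlinarith [mul_nonneg hA hZ, mul_nonneg hm0 hX, mul_nonneg (sub_nonneg.mpr hm1) hZ]

/-- The inequality in the variable `y`. -/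
theorem params2_y {p m q' g y b E ε r c : ℝ} (hp : 0 < p) (hq' : 0 < q') (hg : 0 < g) (hy : 0 < y)
    (hqm : q' = 1 - p + m) (hm0 : 0 ≤ m) (hm1 : m ≤ 1) (hε1 : ε ≤ 1) (hb : 0 ≤ b) (hE : 0 ≤ E)
    (hr : r = q' / p) (hc : c = b * q')
    (h : ∀ β : ℝ, (1 - ε) * β ^ 2 * y ^ 2 / g ≤ (β ^ 2 + r * (1 - β) ^ 2) * y - c * y ^ 2 + E) :
    b * g * y + (1 - ε) * y * (1 - b * p * y) ≤ g + 2 * g * E / (q' * y) := by
  have h1 := params2_disc h
  have e1 : 1 + r = (1 + m) / p := by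
    rw [hr, hqm]; field_simp; ring
  rw [e1, hr, hc] at h1
  have h2 := params2_norm hp hq' hg hy h1
  have hA : 0 ≤ (1 - ε) * p * y / g := by
    have : 0 ≤ 1 - ε := by linarith
    positivity
  have h3 := params2_lin hqm hm0 hm1 hA (by positivity : 0 ≤ b * p * y)
    (by positivity : 0 ≤ p * E / (q' * y)) h2
  have hgp : 0 < g / p := by positivity
  have h4 := mul_le_mul_of_nonneg_left h3 hgp.le
  have e2 : g / p * (b * p * y + (1 - ε) * p * y / g * (1 - b * p * y)) =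
      b * g * y + (1 - ε) * y * (1 - b * p * y) := by
    field_simp
  have e3 : g / p * (p + 2 * (p * E / (q' * y))) = g + 2 * g * E / (q' * y) := by
    field_simp
  rw [e2, e3] at h4
  exact h4

/-- From `y` to `y₀`. -/
theorem params2_y0 {p g y y₀ b ε η R : ℝ} (hp0 : 0 ≤ p) (hp1 : p ≤ 1) (hg : 0 < g)
    (hy0 : 0 ≤ y₀) (hy01 : y₀ ≤ 1) (hy : y₀ ≤ y) (hyη : y ≤ y₀ + η) (hη : η ≤ 1)
    (hε : 0 ≤ ε) (hb0 : 0 ≤ b) (hb1 : b ≤ 1)
    (h : b * g * y + (1 - ε) * y * (1 - b * p * y) ≤ g + R) :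
    y₀ * (1 + g) - p * y₀ ^ 2 ≤ g + (2 * ε + 2 * (g * (1 - b)) + R + 2 * η) := by
  have hy1 : 0 ≤ y := hy0.trans hy
  have hy2 : y ≤ 2 := by linarith
  have hbp : 0 ≤ b * p := mul_nonneg hb0 hp0
  have hbp1 : b * p ≤ p := by nlinarith
  -- (1 - ε) z ≥ z - 2 ε with z = y (1 - b p y) ≤ 2
  have z1 : y * (1 - b * p * y) ≤ 2 := by
    nlinarith [mul_nonneg hbp (mul_nonneg hy1 hy1)]
  have z2 : y * (1 - b * p * y) - 2 * ε ≤ (1 - ε) * y * (1 - b * p * y) := by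
    nlinarith [mul_le_mul_of_nonneg_left z1 hε]
  have z3 : y - p * y ^ 2 ≤ y * (1 - b * p * y) := by
    nlinarith [mul_nonneg (sub_nonneg.mpr hbp1) (mul_nonneg hy1 hy1)]
  have z4 : g * y - 2 * (g * (1 - b)) ≤ b * g * y := by
    have : 0 ≤ g * (1 - b) * (2 - y) :=
      mul_nonneg (mul_nonneg hg.le (by linarith)) (by linarith)
    nlinarith [this]
  have z5 : y₀ * (1 + g) - p * y₀ ^ 2 - 2 * η ≤ y * (1 + g) - p * y ^ 2 := by
    have e : y * (1 + g) - p * y ^ 2 - (y₀ * (1 + g) - p * y₀ ^ 2) =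
        (y - y₀) * (1 + g - p * (y + y₀)) := by ring
    have s1 : y + y₀ ≤ 3 := by linarith
    have s2 : p * (y + y₀) ≤ 3 := by nlinarith
    have s3 : -2 ≤ 1 + g - p * (y + y₀) := by linarith
    have s4 : (y - y₀) * (-2) ≤ (y - y₀) * (1 + g - p * (y + y₀)) :=
      mul_le_mul_of_nonneg_left s3 (by linarith)
    linarith
  linarith

/-- Rescaling the key inequality. -/
theorem params2_conv {D n N M Mw S τ β ε q' b κ : ℝ} (hD : 0 < D) (hn : 0 < n)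
    (hN : 0 < N) (hMw : 0 < Mw) (hS : 0 < S) (hq' : q' = (n - D + 1) / n) (hM : N = q' * M)
    (hb : b = (1 - 1 / D) * (M / Mw))
    (h1 : (1 - ε) * β ^ 2 * τ ^ 2 ≤
        S * ((D * β ^ 2 + (n - D + 1) * (1 - β) ^ 2) * τ - (D - 1) * τ ^ 2 / Mw +
          κ * (Mw - τ))) :
    (1 - ε) * β ^ 2 * (τ / N) ^ 2 / (D * S / N) ≤
      (β ^ 2 + q' / (D / n) * (1 - β) ^ 2) * (τ / N) - b * q' * (τ / N) ^ 2 +
        κ * (Mw - τ) / (D * N) := by
  have h2 := mul_le_mul_of_nonneg_right h1 (show 0 ≤ 1 / (S * (D * N)) by positivity)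
  have e1 : (1 - ε) * β ^ 2 * τ ^ 2 * (1 / (S * (D * N))) =
      (1 - ε) * β ^ 2 * (τ / N) ^ 2 / (D * S / N) := by
    field_simp
  have e3 : q' / (D / n) = (n - D + 1) / D := by rw [hq']; field_simp
  have e4 : b * q' * (τ / N) ^ 2 = (1 - 1 / D) * (1 / Mw) * (τ ^ 2 / N) := by
    have e5 : b * q' * (τ / N) ^ 2 =
        (1 - 1 / D) * (1 / Mw) * (τ ^ 2 / N) * ((q' * M) / N) := by
      rw [hb]; field_simp
    rw [e5, ← hM, div_self hN.ne', mul_one]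
  have e2 : S * ((D * β ^ 2 + (n - D + 1) * (1 - β) ^ 2) * τ - (D - 1) * τ ^ 2 / Mw +
        κ * (Mw - τ)) * (1 / (S * (D * N))) =
      (β ^ 2 + (n - D + 1) / D * (1 - β) ^ 2) * (τ / N) -
        (1 - 1 / D) * (1 / Mw) * (τ ^ 2 / N) + κ * (Mw - τ) / (D * N) := by
    field_simp
  rw [e3, e4, ← e1, ← e2]
  exact h2

/-- The error term. -/
theorem params2_err {h₀ h K D N X ε q₀ q' y g θ' : ℝ} (h0 : 0 < h₀) (hh : h₀ ≤ h) (hK : 0 < K)
    (hD1 : 1 ≤ D) (hN : 0 < N) (hX : 0 ≤ X) (hX1 : X ≤ 2 * N / q') (hε : 0 < ε)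
    (hq₀ : 0 < q₀) (hq' : q₀ ≤ q') (hθ' : 0 < θ') (hy : θ' ≤ y) (hg : 0 < g) (hg1 : g ≤ 1 / h₀) :
    2 * g * (1 / ε * (2 * (K / h) * (1 + K / h) / (D * h)) * X / (D * N)) / (q' * y) ≤
      8 * ((K / h₀) * (1 + K / h₀)) / (ε * h₀ ^ 2 * q₀ ^ 2 * θ') / D := by
  have hD0 : 0 < D := by linarith
  have hh0 : 0 < h := h0.trans_le hh
  have hKh' : K / h ≤ K / h₀ := div_le_div_of_nonneg_left hK.le h0 hh
  have hKh0 : 0 < K / h := by positivity
  have hKh00 : 0 < K / h₀ := by positivity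
  have n1 : 2 * (K / h) * (1 + K / h) ≤ 2 * ((K / h₀) * (1 + K / h₀)) := by
    nlinarith
  have v1 : 2 * N / q' ≤ 2 * N / q₀ :=
    div_le_div_of_nonneg_left (by positivity) hq₀ hq'
  have v2 : 2 * (K / h) * (1 + K / h) / (D * h) ≤
      2 * ((K / h₀) * (1 + K / h₀)) / (D * h₀) :=
    div_le_div₀ (by positivity) n1 (by positivity)
      (mul_le_mul_of_nonneg_left hh hD0.le)
  have u2 : 1 / ε * (2 * (K / h) * (1 + K / h) / (D * h)) * X / (D * N) ≤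
      1 / ε * (2 * ((K / h₀) * (1 + K / h₀)) / (D * h₀)) * (2 * N / q₀) / (1 * N) := by
    apply div_le_div₀
    · positivity
    · apply mul_le_mul _ (hX1.trans v1) hX (by positivity)
      exact mul_le_mul_of_nonneg_left v2 (by positivity)
    · positivity
    · exact mul_le_mul_of_nonneg_right hD1 hN.le
  have u3 : 1 / ε * (2 * ((K / h₀) * (1 + K / h₀)) / (D * h₀)) * (2 * N / q₀) / (1 * N) =
      4 * ((K / h₀) * (1 + K / h₀)) / (ε * D * h₀ * q₀) := by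
    field_simp
    ring
  rw [u3] at u2
  have hE0 : 0 ≤ 1 / ε * (2 * (K / h) * (1 + K / h) / (D * h)) * X / (D * N) := by positivity
  have u4 : q₀ * θ' ≤ q' * y := mul_le_mul hq' hy hθ'.le (hq₀.le.trans hq')
  have u5 : 2 * g * (1 / ε * (2 * (K / h) * (1 + K / h) / (D * h)) * X / (D * N)) ≤
      2 * (1 / h₀) * (4 * ((K / h₀) * (1 + K / h₀)) / (ε * D * h₀ * q₀)) :=
    mul_le_mul (by linarith) u2 hE0 (by positivity)
  have e1 : 2 * (1 / h₀) * (4 * ((K / h₀) * (1 + K / h₀)) / (ε * D * h₀ * q₀)) / (q₀ * θ') =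
      8 * ((K / h₀) * (1 + K / h₀)) / (ε * h₀ ^ 2 * q₀ ^ 2 * θ') / D := by
    field_simp
    ring
  rw [← e1]
  exact div_le_div₀ (by positivity) u5 (by positivity) u4

theorem params2 (h₀ H θ q₀ δ' : ℝ) (h0 : 0 < h₀) (hH : h₀ < H) (hθ : 0 < θ) (hθ1 : θ < 1)
    (hq₀ : 0 < q₀) (hδ' : 0 < δ') :
    ∃ K D₀ : ℝ, 1 ≤ K ∧ 1 / K ≤ δ' ∧ ∀ D n N M Mw S τ h : ℝ, D₀ ≤ D → 1 ≤ D → D ≤ n →
      q₀ ≤ 1 - D / n → 0 < N → M * (n - D + 1) = N * n → M ≤ Mw → Mw ≤ M + N / K →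
      h₀ ≤ h → h ≤ H → 0 < S → h * (D * S / N) ≤ 1 → N - D * h * S ≤ τ →
      τ ≤ N - D * h * S + N / K → τ ≤ Mw → 0 ≤ τ →
      (∀ β ε : ℝ, 0 < ε → ε < 1 → (1 - ε) * β ^ 2 * τ ^ 2 ≤
        S * ((D * β ^ 2 + (n - D + 1) * (1 - β) ^ 2) * τ - (D - 1) * τ ^ 2 / Mw +
          1 / ε * (2 * (K / h) * (1 + K / h) / (D * h)) * (Mw - τ))) →
      (1 - h * (D * S / N)) * ((1 - D / n) + D * S / N * (1 + D / n * h)) ≤
        D * S / N + θ * (1 - D / n) := by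
  have hθq : 0 < θ * q₀ := mul_pos hθ hq₀
  obtain ⟨K, hK1, hKδ, hKa, hKb⟩ : ∃ K : ℝ, 1 ≤ K ∧ 1 / K ≤ δ' ∧ 1 / K ≤ θ * q₀ / 8 ∧
      1 / K ≤ h₀ * (θ * q₀) / 16 := by
    have p1 : 0 < θ * q₀ / 8 := by positivity
    have p2 : 0 < h₀ * (θ * q₀) / 16 := by positivity
    refine ⟨max (max 1 (1 / δ')) (max (1 / (θ * q₀ / 8)) (1 / (h₀ * (θ * q₀) / 16))),
      ?_, ?_, ?_, ?_⟩
    · exact (le_max_left _ _).trans (le_max_left _ _)
    · rw [one_div_le (by positivity) hδ']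
      exact (le_max_right _ _).trans (le_max_left _ _)
    · rw [one_div_le (by positivity) p1]
      exact (le_max_left _ _).trans (le_max_right _ _)
    · rw [one_div_le (by positivity) p2]
      exact (le_max_right _ _).trans (le_max_right _ _)
  have hK0 : 0 < K := by linarith
  have hK' : 0 < 1 / K := by positivity
  have hK1' : 1 / K ≤ 1 := (div_le_one hK0).mpr hK1
  obtain ⟨ε, hεdef⟩ : ∃ ε : ℝ, ε = θ * q₀ / 8 := ⟨_, rfl⟩
  have hε : 0 < ε := by rw [hεdef]; positivity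
  obtain ⟨C, hCdef⟩ : ∃ C : ℝ, C = 8 * ((K / h₀) * (1 + K / h₀)) / (ε * h₀ ^ 2 * q₀ ^ 2 *
      (θ * q₀)) := ⟨_, rfl⟩
  have hC : 0 < C := by rw [hCdef]; positivity
  refine ⟨K, max (16 / (h₀ * (θ * q₀))) (4 * C / (θ * q₀)), hK1, hKδ, ?_⟩
  intro D n N M Mw S τ h hD hD1 hDn hq hN hMN hMMw hMwM hh hhH hS hhg hNτ hτN hτM hτ0 hkey
  have hD0 : 0 < D := by linarith
  have hn : 0 < n := by linarith
  have hn1 : 1 ≤ n := by linarith
  have hDa : 16 / (h₀ * (θ * q₀)) ≤ D := (le_max_left _ _).trans hD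
  have hDb : 4 * C / (θ * q₀) ≤ D := (le_max_right _ _).trans hD
  have hh0 : 0 < h := h0.trans_le hh
  -- names
  obtain ⟨p, hpdef⟩ : ∃ p : ℝ, p = D / n := ⟨_, rfl⟩
  obtain ⟨g, hgdef⟩ : ∃ g : ℝ, g = D * S / N := ⟨_, rfl⟩
  obtain ⟨y₀, hy₀def⟩ : ∃ y₀ : ℝ, y₀ = 1 - h * g := ⟨_, rfl⟩
  obtain ⟨y, hydef⟩ : ∃ y : ℝ, y = τ / N := ⟨_, rfl⟩
  obtain ⟨q', hq'def⟩ : ∃ q' : ℝ, q' = (n - D + 1) / n := ⟨_, rfl⟩
  rw [← hpdef] at hq
  rw [← hgdef] at hhg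
  rw [← hpdef, ← hgdef]
  have hp0 : 0 < p := by rw [hpdef]; positivity
  have hp1 : p ≤ 1 := by linarith
  have hg : 0 < g := by rw [hgdef]; positivity
  have hq1 : q₀ < 1 := by linarith
  have hε1 : ε < 1 := by
    have : θ * q₀ ≤ 1 := mul_le_one₀ hθ1.le hq₀.le hq1.le
    rw [hεdef]; linarith
  have hy0 : 0 ≤ y₀ := by rw [hy₀def]; linarith
  have hy01 : y₀ ≤ 1 := by
    rw [hy₀def]
    have := mul_pos hh0 hg
    linarith
  have hgoal : (1 - h * g) * (1 - p + g * (1 + p * h)) = y₀ * (1 + g) - p * y₀ ^ 2 := by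
    rw [hy₀def]; ring
  rw [hgoal]
  have hθqq : θ * q₀ ≤ θ * (1 - p) := mul_le_mul_of_nonneg_left hq hθ.le
  rcases le_or_gt y₀ (θ * q₀) with hcase | hcase
  · -- trivial case
    have s1 : y₀ * g ≤ g := mul_le_of_le_one_left hg.le hy01
    have s2 : 0 ≤ p * y₀ ^ 2 := by positivity
    have s3 : y₀ * (1 + g) - p * y₀ ^ 2 = y₀ + y₀ * g - p * y₀ ^ 2 := by ring
    rw [s3]
    linarith
  -- main case
  have hyy₀ : y₀ ≤ y := by
    rw [hy₀def, hydef, hgdef, le_div_iff₀ hN]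
    have e : (1 - h * (D * S / N)) * N = N - D * h * S := by field_simp
    rw [e]; exact hNτ
  have hyη : y ≤ y₀ + 1 / K := by
    rw [hy₀def, hydef, hgdef, div_le_iff₀ hN]
    have e : (1 - h * (D * S / N) + 1 / K) * N = N - D * h * S + N / K := by field_simp
    rw [e]; exact hτN
  have hypos : 0 < y := lt_of_lt_of_le (hθq.trans hcase) hyy₀
  have hq'm : q' = 1 - p + 1 / n := by
    rw [hq'def, hpdef]; field_simp
  have hm0 : 0 < 1 / n := by positivity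
  have hm1 : 1 / n ≤ 1 := (div_le_one hn).mpr hn1
  have hq'0 : q₀ ≤ q' := by rw [hq'm]; linarith
  have hq'pos : 0 < q' := hq₀.trans_le hq'0
  have hq'1 : q' ≤ 1 := by
    rw [hq'def, div_le_one hn]; linarith
  have hnD : 0 < n - D + 1 := by linarith
  have hMq : N = q' * M := by
    rw [hq'def]; field_simp; linarith
  have hM0 : 0 < M := by
    by_contra hcon
    rw [not_lt] at hcon
    have : q' * M ≤ 0 := mul_nonpos_of_nonneg_of_nonpos hq'pos.le hcon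
    linarith
  have hMw0 : 0 < Mw := hM0.trans_le hMMw
  have hMw1 : Mw ≤ M * (1 + 1 / K) := by
    have : N / K ≤ M * (1 / K) := by
      rw [div_eq_mul_one_div]
      refine mul_le_mul_of_nonneg_right ?_ hK'.le
      rw [hMq]; exact mul_le_of_le_one_left hM0.le hq'1
    have e : M * (1 + 1 / K) = M + M * (1 / K) := by ring
    rw [e]
    linarith
  -- b
  obtain ⟨b, hbdef⟩ : ∃ b : ℝ, b = (1 - 1 / D) * (M / Mw) := ⟨_, rfl⟩
  have hD' : 0 < 1 / D := by positivity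
  have hD1' : 1 / D ≤ 1 := (div_le_one hD0).mpr hD1
  have hMM1 : M / Mw ≤ 1 := (div_le_one hMw0).mpr hMMw
  have hMM0 : 0 < M / Mw := by positivity
  have hMM2 : 1 - 1 / K ≤ M / Mw := by
    rw [le_div_iff₀ hMw0]
    have a1 : (1 - 1 / K) * Mw ≤ (1 - 1 / K) * (M * (1 + 1 / K)) :=
      mul_le_mul_of_nonneg_left hMw1 (by linarith)
    have a2 : (1 - 1 / K) * (M * (1 + 1 / K)) = M - M * (1 / K) ^ 2 := by ring
    have a3 : 0 ≤ M * (1 / K) ^ 2 := mul_nonneg hM0.le (sq_nonneg _)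
    linarith
  have hb0 : 0 ≤ b := by rw [hbdef]; exact mul_nonneg (by linarith) hMM0.le
  have hb1 : b ≤ 1 := by
    rw [hbdef]
    exact mul_le_one₀ (by linarith) hMM0.le hMM1
  have hb2 : 1 - b ≤ 1 / D + 1 / K := by
    have a1 : 1 / D * (M / Mw) ≤ 1 / D := mul_le_of_le_one_right hD'.le hMM1
    have a2 : 1 - b = 1 - M / Mw + 1 / D * (M / Mw) := by rw [hbdef]; ring
    rw [a2]
    linarith
  -- E
  obtain ⟨E, hEdef⟩ : ∃ E : ℝ, E = 1 / ε * (2 * (K / h) * (1 + K / h) / (D * h)) * (Mw - τ) /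
      (D * N) := ⟨_, rfl⟩
  have hMwτ : 0 ≤ Mw - τ := by linarith
  have hE0 : 0 ≤ E := by
    rw [hEdef]
    have : 0 ≤ 1 / ε * (2 * (K / h) * (1 + K / h) / (D * h)) := by positivity
    positivity
  have hquad : ∀ β : ℝ, (1 - ε) * β ^ 2 * y ^ 2 / g ≤
      (β ^ 2 + q' / p * (1 - β) ^ 2) * y - b * q' * y ^ 2 + E := by
    intro β
    have h1 := params2_conv hD0 hn hN hMw0 hS hq'def hMq hbdef (hkey β ε hε hε1)
    rw [hydef, hgdef, hpdef, hEdef]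
    exact h1
  have hy := params2_y hp0 hq'pos hg hypos hq'm hm0.le hm1 hε1.le hb0 hE0 rfl rfl hquad
  have hfin := params2_y0 hp0.le hp1 hg hy0 hy01 hyy₀ hyη hK1' hε.le hb0 hb1 hy
  refine hfin.trans ?_
  -- the error terms
  have hg1 : g ≤ 1 / h₀ := by
    rw [le_div_iff₀ h0]
    calc g * h₀ ≤ g * h := mul_le_mul_of_nonneg_left hh hg.le
      _ = h * g := mul_comm _ _
      _ ≤ 1 := hhg
  have t1 : 2 * (g * (1 - b)) ≤ θ * q₀ / 4 := by
    have s1 : 1 / D ≤ h₀ * (θ * q₀) / 16 := by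
      rw [div_le_iff₀ hD0]
      rw [div_le_iff₀ (by positivity)] at hDa
      linarith
    have s2 : 1 - b ≤ h₀ * (θ * q₀) / 8 := by linarith
    have s3 : g * (1 - b) ≤ 1 / h₀ * (h₀ * (θ * q₀) / 8) :=
      mul_le_mul hg1 s2 (by linarith) (by positivity)
    have s4 : 1 / h₀ * (h₀ * (θ * q₀) / 8) = θ * q₀ / 8 := by field_simp
    linarith
  have t2 : 2 * g * E / (q' * y) ≤ θ * q₀ / 4 := by
    have s1 : C / D ≤ θ * q₀ / 4 := by
      rw [div_le_iff₀ hD0]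
      rw [div_le_iff₀ hθq] at hDb
      linarith
    refine le_trans ?_ s1
    have u1 : Mw - τ ≤ 2 * N / q' := by
      have e5 : 2 * N / q' = 2 * M := by rw [hMq]; field_simp
      have e6 : M * (1 / K) ≤ M := mul_le_of_le_one_right hM0.le hK1'
      have e7 : M * (1 + 1 / K) = M + M * (1 / K) := by ring
      rw [e7] at hMw1
      rw [e5]
      linarith
    rw [hEdef, hCdef]
    exact params2_err h0 hh hK0 hD1 hN hMwτ u1 hε hq₀ hq'0 hθq (hcase.le.trans hyy₀) hg hg1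
  have t3 : 2 * ε = θ * q₀ / 4 := by rw [hεdef]; ring
  have t4 : 2 * (1 / K) ≤ θ * q₀ / 4 := by linarith
  linarith

end Pool.Agent.Lib.MP_9701dc_gt.DD
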