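import Pool.Agent.Lib.MP_9701dc_gt.DD.Compare

/-!
# Comparison of a spectrum with the Wachter (Jacobi) law

The same as `Compare.lean`, uniformly in the parameter `p` (`p + q = 1`): at
`h = u ^ 2 / ((1 - u) (q + p u))` the resolvent of the Wachter law is `g = (1 - u) (q + p u) / u`, its
logarithmic potential is `- log (1 - u) + (q / p) log (q + p u)`.
-/

namespace Pool.Agent.Lib.MP_9701dc_gt.DD

/-- the parametrisation of the energy -/
noncomputable def hw (p q u : ℝ) : ℝ := u ^ 2 / ((1 - u) * (q + p * u))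

/-- the logarithmic potential of the Wachter law -/
noncomputable def lw (p q u : ℝ) : ℝ := -Real.log (1 - u) + q / p * Real.log (q + p * u)

section

variable {p q u : ℝ}

theorem hasDerivAt_hw (hp : 0 < p) (hq : 0 < q) (hu0 : 0 < u) (hu1 : u < 1) :
    HasDerivAt (hw p q) (u * (2 * q + (p - q) * u) / ((1 - u) * (q + p * u)) ^ 2) u := by
  have h1 : (0 : ℝ) < 1 - u := by linarith
  have h2 : 0 < q + p * u := by positivity
  have h3 : HasDerivAt (fun u : ℝ => 1 - u) (-1) u := by
    simpa using (hasDerivAt_id u).const_sub 1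
  have h4 : HasDerivAt (fun u : ℝ => q + p * u) p u := by
    simpa using ((hasDerivAt_id u).const_mul p).const_add q
  have h5 := h3.mul h4
  have h6 : HasDerivAt (fun u : ℝ => u ^ 2) (2 * u) u := by
    simpa using hasDerivAt_pow 2 u
  have h7 := h6.div h5 (ne_of_gt (mul_pos h1 h2))
  have h8 : (2 * u * ((1 - u) * (q + p * u)) - u ^ 2 * (-1 * (q + p * u) + (1 - u) * p)) /
      ((1 - u) * (q + p * u)) ^ 2 = u * (2 * q + (p - q) * u) / ((1 - u) * (q + p * u)) ^ 2 := by
    congr 1
    ring
  rw [← h8]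
  exact h7

theorem hasDerivAt_lw (hp : 0 < p) (hq : 0 < q) (hu0 : 0 < u) (hu1 : u < 1) :
    HasDerivAt (lw p q) ((2 * q + (p - q) * u) / ((1 - u) * (q + p * u))) u := by
  have h1 : (0 : ℝ) < 1 - u := by linarith
  have h2 : 0 < q + p * u := by positivity
  have h3 : HasDerivAt (fun u : ℝ => 1 - u) (-1) u := by
    simpa using (hasDerivAt_id u).const_sub 1
  have h4 : HasDerivAt (fun u : ℝ => q + p * u) p u := by
    simpa using ((hasDerivAt_id u).const_mul p).const_add q
  have h5 := (h3.log (ne_of_gt h1)).neg.add ((h4.log (ne_of_gt h2)).const_mul (q / p))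
  have h6 : -(-1 / (1 - u)) + q / p * (p / (q + p * u)) =
      (2 * q + (p - q) * u) / ((1 - u) * (q + p * u)) := by
    field_simp
    ring
  rw [← h6]
  exact h5

end

theorem lamF_mono {ι : Type*} [Fintype ι] [Nonempty ι] (μ : ι → ℝ) (hμ : ∀ i, 0 ≤ μ i) {h h' : ℝ}
    (hh : 0 < h) (hhh : h ≤ h') : lamF μ h ≤ lamF μ h' := by
  unfold lamF
  have hN : (0 : ℝ) < Fintype.card ι := by exact_mod_cast Fintype.card_pos
  rw [div_le_div_iff_of_pos_right hN]
  refine Finset.sum_le_sum fun i _ => ?_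
  have := hμ i
  exact Real.log_le_log (by linarith) (by linarith)

theorem wachter_ge {p q u g θ : ℝ} (hp : 0 < p) (hq : 0 < q) (hu0 : 0 < u)
    (hu1 : u < 1) (hθ : 0 < θ) (hθ1 : θ < 1) (hg : 0 ≤ g)
    (h : (1 - hw p q u * g) * (q + g * (1 + p * hw p q u)) ≤ g + θ * q) :
    (1 - θ) * ((1 - u) * (q + p * u) / u) ≤ g := by
  have h1 : (0 : ℝ) < 1 - u := by linarith
  have h2 : 0 < q + p * u := by positivity
  have hG : 0 < (1 - u) * (q + p * u) / u := by positivity
  have hH : 0 < hw p q u := by unfold hw; positivity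
  have hW : hw p q u * ((1 - u) * (q + p * u) / u) = u := by
    unfold hw
    field_simp
  have hW2 : u ^ 2 = hw p q u * ((1 - u) * (q + p * u)) := by
    unfold hw
    field_simp
  set G := (1 - u) * (q + p * u) / u with hGdef
  set H := hw p q u with hHdef
  by_contra hc
  push Not at hc
  obtain ⟨t, ht⟩ : ∃ t : ℝ, t = g / G := ⟨_, rfl⟩
  have htG : g = t * G := by rw [ht]; field_simp
  have ht0 : 0 ≤ t := by rw [ht]; positivity
  have ht1 : t < 1 - θ := by rw [ht, div_lt_iff₀ hG]; exact hc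
  -- the quadratic form
  have hq1 : q - θ * q ≤ H * (1 + p * H) * g ^ 2 + (q - p) * H * g := by nlinarith
  have hHG : H * g = t * u := by rw [htG]; linear_combination t * hW
  have hHgg : H * g ^ 2 = t ^ 2 * ((1 - u) * (q + p * u)) := by
    have : H * g ^ 2 = (H * g) * g := by ring
    rw [this, hHG, htG, hGdef]
    field_simp
  have h3 : H * (1 + p * H) * g ^ 2 + (q - p) * H * g =
      t ^ 2 * ((1 - u) * (q + p * u)) + p * (t * u) ^ 2 + (q - p) * (t * u) := by
    have h4 : H * (1 + p * H) * g ^ 2 + (q - p) * H * g =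
        H * g ^ 2 + p * (H * g) ^ 2 + (q - p) * (H * g) := by ring
    rw [h4, hHgg, hHG]
  rw [h3] at hq1
  -- convexity in t
  have h5 : t ^ 2 ≤ t := by nlinarith
  have h6 : 0 ≤ (1 - u) * (q + p * u) + p * u ^ 2 := by positivity
  have h7 : t ^ 2 * ((1 - u) * (q + p * u)) + p * (t * u) ^ 2 + (q - p) * (t * u) ≤ t * q := by
    have h8 : t ^ 2 * ((1 - u) * (q + p * u)) + p * (t * u) ^ 2 =
        t ^ 2 * ((1 - u) * (q + p * u) + p * u ^ 2) := by ring
    have h9 : t ^ 2 * ((1 - u) * (q + p * u) + p * u ^ 2) ≤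
        t * ((1 - u) * (q + p * u) + p * u ^ 2) := mul_le_mul_of_nonneg_right h5 h6
    have h10 : t * ((1 - u) * (q + p * u) + p * u ^ 2) + (q - p) * (t * u) = t * q := by ring
    linarith
  nlinarith

theorem wachter_mono {ι : Type*} [Fintype ι] (μ : ι → ℝ) (hμ : ∀ i, 0 ≤ μ i)
    {p q u₀ u₁ θ : ℝ} (hp : 0 < p) (hq : 0 < q) (h0 : 0 < u₀) (h01 : u₀ ≤ u₁)
    (h1 : u₁ < 1) (hθ : 0 < θ) (hθ1 : θ < 1)
    (h : ∀ u, u₀ ≤ u → u ≤ u₁ → (1 - hw p q u * gs μ (hw p q u)) *
      (q + gs μ (hw p q u) * (1 + p * hw p q u)) ≤ gs μ (hw p q u) + θ * q) :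
    lamF μ (hw p q u₀) - (1 - θ) * lw p q u₀ ≤ lamF μ (hw p q u₁) - (1 - θ) * lw p q u₁ := by
  have hpos : ∀ u : ℝ, 0 < u → u < 1 → 0 < hw p q u := by
    intro u hu hu1
    have h2 : (0 : ℝ) < 1 - u := by linarith
    unfold hw
    positivity
  have hder : ∀ u : ℝ, 0 < u → u < 1 →
      HasDerivAt (fun u => lamF μ (hw p q u) - (1 - θ) * lw p q u)
      (gs μ (hw p q u) * (u * (2 * q + (p - q) * u) / ((1 - u) * (q + p * u)) ^ 2) -
        (1 - θ) * ((2 * q + (p - q) * u) / ((1 - u) * (q + p * u)))) u := by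
    intro u hu hu1
    have h2 := (hasDerivAt_lamF μ hμ (hpos u hu hu1)).comp u (hasDerivAt_hw hp hq hu hu1)
    exact h2.sub ((hasDerivAt_lw hp hq hu hu1).const_mul _)
  have hmono : MonotoneOn (fun u => lamF μ (hw p q u) - (1 - θ) * lw p q u) (Set.Icc u₀ u₁) := by
    refine monotoneOn_of_deriv_nonneg (convex_Icc u₀ u₁) ?_ ?_ ?_
    · intro u hu
      exact (hder u (by linarith [hu.1]) (by linarith [hu.2])).continuousAt.continuousWithinAt
    · intro u hu
      rw [interior_Icc] at hu
      exact (hder u (by linarith [hu.1]) (by linarith [hu.2])).differentiableAt.differentiableWithinAt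
    · intro u hu
      rw [interior_Icc] at hu
      have hu0 : 0 < u := by linarith [hu.1]
      have hu1 : u < 1 := by linarith [hu.2]
      have h2 : (0 : ℝ) < 1 - u := by linarith
      have h3 : 0 < q + p * u := by positivity
      rw [(hder u hu0 hu1).deriv]
      have hg := gs_nonneg μ hμ (hpos u hu0 hu1)
      have h4 := wachter_ge hp hq hu0 hu1 hθ hθ1 hg (h u hu.1.le hu.2.le)
      set g := gs μ (hw p q u) with hgdef
      have h5 : 0 ≤ 2 * q + (p - q) * u := by nlinarith
      have h6 : (1 - θ) * ((2 * q + (p - q) * u) / ((1 - u) * (q + p * u))) =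
          (1 - θ) * ((1 - u) * (q + p * u) / u) *
            (u * (2 * q + (p - q) * u) / ((1 - u) * (q + p * u)) ^ 2) := by
        field_simp
      rw [h6, ← sub_mul]
      apply mul_nonneg (by linarith)
      positivity
  exact hmono (Set.left_mem_Icc.2 h01) (Set.right_mem_Icc.2 h01) h01

theorem wachter_compare (ε : ℝ) (hε : 0 < ε) : ∃ h₀ H θ : ℝ, 0 < h₀ ∧ h₀ < H ∧ 0 < θ ∧ θ < 1 ∧
    ∀ (p q : ℝ), 0 < p → 0 < q → p + q = 1 →
      ∀ (ι : Type) [Fintype ι] [Nonempty ι] (μ : ι → ℝ), (∀ i, 0 ≤ μ i) →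
      (∑ i, μ i ≤ Fintype.card ι) →
      (∀ h, h₀ ≤ h → h ≤ H → (1 - h * gs μ h) * (q + gs μ h * (1 + p * h)) ≤
        gs μ h + θ * q) →
      ∑ i, Real.log (h₀ + μ i) ≤ (q / p * Real.log q + ε) * Fintype.card ι := by
  obtain ⟨u₀, hu₀⟩ : ∃ u₀ : ℝ, u₀ = min (1 / 4) (ε / 9) := ⟨_, rfl⟩
  have ha0 : 0 < u₀ := by rw [hu₀]; positivity
  have ha1 : u₀ ≤ 1 / 4 := by rw [hu₀]; exact min_le_left _ _
  have ha2 : u₀ ≤ ε / 9 := by rw [hu₀]; exact min_le_right _ _
  obtain ⟨v, hv⟩ : ∃ v : ℝ, v = min (1 / 4) (ε / 6) := ⟨_, rfl⟩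
  have hv0 : 0 < v := by rw [hv]; positivity
  have hv1 : v ≤ 1 / 4 := by rw [hv]; exact min_le_left _ _
  have hv2 : v ≤ ε / 6 := by rw [hv]; exact min_le_right _ _
  obtain ⟨u₁, hu₁⟩ : ∃ u₁ : ℝ, u₁ = 1 - v := ⟨_, rfl⟩
  have hb0 : 3 / 4 ≤ u₁ := by rw [hu₁]; linarith
  have hb1 : u₁ < 1 := by rw [hu₁]; linarith
  have hb2 : 1 - u₁ = v := by rw [hu₁]; ring
  obtain ⟨θ, hθ⟩ : ∃ θ : ℝ, θ = min (1 / 2) (ε / (3 * (1 + |Real.log v|))) := ⟨_, rfl⟩
  have hA : 0 < 1 + |Real.log v| := by positivity
  have hθ0 : 0 < θ := by rw [hθ]; positivity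
  have hθ1 : θ ≤ 1 / 2 := by rw [hθ]; exact min_le_left _ _
  have hθ2 : θ * (1 + |Real.log v|) ≤ ε / 3 := by
    have h1 : θ ≤ ε / (3 * (1 + |Real.log v|)) := by rw [hθ]; exact min_le_right _ _
    rw [le_div_iff₀ (by positivity)] at h1
    linarith
  refine ⟨u₀ ^ 2, (u₁ * v)⁻¹, θ, by positivity, ?_, hθ0, by linarith, ?_⟩
  · have h1 : u₁ * v < 1 := by nlinarith
    have h2 : 0 < u₁ * v := by positivity
    have h3 : 1 < (u₁ * v)⁻¹ := (one_lt_inv₀ h2).2 h1
    nlinarith
  · intro p q hp hq hpq ι _ _ μ hμ hs hh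
    have hN : (0 : ℝ) < Fintype.card ι := by exact_mod_cast Fintype.card_pos
    have hp1 : p < 1 := by linarith
    have hlow : ∀ u : ℝ, 0 < u → u < 1 → u ^ 2 ≤ hw p q u := by
      intro u hu hu1
      have h2 : (0 : ℝ) < 1 - u := by linarith
      have h3 : 0 < q + p * u := by positivity
      unfold hw
      rw [le_div_iff₀ (by positivity)]
      have h4 : (1 - u) * (q + p * u) ≤ 1 := by nlinarith
      nlinarith [sq_nonneg u]
    have hup : ∀ u : ℝ, 0 < u → u < 1 → hw p q u ≤ u / (1 - u) := by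
      intro u hu hu1
      have h2 : (0 : ℝ) < 1 - u := by linarith
      have h3 : 0 < q + p * u := by positivity
      have h4 : u ≤ q + p * u := by nlinarith
      unfold hw
      rw [div_le_div_iff₀ (by positivity) h2]
      have h5 : u ^ 2 * (1 - u) = u * ((1 - u) * u) := by ring
      rw [h5]
      gcongr
    have h1 := wachter_mono μ hμ (p := p) (q := q) hp hq ha0 (by linarith : u₀ ≤ u₁) hb1 hθ0
      (by linarith : θ < 1) (fun u h2 h3 => by
      have hu : 0 < u := by linarith
      have hu1 : u < 1 := by linarith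
      refine hh _ ?_ ?_
      · refine le_trans ?_ (hlow u hu hu1)
        gcongr
      · refine le_trans (hup u hu hu1) ?_
        rw [div_le_iff₀ (by linarith), inv_mul_eq_div, le_div_iff₀ (by positivity)]
        have h4 : v ≤ 1 - u := by linarith
        have h5 : u * u₁ ≤ 1 := by nlinarith
        have h6 := mul_le_mul_of_nonneg_right h5 hv0.le
        nlinarith)
    have hwu₁ : 0 < hw p q u₁ := by
      have := hlow u₁ (by linarith) hb1
      nlinarith
    have h2 : lamF μ (hw p q u₁) ≤ Real.log (hw p q u₁ + 1) := lamF_le_log μ hμ hs hwu₁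
    have hqu : 0 < q + p * u₁ := by positivity
    have h3 : Real.log (hw p q u₁ + 1) - lw p q u₁ ≤ ε / 3 := by
      have h4 : hw p q u₁ + 1 = (u₁ ^ 2 + v * (q + p * u₁)) / (v * (q + p * u₁)) := by
        unfold hw
        rw [hb2]
        field_simp
      have hu₁0 : 0 < u₁ := by linarith
      have h5 : Real.log (u₁ ^ 2 + v * (q + p * u₁)) ≤ 0 := by
        apply Real.log_nonpos (by positivity)
        have h6 : q + p * u₁ ≤ 1 := by nlinarith
        have h7 := mul_le_mul_of_nonneg_left h6 hv0.le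
        nlinarith
      have h6 : -Real.log (q + p * u₁) ≤ p * v / (q + p * u₁) := by
        have h7 := Real.log_le_sub_one_of_pos (inv_pos.2 hqu)
        rw [Real.log_inv] at h7
        have h8 : (q + p * u₁)⁻¹ - 1 = p * v / (q + p * u₁) := by
          have h9 : p * v = 1 - (q + p * u₁) := by
            rw [← hpq, hu₁]
            ring
          rw [h9]
          field_simp
        linarith
      rw [h4, Real.log_div (by positivity) (by positivity),
        Real.log_mul (by positivity) (by positivity)]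
      unfold lw
      rw [hb2]
      have h9 : -(Real.log (q + p * u₁)) - q / p * Real.log (q + p * u₁) =
          1 / p * -Real.log (q + p * u₁) := by
        have h10 : q = 1 - p := by linarith
        rw [h10]
        field_simp
        ring
      have h10 : 1 / p * -Real.log (q + p * u₁) ≤ 1 / p * (p * v / (q + p * u₁)) :=
        mul_le_mul_of_nonneg_left h6 (by positivity)
      have h11 : 1 / p * (p * v / (q + p * u₁)) = v / (q + p * u₁) := by
        field_simp
      have h12 : v / (q + p * u₁) ≤ 2 * v := by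
        rw [div_le_iff₀ hqu]
        have h13 : u₁ ≤ q + p * u₁ := by nlinarith
        nlinarith
      linarith
    have h4 : lw p q u₀ ≤ q / p * Real.log q + ε / 3 := by
      unfold lw
      have h5 : -Real.log (1 - u₀) ≤ 2 * u₀ := by
        have h6 := Real.log_le_sub_one_of_pos (inv_pos.2 (by linarith : (0 : ℝ) < 1 - u₀))
        rw [Real.log_inv] at h6
        have h7 : (1 - u₀)⁻¹ - 1 ≤ 2 * u₀ := by
          rw [inv_eq_one_div, sub_le_iff_le_add, div_le_iff₀ (by linarith)]
          nlinarith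
        linarith
      have h8 : Real.log (q + p * u₀) ≤ Real.log q + p * u₀ / q := by
        have h9 : q + p * u₀ = q * (1 + p * u₀ / q) := by field_simp
        rw [h9, Real.log_mul (ne_of_gt hq) (by positivity)]
        have h10 := Real.log_le_sub_one_of_pos (show (0 : ℝ) < 1 + p * u₀ / q by positivity)
        linarith
      have h11 : q / p * Real.log (q + p * u₀) ≤ q / p * (Real.log q + p * u₀ / q) :=
        mul_le_mul_of_nonneg_left h8 (by positivity)
      have h12 : q / p * (Real.log q + p * u₀ / q) = q / p * Real.log q + u₀ := by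
        field_simp
      linarith
    have h5 : lw p q u₁ - lw p q u₀ ≤ 1 + |Real.log v| := by
      unfold lw
      rw [hb2]
      have h6 : Real.log (1 - u₀) ≤ 0 := Real.log_nonpos (by linarith) (by linarith)
      have h7 : Real.log (q + p * u₁) - Real.log (q + p * u₀) ≤ p / q := by
        have hqu0 : 0 < q + p * u₀ := by positivity
        rw [← Real.log_div (ne_of_gt hqu) (ne_of_gt hqu0)]
        have h8 := Real.log_le_sub_one_of_pos (show (0 : ℝ) < (q + p * u₁) / (q + p * u₀) by positivity)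
        have h9 : (q + p * u₁) / (q + p * u₀) - 1 = p * (u₁ - u₀) / (q + p * u₀) := by
          field_simp
          ring
        have h10 : p * (u₁ - u₀) / (q + p * u₀) ≤ p / q := by
          rw [div_le_div_iff₀ hqu0 hq]
          have h11 : p * (u₁ - u₀) * q ≤ p * q := by
            have : u₁ - u₀ ≤ 1 := by linarith
            have h12 : 0 < p * q := by positivity
            nlinarith
          have h13 : 0 < p * (p * u₀) := by positivity
          nlinarith
        linarith
      have h8 : q / p * (Real.log (q + p * u₁) - Real.log (q + p * u₀)) ≤ q / p * (p / q) :=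
        mul_le_mul_of_nonneg_left h7 (by positivity)
      have h9 : q / p * (p / q) = 1 := by field_simp
      have h10 : -Real.log v ≤ |Real.log v| := neg_le_abs _
      have h11 : q / p * (Real.log (q + p * u₁) - Real.log (q + p * u₀)) =
          q / p * Real.log (q + p * u₁) - q / p * Real.log (q + p * u₀) := by ring
      linarith
    have h6 : lamF μ (u₀ ^ 2) ≤ lamF μ (hw p q u₀) :=
      lamF_mono μ hμ (by positivity) (hlow u₀ ha0 (by linarith))
    have h7 : lamF μ (u₀ ^ 2) ≤ q / p * Real.log q + ε := by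
      have h8 : θ * (lw p q u₁ - lw p q u₀) ≤ θ * (1 + |Real.log v|) :=
        mul_le_mul_of_nonneg_left h5 hθ0.le
      nlinarith
    unfold lamF at h7
    rw [div_le_iff₀ hN] at h7
    exact h7

end Pool.Agent.Lib.MP_9701dc_gt.DD
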