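import Mathlib

/-!
# Determinants of weighted Gram matrices, and a binomial estimate
-/

namespace Pool.Agent.Lib.MP_9701dc_gt.DD

open Finset Matrix

variable {ι κ : Type*} [Fintype ι] [DecidableEq ι] [Fintype κ] [DecidableEq κ]

theorem one_le_det_one_add {S : Matrix ι ι ℝ} (hS : S.PosSemidef) : 1 ≤ (1 + S).det := by
  have hH : (1 + S).IsHermitian := (Matrix.isHermitian_one).add hS.isHermitian
  rw [hH.det_eq_prod_eigenvalues]
  simp only [RCLike.ofReal_real_eq_id, id]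
  have h1 : ∀ i, 1 ≤ hH.eigenvalues i := by
    intro i
    rw [hH.eigenvalues_eq i]
    have h2 := hS.dotProduct_mulVec_nonneg (hH.eigenvectorBasis i).ofLp
    have h3 : star (hH.eigenvectorBasis i).ofLp ⬝ᵥ (hH.eigenvectorBasis i).ofLp = (1 : ℝ) := by
      have h4 := hH.eigenvectorBasis.orthonormal.1 i
      have h5 : inner ℝ (hH.eigenvectorBasis i) (hH.eigenvectorBasis i) = (1 : ℝ) := by
        rw [real_inner_self_eq_norm_sq, h4]
        norm_num
      rw [EuclideanSpace.inner_eq_star_dotProduct] at h5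
      rw [dotProduct_comm]
      exact h5
    rw [Matrix.add_mulVec, Matrix.one_mulVec, dotProduct_add, h3]
    simpa using h2
  calc (1 : ℝ) = ∏ _i : ι, (1 : ℝ) := by simp
    _ ≤ ∏ i, hH.eigenvalues i := Finset.prod_le_prod (fun i _ => zero_le_one) fun i _ => h1 i

theorem det_le_det_add {P : Matrix ι ι ℝ} (hP : P.PosDef) (C : Matrix κ ι ℝ) :
    P.det ≤ (P + Cᵀ * C).det := by
  have hu : IsUnit P.det := (Matrix.isUnit_iff_isUnit_det P).1 hP.isUnit
  rw [Matrix.det_add_mul Cᵀ C hu]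
  have h1 : (C * P⁻¹ * Cᵀ).PosSemidef := by
    have h2 := hP.inv.posSemidef.mul_mul_conjTranspose_same C
    rwa [Matrix.conjTranspose_eq_transpose_of_trivial] at h2
  have h3 := one_le_det_one_add h1
  have h4 := hP.det_pos
  nlinarith

theorem det_weights (B : Matrix κ ι ℝ) (w : κ → ℝ) (hw : ∀ ρ, 0 < w ρ) (hw1 : ∀ ρ, w ρ ≤ 1) (η : ℝ)
    (hη : 0 < η) : (∏ ρ, w ρ) * (Bᵀ * B).det ≤
      (Bᵀ * diagonal w * B + η • (1 : Matrix ι ι ℝ)).det := by
  have hprod : 0 < ∏ ρ, w ρ := Finset.prod_pos fun ρ _ => hw ρ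
  have hBB : (Bᵀ * B).PosSemidef := by
    have := Matrix.posSemidef_conjTranspose_mul_self B
    rwa [Matrix.conjTranspose_eq_transpose_of_trivial] at this
  have hS : (η⁻¹ • (B * Bᵀ)).PosSemidef := by
    have h1 := Matrix.posSemidef_self_mul_conjTranspose B
    rw [Matrix.conjTranspose_eq_transpose_of_trivial] at h1
    exact h1.smul (inv_nonneg.2 hη.le)
  -- step 1
  have h1 : (Bᵀ * B).det ≤ (Bᵀ * B + η • (1 : Matrix ι ι ℝ)).det := by
    by_cases hd : (Bᵀ * B).det = 0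
    · rw [hd]
      have h2 : (Bᵀ * B + η • (1 : Matrix ι ι ℝ)).PosDef :=
        Matrix.PosDef.posSemidef_add hBB (Matrix.PosDef.one.smul hη)
      exact h2.det_pos.le
    · have h2 : (Bᵀ * B).PosDef := hBB.posDef_iff_det_ne_zero.2 hd
      have h8 := det_le_det_add h2 (Real.sqrt η • (1 : Matrix ι ι ℝ))
      have h9 : (Real.sqrt η • (1 : Matrix ι ι ℝ))ᵀ * (Real.sqrt η • (1 : Matrix ι ι ℝ)) =
          η • (1 : Matrix ι ι ℝ) := by
        rw [Matrix.transpose_smul, Matrix.transpose_one, Matrix.smul_mul, Matrix.mul_smul,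
          Matrix.one_mul, smul_smul, Real.mul_self_sqrt hη.le]
      rwa [h9] at h8
  -- step 2
  have h2 : (Bᵀ * B + η • (1 : Matrix ι ι ℝ)).det =
      η ^ Fintype.card ι * (1 + η⁻¹ • (B * Bᵀ)).det := by
    have h3 : Bᵀ * B + η • (1 : Matrix ι ι ℝ) = η • (1 + (η⁻¹ • Bᵀ) * B) := by
      rw [smul_add, Matrix.smul_mul, smul_smul, mul_inv_cancel₀ hη.ne', one_smul, add_comm]
    rw [h3, Matrix.det_smul, Matrix.det_one_add_mul_comm, Matrix.mul_smul]
  -- step 3
  have h4 : (Bᵀ * diagonal w * B + η • (1 : Matrix ι ι ℝ)).det =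
      η ^ Fintype.card ι * (∏ ρ, w ρ) * (diagonal (fun ρ => (w ρ)⁻¹) + η⁻¹ • (B * Bᵀ)).det := by
    have h5 : Bᵀ * diagonal w * B + η • (1 : Matrix ι ι ℝ) =
        η • (1 + (η⁻¹ • Bᵀ) * (diagonal w * B)) := by
      rw [smul_add, Matrix.smul_mul, smul_smul, mul_inv_cancel₀ hη.ne', one_smul, add_comm,
        Matrix.mul_assoc]
    have h6 : 1 + diagonal w * B * (η⁻¹ • Bᵀ) =
        diagonal w * (diagonal (fun ρ => (w ρ)⁻¹) + η⁻¹ • (B * Bᵀ)) := by
      rw [Matrix.mul_add, Matrix.diagonal_mul_diagonal, Matrix.mul_smul, Matrix.mul_smul,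
        Matrix.mul_assoc]
      congr 1
      rw [← Matrix.diagonal_one]
      congr 1
      funext ρ
      exact (mul_inv_cancel₀ (hw ρ).ne').symm
    rw [h5, Matrix.det_smul, Matrix.det_one_add_mul_comm, h6, Matrix.det_mul, Matrix.det_diagonal]
    ring
  -- step 4
  have h7 : (1 + η⁻¹ • (B * Bᵀ)).det ≤ (diagonal (fun ρ => (w ρ)⁻¹) + η⁻¹ • (B * Bᵀ)).det := by
    have hP : (1 + η⁻¹ • (B * Bᵀ)).PosDef := Matrix.PosDef.one.add_posSemidef hS
    have h8 := det_le_det_add hP (diagonal fun ρ => Real.sqrt ((w ρ)⁻¹ - 1))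
    have h9 : (diagonal fun ρ => Real.sqrt ((w ρ)⁻¹ - 1))ᵀ * (diagonal fun ρ => Real.sqrt ((w ρ)⁻¹ - 1)) =
        diagonal (fun ρ => (w ρ)⁻¹) - 1 := by
      rw [Matrix.diagonal_transpose, Matrix.diagonal_mul_diagonal, ← Matrix.diagonal_one,
        Matrix.diagonal_sub]
      congr 1
      funext ρ
      apply Real.mul_self_sqrt
      have : 1 ≤ (w ρ)⁻¹ := (one_le_inv₀ (hw ρ)).2 (hw1 ρ)
      linarith
    rw [h9] at h8
    have h10 : 1 + η⁻¹ • (B * Bᵀ) + (diagonal (fun ρ => (w ρ)⁻¹) - 1) =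
        diagonal (fun ρ => (w ρ)⁻¹) + η⁻¹ • (B * Bᵀ) := by abel
    rwa [h10] at h8
  have hηn : 0 < η ^ Fintype.card ι := by positivity
  calc (∏ ρ, w ρ) * (Bᵀ * B).det ≤ (∏ ρ, w ρ) * (Bᵀ * B + η • (1 : Matrix ι ι ℝ)).det := by gcongr
    _ = (η ^ Fintype.card ι * (∏ ρ, w ρ)) * (1 + η⁻¹ • (B * Bᵀ)).det := by rw [h2]; ring
    _ ≤ (η ^ Fintype.card ι * (∏ ρ, w ρ)) *
        (diagonal (fun ρ => (w ρ)⁻¹) + η⁻¹ • (B * Bᵀ)).det := by gcongr
    _ = _ := h4.symm

theorem log_choose_le (M N : ℕ) (p q : ℝ) (hp : 0 < p) (hq : 0 < q) (hpq : p + q = 1)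
    (hN : (N : ℝ) = p * M) :
    Real.log (M.choose N) ≤ - (N * Real.log p) - (N * (q / p)) * Real.log q := by
  have hNM : N ≤ M := by
    have h1 : (N : ℝ) ≤ M := by
      rw [hN]
      have h2 : p ≤ 1 := by linarith
      have h3 : (0 : ℝ) ≤ M := Nat.cast_nonneg M
      nlinarith
    exact_mod_cast h1
  have h1 : p ^ N * q ^ (M - N) * (M.choose N : ℝ) ≤ 1 := by
    have h2 : (p + q) ^ M = 1 := by rw [hpq, one_pow]
    rw [← h2, add_pow]
    exact Finset.single_le_sum (f := fun k => p ^ k * q ^ (M - k) * (M.choose k : ℝ))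
      (fun k _ => by positivity) (Finset.mem_range.2 (Nat.lt_succ_of_le hNM))
  have hc : (0 : ℝ) < M.choose N := by exact_mod_cast Nat.choose_pos hNM
  have h2 := Real.log_le_log (by positivity) h1
  rw [Real.log_mul (by positivity) (by positivity), Real.log_mul (by positivity) (by positivity),
    Real.log_pow, Real.log_pow, Real.log_one, Nat.cast_sub hNM] at h2
  have h3 : (M : ℝ) - N = N * (q / p) := by
    rw [hN]
    have h4 : q = 1 - p := by linarith
    rw [h4]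
    field_simp
  rw [h3] at h2
  linarith

end Pool.Agent.Lib.MP_9701dc_gt.DD
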