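import Pool.Agent.Lib.MP_9701dc_gt.DD.Spectral
import Pool.Agent.Lib.MP_9701dc_gt.DD.Key2
import Pool.Agent.Lib.MP_9701dc_gt.DD.Wachter
import Pool.Agent.Lib.MP_9701dc_gt.DD.Params2
import Pool.Agent.Lib.MP_9701dc_gt.DD.GramDet
import Pool.Agent.Lib.MP_9701dc_gt.DD.Weights

set_option autoImplicit false
set_option linter.unusedSectionVars false
set_option linter.unusedVariables false

/-!
# The sharp determinant bound for all `n` (module W7a)
-/

namespace Pool.Agent.Lib.MP_9701dc_gt.DD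

open Finset Matrix

/-! ### The full set of rows -/

section weights2

variable {n : ℕ} {ι : Type*} [Fintype ι]

/-- all `k`-sets -/
def allR (n k : ℕ) : Finset (Finset (Fin n)) := univ.filter fun σ => σ.card = k

theorem mem_allR {k : ℕ} {σ : Finset (Fin n)} : σ ∈ allR n k ↔ σ.card = k := by
  simp [allR]

theorem card_allR (n k : ℕ) : (allR n k).card = n.choose k := by
  have : allR n k = (univ : Finset (Fin n)).powersetCard k := by
    ext σ; simp [allR, mem_powersetCard]
  rw [this, card_powersetCard, card_univ, Fintype.card_fin]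

/-- weight, equal to `1` outside the rows -/
noncomputable def wt2 (k : ℕ) (T : ι → Finset (Fin n)) (L : ℝ) (ρ : Finset (Fin n)) : ℝ :=
  if ρ.card = k then wt T L ρ else 1

theorem wt2_pos (k : ℕ) (T : ι → Finset (Fin n)) {L : ℝ} (hL : 0 < L) (ρ : Finset (Fin n)) :
    0 < wt2 k T L ρ := by
  unfold wt2
  split_ifs
  · exact wt_pos T hL ρ
  · exact one_pos

theorem wt2_le (k : ℕ) (T : ι → Finset (Fin n)) {L : ℝ} (hL : 0 < L) (ρ : Finset (Fin n)) :
    wt2 k T L ρ ≤ 1 := by
  unfold wt2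
  split_ifs
  · exact wt_le T hL ρ
  · exact le_rfl

/-- the system -/
noncomputable def mkSys2 (k : ℕ) (T : ι → Finset (Fin n)) (hT : Function.Injective T)
    (hc : ∀ i, (T i).card = k + 1) (L η : ℝ) (hL : 0 < L) (hη : 0 < η) : Sys n ι where
  k := k
  T := T
  Rd := allR n k
  w := wt2 k T L
  η := η
  L := L
  T_inj := hT
  T_card := hc
  Rd_card := fun _ h => mem_allR.mp h
  w_pos := wt2_pos k T hL
  w_le := wt2_le k T hL
  η_pos := hη
  L_pos := hL
  deg := fun ρ h => by
    unfold wt2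
    rw [if_pos (mem_allR.mp h)]
    exact wt_deg T hL ρ

theorem sum_dgr_le2 (k : ℕ) (T : ι → Finset (Fin n)) (hc : ∀ i, (T i).card = k + 1) :
    ∑ ρ ∈ allR n k, dgr T ρ ≤ (k + 1) * Fintype.card ι := by
  classical
  have h1 : ∀ ρ, dgr T ρ = ∑ i, if ρ ⊆ T i then (1 : ℝ) else 0 := by
    intro ρ
    unfold dgr
    rw [sum_boole]
  simp only [h1]
  rw [sum_comm]
  have h2 : ∀ i, ∑ ρ ∈ allR n k, (if ρ ⊆ T i then (1 : ℝ) else 0) ≤ k + 1 := by
    intro i
    rw [← sum_filter, sum_const, nsmul_eq_mul, mul_one]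
    have h3 : ((allR n k).filter (· ⊆ T i)).card ≤ ((T i).powersetCard k).card := by
      refine card_le_card fun σ hσ => ?_
      rw [mem_filter, mem_allR] at hσ
      rw [mem_powersetCard]
      exact ⟨hσ.2, hσ.1⟩
    rw [card_powersetCard, hc i, Nat.choose_succ_self_right] at h3
    exact_mod_cast h3
  calc _ ≤ ∑ _i : ι, ((k : ℝ) + 1) := sum_le_sum fun i _ => h2 i
    _ = _ := by rw [sum_const, nsmul_eq_mul, card_univ]; ring

theorem sum_inv_wt2_sub_le (k : ℕ) (T : ι → Finset (Fin n)) (hc : ∀ i, (T i).card = k + 1)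
    {K : ℝ} (hK : 0 < K) :
    ∑ ρ ∈ allR n k, (1 / wt2 k T (K * (k + 1)) ρ - 1) ≤ (Fintype.card ι : ℝ) / K := by
  have hL : 0 < K * ((k : ℝ) + 1) := by positivity
  calc ∑ ρ ∈ allR n k, (1 / wt2 k T (K * (k + 1)) ρ - 1)
      ≤ ∑ ρ ∈ allR n k, dgr T ρ / (K * (k + 1)) := by
        refine sum_le_sum fun ρ hρ => ?_
        unfold wt2
        rw [if_pos (mem_allR.mp hρ)]
        have := inv_wt_le T hL ρ
        linarith
    _ = (∑ ρ ∈ allR n k, dgr T ρ) / (K * (k + 1)) := by rw [sum_div]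
    _ ≤ ((k + 1) * Fintype.card ι) / (K * (k + 1)) := by
        have := sum_dgr_le2 k T hc
        gcongr
    _ = _ := by
        field_simp

theorem b_full {k : ℕ} {T : ι → Finset (Fin n)} {hT : Function.Injective T}
    {hc : ∀ i, (T i).card = k + 1} {L η : ℝ} {hL : 0 < L} {hη : 0 < η} (ρ : Finset (Fin n))
    (i : ι) : (mkSys2 k T hT hc L η hL hη).b ρ i = (inc ρ (T i) : ℝ) := by
  unfold Sys.b
  by_cases hρ : ρ.card = k
  · rw [if_pos]
    · rfl
    · exact mem_allR.mpr hρ
  · rw [if_neg]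
    · rw [inc_eq_zero_of_card]
      · simp
      · rw [hc i]; omega
    · exact fun h => hρ (mem_allR.mp h)

end weights2

variable {n : ℕ} {ι : Type*} [Fintype ι] [DecidableEq ι]

/-- the full incidence matrix -/
def Bf (T : ι → Finset (Fin n)) : Matrix (Finset (Fin n)) ι ℝ := fun ρ i => (inc ρ (T i) : ℝ)

theorem Bf_gram (T : ι → Finset (Fin n)) :
    (Bf T)ᵀ * Bf T = Matrix.of fun i j => (gram (T i) (T j) : ℝ) := by
  ext i j
  rw [mul_apply, of_apply]
  unfold gram Bf
  push_cast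
  rfl

/-- trivial bound -/
theorem log_det_gram_le (k : ℕ) (T : ι → Finset (Fin n)) (hT : Function.Injective T)
    (hc : ∀ i, (T i).card = k + 1) (hpos : 0 < ((Bf T)ᵀ * Bf T).det) :
    Real.log ((Bf T)ᵀ * Bf T).det ≤ Fintype.card ι * Real.log (k + 1) := by
  rcases isEmpty_or_nonempty ι with hemp | hne
  · rw [det_isEmpty, Real.log_one, Fintype.card_eq_zero, Nat.cast_zero, zero_mul]
  have hN : (0 : ℝ) < Fintype.card ι := by exact_mod_cast Fintype.card_pos
  have hD : (0 : ℝ) < (k : ℝ) + 1 := by positivity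
  let X : Sys n ι := {
    k := k, T := T, Rd := allR n k, w := fun _ => 1, η := 1, L := Fintype.card ι, T_inj := hT,
    T_card := hc, Rd_card := fun _ h => mem_allR.mp h, w_pos := fun _ => one_pos,
    w_le := fun _ => le_rfl, η_pos := one_pos, L_pos := hN,
    deg := fun ρ _ => by
      rw [one_mul]
      exact_mod_cast card_le_univ _ }
  have hG : X.G = (Bf T)ᵀ * Bf T := by
    ext i j
    rw [Sys.G_apply, mul_apply]
    refine sum_congr rfl fun ρ _ => ?_
    have hb : ∀ i, X.b ρ i = (inc ρ (T i) : ℝ) := by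
      intro i
      unfold Sys.b
      by_cases hρ : ρ.card = k
      · rw [if_pos]
        exact mem_allR.mpr hρ
      · rw [if_neg]
        · rw [inc_eq_zero_of_card]
          · simp
          · rw [hc i]; omega
        · exact fun h => hρ (mem_allR.mp h)
    rw [hb, hb]
    change 1 * (inc ρ (T i) : ℝ) * (inc ρ (T j) : ℝ) = (inc ρ (T i) : ℝ) * (inc ρ (T j) : ℝ)
    ring
  rw [← hG, X.det_G] at hpos ⊢
  have hev : ∀ i, 0 < X.ev i := by
    intro i
    refine lt_of_le_of_ne (X.ev_nonneg i) fun h => ?_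
    have : ∏ i, X.ev i = 0 := prod_eq_zero (mem_univ i) h.symm
    rw [this] at hpos
    exact lt_irrefl _ hpos
  rw [Real.log_prod fun i _ => (hev i).ne']
  have h1 : ∀ i, Real.log (X.ev i) ≤ Real.log (k + 1) + (X.ev i / (k + 1) - 1) := by
    intro i
    have h2 := Real.log_le_sub_one_of_pos (div_pos (hev i) hD)
    rw [Real.log_div (hev i).ne' hD.ne'] at h2
    linarith
  have h2 : ∑ i, X.ev i ≤ (k + 1) * Fintype.card ι := X.sum_ev_le
  calc ∑ i, Real.log (X.ev i) ≤ ∑ i, (Real.log (k + 1) + (X.ev i / (k + 1) - 1)) :=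
        sum_le_sum fun i _ => h1 i
    _ = Fintype.card ι * Real.log (k + 1) + ((∑ i, X.ev i) / (k + 1) - Fintype.card ι) := by
        rw [sum_add_distrib, sum_sub_distrib, sum_const, sum_const, ← sum_div, card_univ,
          nsmul_eq_mul, nsmul_eq_mul, mul_one]
    _ ≤ _ := by
        have : (∑ i, X.ev i) / ((k : ℝ) + 1) ≤ Fintype.card ι := by
          rw [div_le_iff₀ hD]; linarith
        linarith

end Pool.Agent.Lib.MP_9701dc_gt.DD
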