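import Pool.Agent.Lib.MP_9701dc_gt.GR.Reduced

set_option autoImplicit false
set_option linter.unusedSectionVars false

/-!
# A large minor with pairwise distinct columns

Only injective families of columns contribute to the Cauchy-Binet sum, so the average over
injective families gives a minor that is larger than in `exists_minor` by the factor
`(card κ)^(card ι) / descFactorial`.
-/

namespace Pool.Agent.Lib.MP_9701dc_gt.DD

open Finset Pool.Agent.Lib.MP_9701dc_gt Pool.Agent.Lib.MP_9701dc_gt.GR

section

variable {ι κ : Type} [Fintype ι] [DecidableEq ι] [Fintype κ] [DecidableEq κ]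

open Classical in
/-- number of injective maps -/
theorem card_injective :
    ((univ : Finset (ι → κ)).filter fun c => Function.Injective c).card =
      (Fintype.card κ).descFactorial (Fintype.card ι) := by
  rw [← Fintype.card_embedding_eq, ← Fintype.card_subtype]
  exact Fintype.card_congr (Equiv.subtypeInjectiveEquivEmbedding ι κ)

/-- a determinant with a repeated column is zero -/
theorem det_eq_zero_of_not_injective (A : Matrix ι κ ℝ) (c : ι → κ)
    (hc : ¬ Function.Injective c) : (A.submatrix id c).det = 0 := by
  unfold Function.Injective at hc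
  push Not at hc
  obtain ⟨i, j, hij, hne⟩ := hc
  refine Matrix.det_zero_of_column_eq hne fun k => ?_
  simp [Matrix.submatrix_apply, hij]

/-- some minor with distinct columns is at least the average -/
theorem exists_minor_choose (A : Matrix ι κ ℝ) (hA : 0 < (A * A.transpose).det) :
    ∃ c : ι → κ, (A * A.transpose).det ≤
      ((Fintype.card κ).choose (Fintype.card ι) : ℝ) * (A.submatrix id c).det ^ 2 := by
  classical
  have h := factorial_mul_det A
  have h0 : ∑ c : ι → κ, (A.submatrix id c).det ^ 2 =
      ∑ c ∈ (univ : Finset (ι → κ)).filter (fun c => Function.Injective c),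
        (A.submatrix id c).det ^ 2 := by
    symm
    refine sum_subset (subset_univ _) fun c _ hc => ?_
    have hc' : ¬ Function.Injective c := fun hinj => hc (mem_filter.mpr ⟨mem_univ _, hinj⟩)
    rw [det_eq_zero_of_not_injective A c hc']
    ring
  rw [h0] at h
  have hfac : (0 : ℝ) < ((Fintype.card ι).factorial : ℝ) := by positivity
  set I := (univ : Finset (ι → κ)).filter (fun c => Function.Injective c) with hI
  have hne : I.Nonempty := by
    by_contra hem
    rw [not_nonempty_iff_eq_empty] at hem
    rw [hem, sum_empty] at h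
    have : (0 : ℝ) < ((Fintype.card ι).factorial : ℝ) * (A * A.transpose).det :=
      mul_pos hfac hA
    linarith
  have hcard : (I.card : ℝ) = ((Fintype.card ι).factorial : ℝ) *
      ((Fintype.card κ).choose (Fintype.card ι) : ℝ) := by
    rw [hI, card_injective, Nat.descFactorial_eq_factorial_mul_choose]
    push_cast
    rfl
  have hIpos : (0 : ℝ) < (I.card : ℝ) := by exact_mod_cast card_pos.mpr hne
  by_contra hc
  push Not at hc
  have h1 : ∑ c ∈ I, ((Fintype.card κ).choose (Fintype.card ι) : ℝ) *
        (A.submatrix id c).det ^ 2 <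
      ∑ _c ∈ I, (A * A.transpose).det :=
    sum_lt_sum_of_nonempty hne fun c _ => hc c
  rw [← mul_sum, ← h, sum_const, nsmul_eq_mul, hcard] at h1
  have h2 : ((Fintype.card κ).choose (Fintype.card ι) : ℝ) *
      (((Fintype.card ι).factorial : ℝ) * (A * A.transpose).det) =
      ((Fintype.card ι).factorial : ℝ) * ((Fintype.card κ).choose (Fintype.card ι) : ℝ) *
        (A * A.transpose).det := by ring
  rw [h2] at h1
  exact lt_irrefl _ h1

end

variable {n d : ℕ}

/-- **A large minor of the reduced incidence matrix, with distinct faces.** -/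
theorem exists_faces_choose (hn : 2 ≤ n) (v : Fin n) :
    ∃ c : Row n d v → Face n d,
      0 < (Matrix.of fun i σ : Row n d v => inc σ.1 (c i).1).det ^ 2 ∧
      (Fintype.card (Row n d v) : ℝ) * ((n : ℝ) - d - 1) / ((n : ℝ) - 1) * Real.log n ≤
      Real.log ((n.choose (d + 1)).choose (Fintype.card (Row n d v))) +
        Real.log (((Matrix.of fun i σ : Row n d v => inc σ.1 (c i).1).det : ℝ) ^ 2) := by
  obtain ⟨hpos, hlog⟩ := det_reduced (d := d) hn v
  obtain ⟨c, hc⟩ := exists_minor_choose (Arr n d v) hpos
  have hdet : ((Arr n d v).submatrix id c).det =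
      ((Matrix.of fun i σ : Row n d v => inc σ.1 (c i).1).det : ℝ) := by
    rw [← Matrix.det_transpose]
    have h1 : ((Arr n d v).submatrix id c).transpose =
        (Matrix.of fun i σ : Row n d v => inc σ.1 (c i).1).map (Int.cast : ℤ → ℝ) := by
      ext i σ
      simp [Arr]
    rw [h1]
    exact ((Int.castRingHom ℝ).map_det _).symm
  rw [hdet] at hc
  have hcardF : Fintype.card (Face n d) = n.choose (d + 1) := by
    rw [Fintype.card_finset_len, Fintype.card_fin]
  rw [hcardF] at hc
  set x : ℤ := (Matrix.of fun i σ : Row n d v => inc σ.1 (c i).1).det with hx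
  have hR : (0 : ℝ) < ((n.choose (d + 1)).choose (Fintype.card (Row n d v)) : ℝ) *
      (x : ℝ) ^ 2 := hpos.trans_le hc
  have hx0 : x ≠ 0 := by
    intro h0
    rw [h0] at hR
    simp at hR
  have hx2 : (0 : ℝ) < (x : ℝ) ^ 2 := by
    have : (x : ℝ) ≠ 0 := by exact_mod_cast hx0
    positivity
  have hP : (0 : ℝ) < ((n.choose (d + 1)).choose (Fintype.card (Row n d v)) : ℝ) :=
    pos_of_mul_pos_left hR hx2.le
  refine ⟨c, by positivity, ?_⟩
  have h3 := Real.log_le_log hpos hc
  rw [Real.log_mul hP.ne' hx2.ne', hlog] at h3
  exact h3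

end Pool.Agent.Lib.MP_9701dc_gt.DD
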