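import Mathlib

/-!
# Comparison of a spectrum with the Marchenko-Pastur law

If the normalised trace `gs` of the resolvent of a positive spectrum `μ` with mean at most `1` satisfies
`1 - θ ≤ h g (1 + g)` on a long interval then the mean of `log (h₀ + μ)` is at most `-1 + ε`.
-/

namespace Pool.Agent.Lib.MP_9701dc_gt.DD

noncomputable def gs {ι : Type*} [Fintype ι] (μ : ι → ℝ) (h : ℝ) : ℝ :=
  (∑ i, 1 / (h + μ i)) / Fintype.card ι

/-- the mean logarithm -/
noncomputable def lamF {ι : Type*} [Fintype ι] (μ : ι → ℝ) (h : ℝ) : ℝ :=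
  (∑ i, Real.log (h + μ i)) / Fintype.card ι

/-- the logarithmic potential of the Marchenko-Pastur law at `h = 1 / (x (1 + x))` -/
noncomputable def mpF (x : ℝ) : ℝ := Real.log (1 + x) - Real.log x - x / (1 + x)

theorem gs_nonneg {ι : Type*} [Fintype ι] (μ : ι → ℝ) (hμ : ∀ i, 0 ≤ μ i) {h : ℝ} (hh : 0 < h) :
    0 ≤ gs μ h := by
  unfold gs
  refine div_nonneg (Finset.sum_nonneg fun i _ => ?_) (Nat.cast_nonneg _)
  have := hμ i
  positivity

theorem hasDerivAt_lamF {ι : Type*} [Fintype ι] (μ : ι → ℝ) (hμ : ∀ i, 0 ≤ μ i) {h : ℝ}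
    (hh : 0 < h) : HasDerivAt (lamF μ) (gs μ h) h := by
  unfold lamF gs
  have h1 : HasDerivAt (fun h => ∑ i, Real.log (h + μ i)) (∑ i, 1 / (h + μ i)) h := by
    refine HasDerivAt.fun_sum fun i _ => ?_
    have h2 : HasDerivAt (fun h => h + μ i) 1 h := (hasDerivAt_id h).add_const _
    exact h2.log (ne_of_gt (by have := hμ i; linarith))
  exact h1.div_const _

theorem hasDerivAt_hx {x : ℝ} (hx : 0 < x) :
    HasDerivAt (fun x : ℝ => (x * (1 + x))⁻¹) (-(1 + 2 * x) / (x * (1 + x)) ^ 2) x := by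
  have h1 : HasDerivAt (fun x : ℝ => x * (1 + x)) (1 + 2 * x) x := by
    have h2 := (hasDerivAt_id x).mul ((hasDerivAt_id x).const_add 1)
    have h3 : 1 * (1 + id x) + id x * 1 = 1 + 2 * x := by
      simp only [id]
      ring
    rw [h3] at h2
    exact h2
  exact h1.inv (ne_of_gt (by positivity))

theorem hasDerivAt_mpF {x : ℝ} (hx : 0 < x) :
    HasDerivAt mpF (x * (-(1 + 2 * x) / (x * (1 + x)) ^ 2)) x := by
  have h0 : (1 + x) ≠ 0 := by positivity
  have h1 : HasDerivAt (fun x : ℝ => 1 + x) 1 x := (hasDerivAt_id x).const_add 1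
  have h2 := h1.log h0
  have h3 := Real.hasDerivAt_log (ne_of_gt hx)
  have h4 := (hasDerivAt_id x).div h1 h0
  have h5 := (h2.sub h3).sub h4
  have h6 : 1 / (1 + x) - x⁻¹ - (1 * (1 + x) - id x * 1) / (1 + x) ^ 2 =
      x * (-(1 + 2 * x) / (x * (1 + x)) ^ 2) := by
    simp only [id]
    field_simp
    ring
  rw [h6] at h5
  exact h5

theorem lamF_le_log {ι : Type*} [Fintype ι] [Nonempty ι] (μ : ι → ℝ) (hμ : ∀ i, 0 ≤ μ i)
    (hs : ∑ i, μ i ≤ Fintype.card ι) {H : ℝ} (hH : 0 < H) : lamF μ H ≤ Real.log (H + 1) := by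
  have hN : (0 : ℝ) < Fintype.card ι := by exact_mod_cast Fintype.card_pos
  unfold lamF
  rw [div_le_iff₀ hN]
  have h1 : ∀ i, Real.log (H + μ i) ≤ (H + μ i) / (H + 1) - 1 + Real.log (H + 1) := by
    intro i
    have h2 : 0 < H + μ i := by have := hμ i; linarith
    have h3 : (0 : ℝ) < H + 1 := by linarith
    have h4 := Real.log_le_sub_one_of_pos (div_pos h2 h3)
    rw [Real.log_div (ne_of_gt h2) (ne_of_gt h3)] at h4
    linarith
  calc ∑ i, Real.log (H + μ i) ≤ ∑ i, ((H + μ i) / (H + 1) - 1 + Real.log (H + 1)) :=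
        Finset.sum_le_sum fun i _ => h1 i
    _ = (H * Fintype.card ι + ∑ i, μ i) / (H + 1) - Fintype.card ι +
        Fintype.card ι * Real.log (H + 1) := by
        simp only [Finset.sum_add_distrib, Finset.sum_sub_distrib, ← Finset.sum_div,
          Finset.sum_const, Finset.card_univ, nsmul_eq_mul]
        ring
    _ ≤ Real.log (H + 1) * Fintype.card ι := by
        have h3 : (0 : ℝ) < H + 1 := by linarith
        have h5 : (H * Fintype.card ι + ∑ i, μ i) / (H + 1) ≤ Fintype.card ι := by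
          rw [div_le_iff₀ h3]
          linarith
        linarith

theorem mp_mono {ι : Type*} [Fintype ι] (μ : ι → ℝ) (hμ : ∀ i, 0 ≤ μ i) {γ Γ θ : ℝ}
    (hγ : 0 < γ) (hγΓ : γ ≤ Γ) (hθ : 0 < θ) (hθ1 : θ < 1)
    (h : ∀ x, γ ≤ x → x ≤ Γ → (1 - θ) ≤ (x * (1 + x))⁻¹ * gs μ (x * (1 + x))⁻¹ *
      (1 + gs μ (x * (1 + x))⁻¹)) :
    lamF μ (Γ * (1 + Γ))⁻¹ - (1 - θ) * mpF Γ ≤ lamF μ (γ * (1 + γ))⁻¹ - (1 - θ) * mpF γ := by
  have hder : ∀ x : ℝ, 0 < x → HasDerivAt (fun x => lamF μ (x * (1 + x))⁻¹ - (1 - θ) * mpF x)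
      (gs μ (x * (1 + x))⁻¹ * (-(1 + 2 * x) / (x * (1 + x)) ^ 2) -
        (1 - θ) * (x * (-(1 + 2 * x) / (x * (1 + x)) ^ 2))) x := by
    intro x hx
    have h1 : 0 < (x * (1 + x))⁻¹ := by positivity
    have h2 := (hasDerivAt_lamF μ hμ h1).comp x (hasDerivAt_hx hx)
    exact h2.sub ((hasDerivAt_mpF hx).const_mul _)
  have hanti : AntitoneOn (fun x => lamF μ (x * (1 + x))⁻¹ - (1 - θ) * mpF x) (Set.Icc γ Γ) := by
    refine antitoneOn_of_deriv_nonpos (convex_Icc γ Γ) ?_ ?_ ?_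
    · intro x hx
      exact (hder x (by linarith [hx.1])).continuousAt.continuousWithinAt
    · intro x hx
      rw [interior_Icc] at hx
      exact (hder x (by linarith [hx.1])).differentiableAt.differentiableWithinAt
    · intro x hx
      rw [interior_Icc] at hx
      have hx0 : 0 < x := by linarith [hx.1]
      rw [(hder x hx0).deriv]
      have h1 : 0 < (x * (1 + x))⁻¹ := by positivity
      have hg := gs_nonneg μ hμ h1
      have h2 := h x hx.1.le hx.2.le
      set g := gs μ (x * (1 + x))⁻¹ with hgdef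
      have h3 : (1 - θ) * (x * (1 + x)) ≤ g * (1 + g) := by
        have h4 : (x * (1 + x))⁻¹ * g * (1 + g) = g * (1 + g) / (x * (1 + x)) := by
          rw [div_eq_mul_inv]
          ring
        rw [h4, le_div_iff₀ (by positivity)] at h2
        exact h2
      have h5 : (1 - θ) * x ≤ g := by
        by_contra hc
        push Not at hc
        have h6 : 0 < 1 - θ := by linarith
        have h7 : (1 - θ) * x ≤ x := by nlinarith
        have h8 : g * (1 + g) < (1 - θ) * x * (1 + x) := by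
          calc g * (1 + g) ≤ g * (1 + x) := by
                apply mul_le_mul_of_nonneg_left _ hg
                linarith
            _ < (1 - θ) * x * (1 + x) := by
                apply mul_lt_mul_of_pos_right hc
                linarith
        have h9 : (1 - θ) * (x * (1 + x)) = (1 - θ) * x * (1 + x) := by ring
        linarith
      have h10 : -(1 + 2 * x) / (x * (1 + x)) ^ 2 ≤ 0 := by
        apply div_nonpos_of_nonpos_of_nonneg
        · linarith
        · positivity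
      nlinarith
  exact hanti (Set.left_mem_Icc.2 hγΓ) (Set.right_mem_Icc.2 hγΓ) hγΓ

theorem mp_compare (ε : ℝ) (hε : 0 < ε) : ∃ h₀ H θ : ℝ, 0 < h₀ ∧ h₀ < H ∧ 0 < θ ∧ θ < 1 ∧
    ∀ (ι : Type) [Fintype ι] [Nonempty ι] (μ : ι → ℝ), (∀ i, 0 ≤ μ i) →
      (∑ i, μ i ≤ Fintype.card ι) →
      (∀ h, h₀ ≤ h → h ≤ H → 1 - θ ≤ h * gs μ h * (1 + gs μ h)) →
      ∑ i, Real.log (h₀ + μ i) ≤ (-1 + ε) * Fintype.card ι := by
  obtain ⟨γ, hγ⟩ : ∃ γ : ℝ, γ = min (1 / 2) (ε / 4) := ⟨_, rfl⟩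
  have hγ0 : 0 < γ := by rw [hγ]; positivity
  have hγ1 : γ ≤ 1 / 2 := by rw [hγ]; exact min_le_left _ _
  have hγ2 : γ ≤ ε / 4 := by rw [hγ]; exact min_le_right _ _
  obtain ⟨Γ, hΓ⟩ : ∃ Γ : ℝ, Γ = 1 + 8 / ε := ⟨_, rfl⟩
  have h8 : 0 < 8 / ε := by positivity
  have hΓ1 : 1 < Γ := by rw [hΓ]; linarith
  have hΓ0 : 0 < Γ := by linarith
  have hΓ2 : 2 / Γ ≤ ε / 4 := by
    rw [div_le_iff₀ hΓ0, hΓ]
    have : ε / 4 * (1 + 8 / ε) = ε / 4 + 2 := by field_simp; ring
    rw [this]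
    linarith
  have hγΓ : γ < Γ := by linarith
  obtain ⟨θ, hθ⟩ : ∃ θ : ℝ, θ = min (1 / 2) (ε / (4 * (|mpF γ| + 1))) := ⟨_, rfl⟩
  have hA : 0 < |mpF γ| + 1 := by positivity
  have hθ0 : 0 < θ := by rw [hθ]; positivity
  have hθ1 : θ ≤ 1 / 2 := by rw [hθ]; exact min_le_left _ _
  have hθ2 : θ * (|mpF γ| + 1) ≤ ε / 4 := by
    have h1 : θ ≤ ε / (4 * (|mpF γ| + 1)) := by rw [hθ]; exact min_le_right _ _
    rw [le_div_iff₀ (by positivity)] at h1
    linarith
  refine ⟨(Γ * (1 + Γ))⁻¹, (γ * (1 + γ))⁻¹, θ, by positivity, ?_, hθ0, by linarith, ?_⟩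
  · apply inv_strictAnti₀ (by positivity)
    nlinarith
  · intro ι _ _ μ hμ hs hh
    have hN : (0 : ℝ) < Fintype.card ι := by exact_mod_cast Fintype.card_pos
    have h1 := mp_mono μ hμ hγ0 hγΓ.le hθ0 (by linarith : θ < 1) (fun x h2 h3 => by
      have hx : 0 < x := by linarith
      refine hh _ ?_ ?_
      · apply inv_anti₀ (by positivity)
        nlinarith
      · apply inv_anti₀ (by positivity)
        nlinarith)
    have h2 : lamF μ (γ * (1 + γ))⁻¹ ≤ Real.log ((γ * (1 + γ))⁻¹ + 1) :=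
      lamF_le_log μ hμ hs (by positivity)
    have h3 : Real.log ((γ * (1 + γ))⁻¹ + 1) ≤ mpF γ + γ := by
      have h4 : (γ * (1 + γ))⁻¹ + 1 = (1 + γ + γ ^ 2) / (γ * (1 + γ)) := by
        field_simp
        ring
      rw [h4, Real.log_div (by positivity) (by positivity),
        Real.log_mul (by positivity) (by positivity)]
      have h5 : Real.log (1 + γ + γ ^ 2) ≤ 2 * Real.log (1 + γ) := by
        have h6 : (2 : ℝ) * Real.log (1 + γ) = Real.log ((1 + γ) ^ 2) := by
          rw [Real.log_pow]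
          norm_num
        rw [h6]
        apply Real.log_le_log (by positivity)
        nlinarith
      have h7 : γ / (1 + γ) ≤ γ := by
        rw [div_le_iff₀ (by positivity)]
        nlinarith
      unfold mpF
      linarith
    have h4 : mpF Γ ≤ -1 + 2 / Γ := by
      unfold mpF
      have h5 : Real.log (1 + Γ) - Real.log Γ ≤ 1 / Γ := by
        rw [← Real.log_div (by positivity) (by positivity)]
        have h6 := Real.log_le_sub_one_of_pos (show (0 : ℝ) < (1 + Γ) / Γ by positivity)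
        have h7 : (1 + Γ) / Γ - 1 = 1 / Γ := by field_simp; ring
        linarith
      have h6 : Γ / (1 + Γ) = 1 - 1 / (1 + Γ) := by field_simp; ring
      have h7 : 1 / (1 + Γ) ≤ 1 / Γ := one_div_le_one_div_of_le hΓ0 (by linarith)
      have h8 : 2 / Γ = 1 / Γ + 1 / Γ := by ring
      linarith
    have h5 : -1 ≤ mpF Γ := by
      unfold mpF
      have h6 : Real.log Γ ≤ Real.log (1 + Γ) := Real.log_le_log hΓ0 (by linarith)
      have h7 : Γ / (1 + Γ) ≤ 1 := by
        rw [div_le_one (by positivity)]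
        linarith
      linarith
    have h6 : lamF μ (Γ * (1 + Γ))⁻¹ ≤ -1 + ε := by
      have h7 : θ * mpF γ ≤ θ * |mpF γ| := mul_le_mul_of_nonneg_left (le_abs_self _) hθ0.le
      have h8 : -(θ * mpF Γ) ≤ θ := by nlinarith
      nlinarith
    unfold lamF at h6
    rw [div_le_iff₀ hN] at h6
    exact h6

end Pool.Agent.Lib.MP_9701dc_gt.DD
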