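import Pool.Agent.Lib.MP_9701dc_gt.GR.Reduced

set_option autoImplicit false
set_option linter.unusedSectionVars false

/-!
# Duality: complementary minors of the reduced incidence matrices

A nonzero maximal minor of the reduced incidence matrix in dimension `d` equals, up to sign, the
complementary maximal minor of the reduced incidence matrix in dimension `n - 2 - d`.
-/

namespace Pool.Agent.Lib.MP_9701dc_gt.DD

open Finset Pool.Agent.Lib.MP_9701dc_gt Pool.Agent.Lib.MP_9701dc_gt.GR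

variable {n d : ℕ}

/-- the sign attached to a set of vertices -/
def sgn (σ : Finset (Fin n)) : ℤ := (-1) ^ (∑ y ∈ σ, y.val)

theorem sgn_sq (σ : Finset (Fin n)) : sgn σ * sgn σ = 1 := by
  unfold sgn
  rw [← pow_add, ← two_mul, pow_mul]; norm_num

theorem sgn_insert {x : Fin n} {σ : Finset (Fin n)} (hx : x ∉ σ) :
    sgn (insert x σ) = (-1) ^ x.val * sgn σ := by
  unfold sgn
  rw [sum_insert hx, pow_add]

/-- the signs below `x` in a partition of the complement of `x` -/
theorem sg_mul_sg {x : Fin n} {τ : Finset (Fin n)} :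
    sg x τ * sg x (insert x τ)ᶜ = (-1) ^ x.val := by
  unfold sg
  rw [← pow_add]
  congr 1
  have h1 : (τ.filter (· < x)).card + ((insert x τ)ᶜ.filter (· < x)).card =
      (τ.filter (· < x) ∪ (insert x τ)ᶜ.filter (· < x)).card := by
    rw [card_union_of_disjoint]
    rw [disjoint_left]
    intro y hy hy'
    rw [mem_filter] at hy hy'
    exact (mem_compl.mp hy'.1) (mem_insert_of_mem hy.1)
  rw [h1]
  have h2 : τ.filter (· < x) ∪ (insert x τ)ᶜ.filter (· < x) = Iio x := by
    ext y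
    simp only [mem_union, mem_filter, mem_compl, mem_insert, mem_Iio, not_or]
    constructor
    · rintro (⟨_, h⟩ | ⟨_, h⟩) <;> exact h
    · intro h
      by_cases hy : y ∈ τ
      · exact Or.inl ⟨hy, h⟩
      · exact Or.inr ⟨⟨h.ne, hy⟩, h⟩
  rw [h2, Fin.card_Iio]

/-- **The Hodge star intertwines boundary and coboundary.** -/
theorem inc_compl (τ θ : Finset (Fin n)) : inc τ θ = sgn θ * sgn τ * inc θᶜ τᶜ := by
  by_cases h : inc τ θ = 0
  · by_cases h' : inc θᶜ τᶜ = 0
    · rw [h, h', mul_zero]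
    · exfalso
      obtain ⟨x, hx, hx'⟩ := inc_ne_zero h'
      have h1 : θ = insert x τ := by
        rw [mem_compl, not_not] at hx
        have h2 : τ = θ.erase x := by
          rw [← compl_inj_iff, hx', compl_erase]
        rw [h2, insert_erase hx]
      have hxτ : x ∉ τ := by
        rw [← mem_compl, hx']
        exact mem_insert_self _ _
      rw [h1, inc_insert hxτ] at h
      have := sg_sq x τ
      rw [h] at this
      norm_num at this
  · obtain ⟨x, hx, rfl⟩ := inc_ne_zero h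
    have h1 : τᶜ = insert x (insert x τ)ᶜ := by
      rw [insert_compl_insert hx]
    have h2 : x ∉ (insert x τ)ᶜ := by simp
    rw [inc_insert hx, h1, inc_insert h2, sgn_insert hx]
    have h3 := sg_mul_sg (x := x) (τ := τ)
    have h4 := sgn_sq τ
    have h5 := sg_sq x (insert x τ)ᶜ
    calc sg x τ = sg x τ * (sg x (insert x τ)ᶜ * sg x (insert x τ)ᶜ) * (sgn τ * sgn τ) := by
          rw [h5, h4]; ring
      _ = (sg x τ * sg x (insert x τ)ᶜ) * sgn τ * sgn τ * sg x (insert x τ)ᶜ := by ring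
      _ = _ := by rw [h3]

section

variable {m k : Type} [Fintype m] [Fintype k] [DecidableEq m] [DecidableEq k]

open Matrix in
/-- complementary minors of two families with orthogonal columns -/
theorem compl_minor (A1 : Matrix m m ℝ) (A2 : Matrix k m ℝ) (C1 : Matrix m k ℝ) (C2 : Matrix k k ℝ)
    (horth : A1ᵀ * C1 + A2ᵀ * C2 = 0) (G : ℝ) (hG : 0 < G)
    (hA : (A1ᵀ * A1 + A2ᵀ * A2).det = G) (hC : (C1ᵀ * C1 + C2ᵀ * C2).det = G) :
    C2.det ^ 2 = A1.det ^ 2 := by
  have horth' : C1ᵀ * A1 + C2ᵀ * A2 = 0 := by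
    have := congrArg Matrix.transpose horth
    simpa [Matrix.transpose_add, Matrix.transpose_mul] using this
  set M : Matrix (m ⊕ k) (m ⊕ k) ℝ := fromBlocks A1 C1 A2 C2 with hM
  have h1 : Mᵀ * M = fromBlocks (A1ᵀ * A1 + A2ᵀ * A2) 0 0 (C1ᵀ * C1 + C2ᵀ * C2) := by
    rw [hM, fromBlocks_transpose, fromBlocks_multiply, horth, horth']
  have h2 : M.det ^ 2 = G * G := by
    have h3 := congrArg Matrix.det h1
    rw [det_mul, det_transpose, det_fromBlocks_zero₂₁, hA, hC] at h3
    rw [pow_two, h3]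
  have h4 : Mᵀ * fromBlocks 1 C1 0 C2 = fromBlocks A1ᵀ 0 C1ᵀ (C1ᵀ * C1 + C2ᵀ * C2) := by
    rw [hM, fromBlocks_transpose, fromBlocks_multiply, horth]
    simp
  have h5 : M.det * C2.det = A1.det * G := by
    have h6 := congrArg Matrix.det h4
    rw [det_mul, det_transpose, det_fromBlocks_zero₂₁, det_fromBlocks_zero₁₂, hC, det_transpose,
      det_one, one_mul] at h6
    exact h6
  have h7 : G * G * C2.det ^ 2 = G * G * A1.det ^ 2 := by
    have h8 : (M.det * C2.det) ^ 2 = (A1.det * G) ^ 2 := by rw [h5]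
    rw [mul_pow, h2, mul_pow] at h8
    rw [h8]; ring
  have hGG : G * G ≠ 0 := (mul_pos hG hG).ne'
  exact mul_left_cancel₀ hGG h7

end

theorem sum_face_up {σ : Finset (Fin n)} (hσ : σ.card = d) (σ' : Finset (Fin n)) :
    ∑ τ : Face n d, (inc σ τ.1 : ℝ) * (inc σ' τ.1 : ℝ) =
      ∑ τ : Finset (Fin n), (inc σ τ : ℝ) * (inc σ' τ : ℝ) := by
  rw [← sum_subtype (univ.filter fun τ : Finset (Fin n) => τ.card = d + 1) (by simp)
    (fun τ => (inc σ τ : ℝ) * (inc σ' τ : ℝ))]
  refine sum_subset (subset_univ _) fun τ _ hτ => ?_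
  have : inc σ τ = 0 := by
    refine inc_eq_zero_of_card fun hc => hτ (mem_filter.mpr ⟨mem_univ _, ?_⟩)
    rw [hc, hσ]
  rw [this]; simp

theorem sum_face_down {θ : Finset (Fin n)} (hθ : θ.card = d + 2) (g : Finset (Fin n) → ℝ) :
    ∑ τ : Face n d, (inc τ.1 θ : ℝ) * g τ.1 = ∑ τ : Finset (Fin n), (inc τ θ : ℝ) * g τ := by
  rw [← sum_subtype (univ.filter fun τ : Finset (Fin n) => τ.card = d + 1) (by simp)
    (fun τ => (inc τ θ : ℝ) * g τ)]
  refine sum_subset (subset_univ _) fun τ _ hτ => ?_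
  have : inc τ θ = 0 := by
    refine inc_eq_zero_of_card fun hc => hτ (mem_filter.mpr ⟨mem_univ _, ?_⟩)
    rw [hθ] at hc
    omega
  rw [this]; simp

theorem card_row (v : Fin n) : Fintype.card (Row n d v) = (n - 1).choose d := by
  rw [Fintype.card_coe]
  have : rows n d v = (univ.erase v).powersetCard d := by
    ext σ
    rw [mem_rows, mem_powersetCard]
    constructor
    · rintro ⟨h1, h2⟩
      exact ⟨fun x hx => mem_erase.mpr ⟨fun h => h2 (h ▸ hx), mem_univ _⟩, h1⟩
    · rintro ⟨h1, h2⟩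
      exact ⟨h2, fun h => (mem_erase.mp (h1 h)).1 rfl⟩
  rw [this, card_powersetCard, card_erase_of_mem (mem_univ _), card_univ, Fintype.card_fin]

theorem choose_compl (hn : d + 2 ≤ n) : (n - 1).choose (n - 2 - d) = (n - 1).choose (d + 1) := by
  rw [← Nat.choose_symm (show d + 1 ≤ n - 1 by omega)]
  congr 1
  omega

/-- the two reduced Gram determinants agree -/
theorem det_reduced_dual (hn : d + 2 ≤ n) (v : Fin n) :
    (Arr n d v * (Arr n d v).transpose).det =
      (Arr n (n - 2 - d) v * (Arr n (n - 2 - d) v).transpose).det := by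
  obtain ⟨h1, h2⟩ := det_reduced (d := d) (show 2 ≤ n by omega) v
  obtain ⟨h3, h4⟩ := det_reduced (d := n - 2 - d) (show 2 ≤ n by omega) v
  refine Real.log_injOn_pos h1 h3 ?_
  rw [h2, h4, card_row, card_row, choose_compl hn]
  congr 2
  have h5 := Nat.choose_succ_right_eq (n - 1) d
  have h6 : (((n - 1).choose (d + 1) * (d + 1) : ℕ) : ℝ) =
      (((n - 1).choose d * (n - 1 - d) : ℕ) : ℝ) := by rw [h5]
  have h7 : ((n - 1 - d : ℕ) : ℝ) = (n : ℝ) - d - 1 := by
    rw [Nat.cast_sub (by omega), Nat.cast_sub (by omega)]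
    push_cast; ring
  have h8 : ((n - 2 - d : ℕ) : ℝ) = (n : ℝ) - 2 - d := by
    rw [Nat.cast_sub (by omega), Nat.cast_sub (by omega)]
    push_cast; ring
  push_cast at h6
  rw [h7] at h6
  rw [← h6, h8]
  ring

open Classical in
/-- **Duality.** A system of `d`-faces indexed by the rows has the same squared minor as the
complementary system of `n - 2 - d`-faces. -/
theorem dual_det (hn : d + 2 ≤ n) (v : Fin n) (T : Row n d v → Finset (Fin n))
    (hT : Function.Injective T) (hc : ∀ i, (T i).card = d + 1)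
    (A : Matrix (Row n d v) (Row n d v) ℝ) (hA : ∀ i σ, A i σ = (inc σ.1 (T i) : ℝ)) :
    ∃ (T' : Row n (n - 2 - d) v → Finset (Fin n))
      (A' : Matrix (Row n (n - 2 - d) v) (Row n (n - 2 - d) v) ℝ),
      Function.Injective T' ∧ (∀ i, (T' i).card = n - 2 - d + 1) ∧
      (∀ i σ, A' i σ = (inc σ.1 (T' i) : ℝ)) ∧ A'.det ^ 2 = A.det ^ 2 := by
  -- the complement of the range of `T`
  set TF : Row n d v → Face n d := fun i => ⟨T i, hc i⟩ with hTF
  have hTFinj : Function.Injective TF := fun i j hij => hT (congrArg Subtype.val hij)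
  have hcardF : Fintype.card (Face n d) = n.choose (d + 1) := by
    rw [Fintype.card_finset_len, Fintype.card_fin]
  have hcard : Fintype.card (Row n (n - 2 - d) v) =
      Fintype.card {f : Face n d // f ∉ Set.range TF} := by
    have h1 := Fintype.card_subtype_compl (fun f : Face n d => f ∈ Set.range TF)
    have h2 : Fintype.card {f : Face n d // f ∈ Set.range TF} = Fintype.card (Row n d v) :=
      (Fintype.card_congr (Equiv.ofInjective TF hTFinj)).symm
    rw [h1, h2, hcardF, card_row, card_row, choose_compl hn]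
    obtain ⟨m, rfl⟩ : ∃ m, n = m + 1 := ⟨n - 1, by omega⟩
    rw [Nat.add_sub_cancel, Nat.choose_succ_succ' m d]
    omega
  obtain ⟨e⟩ := Fintype.card_eq.mp hcard
  set f : Row n (n - 2 - d) v → Face n d := fun i => (e i).1 with hf
  have hfinj : Function.Injective f := fun i j hij => e.injective (Subtype.ext hij)
  -- the equivalence between rows and faces
  have hbij : Function.Bijective (Sum.elim TF f) := by
    constructor
    · rintro (i | i) (j | j) hij
      · exact congrArg Sum.inl (hTFinj hij)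
      · exfalso
        exact (e j).2 ⟨i, hij⟩
      · exfalso
        exact (e i).2 ⟨j, hij.symm⟩
      · exact congrArg Sum.inr (hfinj hij)
    · intro x
      by_cases hx : x ∈ Set.range TF
      · obtain ⟨i, hi⟩ := hx
        exact ⟨Sum.inl i, hi⟩
      · exact ⟨Sum.inr (e.symm ⟨x, hx⟩), by simp [hf]⟩
  have hsplit : ∀ g : Face n d → ℝ, ∑ i, g (TF i) + ∑ i, g (f i) = ∑ τ, g τ := by
    intro g
    rw [← (Equiv.ofBijective _ hbij).sum_comp g, Fintype.sum_sum_type]
    rfl
  -- the matrices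
  obtain ⟨A2, hA2⟩ : ∃ A2 : Matrix (Row n (n - 2 - d) v) (Row n d v) ℝ,
      ∀ i σ, A2 i σ = (inc σ.1 (f i).1 : ℝ) := ⟨fun i σ => _, fun _ _ => rfl⟩
  obtain ⟨C1, hC1⟩ : ∃ C1 : Matrix (Row n d v) (Row n (n - 2 - d) v) ℝ,
      ∀ i ρ, C1 i ρ = (inc (TF i).1 ρ.1ᶜ : ℝ) := ⟨fun i ρ => _, fun _ _ => rfl⟩
  obtain ⟨C2, hC2⟩ : ∃ C2 : Matrix (Row n (n - 2 - d) v) (Row n (n - 2 - d) v) ℝ,
      ∀ i ρ, C2 i ρ = (inc (f i).1 ρ.1ᶜ : ℝ) := ⟨fun i ρ => _, fun _ _ => rfl⟩
  obtain ⟨A', hA'⟩ : ∃ A' : Matrix (Row n (n - 2 - d) v) (Row n (n - 2 - d) v) ℝ,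
      ∀ i ρ, A' i ρ = (inc ρ.1 (f i).1ᶜ : ℝ) := ⟨fun i ρ => _, fun _ _ => rfl⟩
  have hA1 : ∀ i σ, A i σ = (inc σ.1 (TF i).1 : ℝ) := hA
  have hρcard : ∀ ρ : Row n (n - 2 - d) v, (ρ.1ᶜ : Finset (Fin n)).card = d + 2 := by
    intro ρ
    rw [card_compl, Fintype.card_fin, (mem_rows.mp ρ.2).1]
    omega
  have horth : A.transpose * C1 + A2.transpose * C2 = 0 := by
    ext σ ρ
    rw [Matrix.add_apply, Matrix.mul_apply, Matrix.mul_apply, Matrix.zero_apply]
    have h1 := hsplit (fun τ => (inc σ.1 τ.1 : ℝ) * (inc τ.1 ρ.1ᶜ : ℝ))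
    have h2 : ∑ τ : Face n d, (inc σ.1 τ.1 : ℝ) * (inc τ.1 ρ.1ᶜ : ℝ) = 0 := by
      have h3 := sum_face_down (d := d) (hρcard ρ) (fun τ => (inc σ.1 τ : ℝ))
      have h4 := inc_comp σ.1 ρ.1ᶜ
      have h5 : (∑ τ : Finset (Fin n), (inc σ.1 τ : ℝ) * (inc τ ρ.1ᶜ : ℝ)) = 0 := by
        exact_mod_cast h4
      rw [← h5]
      have h6 : ∑ τ : Face n d, (inc σ.1 τ.1 : ℝ) * (inc τ.1 ρ.1ᶜ : ℝ) =
          ∑ τ : Face n d, (inc τ.1 ρ.1ᶜ : ℝ) * (inc σ.1 τ.1 : ℝ) :=
        sum_congr rfl fun τ _ => mul_comm _ _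
      rw [h6, h3]
      exact sum_congr rfl fun τ _ => mul_comm _ _
    rw [h2] at h1
    rw [← h1]
    simp only [Matrix.transpose_apply, hA1, hA2, hC1, hC2]
  have hG := (det_reduced (d := d) (show 2 ≤ n by omega) v).1
  have hGA : (A.transpose * A + A2.transpose * A2).det =
      (Arr n d v * (Arr n d v).transpose).det := by
    congr 1
    ext σ σ'
    rw [Matrix.add_apply, Matrix.mul_apply, Matrix.mul_apply, Matrix.mul_apply]
    have h1 := hsplit (fun τ => (inc σ.1 τ.1 : ℝ) * (inc σ'.1 τ.1 : ℝ))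
    simp only [Matrix.transpose_apply, hA1, hA2, Arr]
    exact h1
  -- signs
  set D : Matrix (Row n (n - 2 - d) v) (Row n (n - 2 - d) v) ℝ :=
    Matrix.diagonal fun ρ => (sgn (ρ.1ᶜ : Finset (Fin n)) : ℝ) with hD
  set D' : Matrix (Row n (n - 2 - d) v) (Row n (n - 2 - d) v) ℝ :=
    Matrix.diagonal fun i => (sgn (f i).1 : ℝ) with hD'
  have hsgn : ∀ σ : Finset (Fin n), (sgn σ : ℝ) * (sgn σ : ℝ) = 1 := by
    intro σ
    exact_mod_cast sgn_sq σ
  have hDD : D.det ^ 2 = 1 := by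
    rw [pow_two, ← Matrix.det_mul, hD, Matrix.diagonal_mul_diagonal]
    rw [Matrix.det_diagonal]
    exact prod_eq_one fun ρ _ => hsgn _
  have hDD' : D'.det ^ 2 = 1 := by
    rw [pow_two, ← Matrix.det_mul, hD', Matrix.diagonal_mul_diagonal]
    rw [Matrix.det_diagonal]
    exact prod_eq_one fun ρ _ => hsgn _
  have hGC : (C1.transpose * C1 + C2.transpose * C2).det =
      (Arr n d v * (Arr n d v).transpose).det := by
    rw [det_reduced_dual hn v]
    have h1 : C1.transpose * C1 + C2.transpose * C2 =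
        D * (Arr n (n - 2 - d) v * (Arr n (n - 2 - d) v).transpose) * D := by
      ext ρ ρ'
      rw [Matrix.add_apply, Matrix.mul_apply, Matrix.mul_apply, hD, Matrix.mul_diagonal,
        Matrix.diagonal_mul, Matrix.mul_apply]
      simp only [Matrix.transpose_apply, hC1, hC2, Arr]
      have h2 := hsplit (fun τ => (inc τ.1 ρ.1ᶜ : ℝ) * (inc τ.1 ρ'.1ᶜ : ℝ))
      rw [h2, sum_face_down (hρcard ρ) (fun τ => (inc τ ρ'.1ᶜ : ℝ)),
        sum_face_up (mem_rows.mp ρ.2).1]
      rw [mul_sum, sum_mul]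
      refine (sum_nbij' (fun τ => τᶜ) (fun τ => τᶜ) (by simp) (by simp) (by simp) (by simp) ?_)
      intro τ _
      rw [inc_compl τ ρ.1ᶜ, inc_compl τ ρ'.1ᶜ, compl_compl, compl_compl]
      push_cast
      have := hsgn τ
      linear_combination ((sgn (ρ.1ᶜ : Finset (Fin n)) : ℝ) * (inc ρ.1 τᶜ : ℝ) *
        (inc ρ'.1 τᶜ : ℝ) * (sgn (ρ'.1ᶜ : Finset (Fin n)) : ℝ)) * this
    rw [h1, Matrix.det_mul, Matrix.det_mul]
    linear_combination (Arr n (n - 2 - d) v * (Arr n (n - 2 - d) v).transpose).det * hDD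
  have hmain := compl_minor A A2 C1 C2 horth _ hG hGA hGC
  have hC2A : C2 = D' * A' * D := by
    ext i ρ
    rw [hD, Matrix.mul_diagonal, hD', Matrix.diagonal_mul]
    simp only [hC2, hA']
    rw [inc_compl (f i).1 ρ.1ᶜ, compl_compl]
    push_cast
    ring
  refine ⟨fun i => (f i).1ᶜ, A', ?_, ?_, hA', ?_⟩
  · intro i j hij
    exact hfinj (Subtype.ext (compl_injective hij))
  · intro i
    rw [card_compl, Fintype.card_fin, (f i).2]
    omega
  · rw [← hmain, hC2A, Matrix.det_mul, Matrix.det_mul, mul_pow, mul_pow, hDD, hDD']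
    ring

/-- the number of systems of faces is symmetric under duality -/
theorem choose_dual (hn : d + 2 ≤ n) :
    (n.choose (n - 2 - d + 1)).choose ((n - 1).choose (n - 2 - d)) =
      (n.choose (d + 1)).choose ((n - 1).choose d) := by
  obtain ⟨m, rfl⟩ : ∃ m, n = m + 1 := ⟨n - 1, by omega⟩
  rw [choose_compl hn, show m + 1 - 2 - d + 1 = m + 1 - (d + 1) by omega,
    Nat.choose_symm (show d + 1 ≤ m + 1 by omega), Nat.add_sub_cancel]
  refine Nat.choose_symm_of_eq_add ?_
  rw [Nat.choose_succ_succ' m d]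
  ring

/-- the exponent of `n` is symmetric under duality -/
theorem choose_dual' (hn : d + 2 ≤ n) : (n - 2).choose (n - 2 - d) = (n - 2).choose d :=
  Nat.choose_symm (show d ≤ n - 2 by omega)

end Pool.Agent.Lib.MP_9701dc_gt.DD
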