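import Pool.Agent.Lib.MP_9701dc_gt.DD.Sys

set_option autoImplicit false

/-!
# The comparison of modes (module M3)
-/

namespace Pool.Agent.Lib.MP_9701dc_gt.DD

open Finset

namespace Sys

variable {n : ℕ} {ι : Type*} [Fintype ι] (X : Sys n ι)

/-- `Φ` solves `(G + η) Φ = bᵀ`, columnwise. -/
structure IsSol (Φ : ι → Finset (Fin n) → ℝ) : Prop where
  supp : ∀ i s, s ∉ X.Rd → Φ i s = 0
  eq : ∀ i s, ∑ ρ, X.w ρ * X.b ρ i * (∑ j, X.b ρ j * Φ j s) + X.η * Φ i s = X.b s i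

/-- `Θ = b Φ` -/
def Th (Φ : ι → Finset (Fin n) → ℝ) (ρ s : Finset (Fin n)) : ℝ := ∑ j, X.b ρ j * Φ j s

/-- the trace of `b Φ` -/
def tau (Φ : ι → Finset (Fin n) → ℝ) : ℝ := ∑ ρ, X.Th Φ ρ ρ

/-- `∑ 1 / w` -/
noncomputable def Mw : ℝ := ∑ ρ ∈ X.Rd, 1 / X.w ρ

/-- the diagonal `1 / w` -/
noncomputable def dg (ρ s : Finset (Fin n)) : ℝ :=
  if s = ρ ∧ ρ ∈ X.Rd then 1 / X.w ρ else 0

variable {X}
variable {Φ : ι → Finset (Fin n) → ℝ}

theorem Th_of_left {ρ s : Finset (Fin n)} (h : ρ ∉ X.Rd) : X.Th Φ ρ s = 0 := by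
  unfold Th
  exact sum_eq_zero fun j _ => by rw [X.b_of_notMem h, zero_mul]

theorem Th_of_right (hΦ : X.IsSol Φ) {ρ s : Finset (Fin n)} (h : s ∉ X.Rd) : X.Th Φ ρ s = 0 := by
  unfold Th
  exact sum_eq_zero fun j _ => by rw [hΦ.supp j s h, mul_zero]

theorem tau_eq (Φ : ι → Finset (Fin n) → ℝ) : X.tau Φ = ∑ ρ ∈ X.Rd, X.Th Φ ρ ρ := by
  unfold tau
  symm
  refine sum_subset (subset_univ _) fun ρ _ h => Th_of_left h

/-- `|Θ|_w^2 + η |Φ|^2 = τ`. -/
theorem energy (hΦ : X.IsSol Φ) :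
    ∑ ρ, ∑ s, X.w ρ * X.Th Φ ρ s ^ 2 + X.η * ∑ i, ∑ s, Φ i s ^ 2 = X.tau Φ := by
  have h1 : ∑ i, ∑ s, Φ i s * X.b s i = X.tau Φ := by
    rw [sum_comm]
    unfold tau Th
    exact sum_congr rfl fun s _ => sum_congr rfl fun i _ => by ring
  rw [← h1]
  have h2 : ∀ i s, Φ i s * X.b s i = ∑ ρ, X.w ρ * X.b ρ i * X.Th Φ ρ s * Φ i s +
      X.η * Φ i s ^ 2 := by
    intro i s
    rw [← hΦ.eq i s, mul_add, mul_sum]
    congr 1
    · exact sum_congr rfl fun ρ _ => by unfold Th; ring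
    · ring
  simp only [h2, sum_add_distrib]
  congr 1
  · rw [sum_comm]
    have h3 : ∀ s, ∑ i, ∑ ρ, X.w ρ * X.b ρ i * X.Th Φ ρ s * Φ i s =
        ∑ ρ, X.w ρ * X.Th Φ ρ s ^ 2 := by
      intro s
      rw [sum_comm]
      refine sum_congr rfl fun ρ _ => ?_
      calc ∑ i, X.w ρ * X.b ρ i * X.Th Φ ρ s * Φ i s =
          (X.w ρ * X.Th Φ ρ s) * ∑ i, X.b ρ i * Φ i s := by
            rw [mul_sum]; exact sum_congr rfl fun i _ => by ring
        _ = _ := by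
          have : ∑ i, X.b ρ i * Φ i s = X.Th Φ ρ s := rfl
          rw [this]; ring
    rw [← sum_congr rfl fun s _ => h3 s, sum_comm]
  · rw [mul_sum]
    exact sum_congr rfl fun i _ => by rw [mul_sum]

/-- The sum of `w (Θ - a dg)^2`. -/
theorem shifted (a : ℝ) :
    ∑ ρ, ∑ s, X.w ρ * (X.Th Φ ρ s - a * X.dg ρ s) ^ 2 =
      ∑ ρ, ∑ s, X.w ρ * X.Th Φ ρ s ^ 2 - 2 * a * X.tau Φ + a ^ 2 * X.Mw := by
  have h1 : ∀ ρ, ∑ s, X.w ρ * (X.Th Φ ρ s - a * X.dg ρ s) ^ 2 =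
      ∑ s, X.w ρ * X.Th Φ ρ s ^ 2 - 2 * a * X.Th Φ ρ ρ +
        a ^ 2 * (if ρ ∈ X.Rd then 1 / X.w ρ else 0) := by
    intro ρ
    by_cases hρ : ρ ∈ X.Rd
    · have hw := (X.w_pos ρ).ne'
      rw [if_pos hρ]
      have h2 : ∀ s, X.w ρ * (X.Th Φ ρ s - a * X.dg ρ s) ^ 2 = X.w ρ * X.Th Φ ρ s ^ 2 +
          (if s = ρ then (- 2 * a * X.Th Φ ρ s + a ^ 2 * (1 / X.w ρ)) else 0) := by
        intro s
        unfold dg
        by_cases hs : s = ρ
        · rw [if_pos ⟨hs, hρ⟩, if_pos hs]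
          field_simp
          ring
        · rw [if_neg (fun h => hs h.1), if_neg hs]
          ring
      simp only [h2, sum_add_distrib]
      rw [sum_ite_eq' univ ρ]
      simp only [mem_univ, if_true]
      ring
    · rw [if_neg hρ]
      have h2 : ∀ s, X.w ρ * (X.Th Φ ρ s - a * X.dg ρ s) ^ 2 = X.w ρ * X.Th Φ ρ s ^ 2 := by
        intro s
        unfold dg
        rw [if_neg (fun h => hρ h.2)]
        ring
      simp only [h2]
      rw [Th_of_left hρ]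
      ring
  simp only [h1, sum_add_distrib, sum_sub_distrib]
  congr 1
  · congr 1
    unfold tau
    rw [mul_sum]
  · unfold Mw
    rw [← mul_sum, sum_ite_mem, univ_inter]

/-- The complementary energy identity: `|Ψ|_w^2 + η |Φ|^2 = M - τ`. -/
theorem energy' (hΦ : X.IsSol Φ) :
    ∑ ρ, ∑ s, X.w ρ * (X.dg ρ s - X.Th Φ ρ s) ^ 2 + X.η * ∑ i, ∑ s, Φ i s ^ 2 =
      X.Mw - X.tau Φ := by
  have h1 := shifted (X := X) (Φ := Φ) 1
  have h2 := energy hΦ
  have h3 : ∑ ρ, ∑ s, X.w ρ * (X.dg ρ s - X.Th Φ ρ s) ^ 2 =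
      ∑ ρ, ∑ s, X.w ρ * (X.Th Φ ρ s - 1 * X.dg ρ s) ^ 2 :=
    sum_congr rfl fun ρ _ => sum_congr rfl fun s _ => by ring
  rw [h3, h1]
  linarith

theorem psi_eq (hΦ : X.IsSol Φ) (i : ι) (s : Finset (Fin n)) :
    ∑ ρ, X.w ρ * X.b ρ i * (X.dg ρ s - X.Th Φ ρ s) = X.η * Φ i s := by
  have h1 := hΦ.eq i s
  have h2 : ∑ ρ, X.w ρ * X.b ρ i * X.dg ρ s = X.b s i := by
    rw [sum_eq_single s]
    · unfold dg
      by_cases hs : s ∈ X.Rd
      · rw [if_pos ⟨rfl, hs⟩]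
        have := (X.w_pos s).ne'
        field_simp
      · rw [X.b_of_notMem hs]; ring
    · intro ρ _ hρ
      unfold dg
      rw [if_neg (fun h => hρ h.1.symm), mul_zero]
    · intro h; exact absurd (mem_univ s) h
  have h3 : ∑ ρ, X.w ρ * X.b ρ i * (X.dg ρ s - X.Th Φ ρ s) =
      ∑ ρ, X.w ρ * X.b ρ i * X.dg ρ s - ∑ ρ, X.w ρ * X.b ρ i * X.Th Φ ρ s := by
    rw [← sum_sub_distrib]
    exact sum_congr rfl fun ρ _ => by ring
  rw [h3, h2]
  unfold Th
  linarith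

/-- The a priori estimate, summed. -/
theorem apriori_sum (hΦ : X.IsSol Φ) (κ : ℝ) (hκ : X.L = κ * X.η) :
    X.η * ∑ i, ∑ s, (((X.T i) \ s).card : ℝ) ^ 2 * Φ i s ^ 2 ≤
      2 * κ * (1 + κ) * (X.Mw - X.tau Φ) := by
  rw [← energy' hΦ]
  have h1 : ∀ s, X.η * ∑ i, (((X.T i) \ s).card : ℝ) ^ 2 * Φ i s ^ 2 ≤
      2 * κ * (1 + κ) * (X.η * ∑ i, Φ i s ^ 2 +
        ∑ ρ, X.w ρ * (X.dg ρ s - X.Th Φ ρ s) ^ 2) := by
    intro s
    refine X.apriori s (fun i => Φ i s) (fun ρ => X.dg ρ s - X.Th Φ ρ s) κ hκ ?_ ?_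
    · intro i
      exact psi_eq hΦ i s
    · intro ρ hρ
      unfold dg
      rw [if_neg (fun h => hρ h.1.symm)]
      unfold Th
      ring
  calc X.η * ∑ i, ∑ s, (((X.T i) \ s).card : ℝ) ^ 2 * Φ i s ^ 2
      = ∑ s, X.η * ∑ i, (((X.T i) \ s).card : ℝ) ^ 2 * Φ i s ^ 2 := by
        rw [← mul_sum, sum_comm]
    _ ≤ ∑ s, 2 * κ * (1 + κ) * (X.η * ∑ i, Φ i s ^ 2 +
        ∑ ρ, X.w ρ * (X.dg ρ s - X.Th Φ ρ s) ^ 2) := sum_le_sum fun s _ => h1 s
    _ = _ := by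
        rw [← mul_sum, sum_add_distrib, ← mul_sum, sum_comm (f := fun s i => Φ i s ^ 2),
          sum_comm (f := fun s ρ => X.w ρ * (X.dg ρ s - X.Th Φ ρ s) ^ 2)]
        ring

/-! ### The register -/

/-- the created function -/
def Fc (X : Sys n ι) (Φ : ι → Finset (Fin n) → ℝ) (i : ι) (s : Finset (Fin n)) : ℝ :=
  cr (X.T i) (Φ i) s

/-- the hopping term -/
def Gh (X : Sys n ι) (Φ : ι → Finset (Fin n) → ℝ) (ρ s : Finset (Fin n)) : ℝ :=
  ∑ i, X.b ρ i * cr ((X.T i) \ ρ) (Φ i) s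

theorem cr_split {u v : Finset (Fin n)} (h : v ⊆ u) (x : Finset (Fin n) → ℝ)
    (s : Finset (Fin n)) : cr u x s = cr v x s + cr (u \ v) x s := by
  unfold cr
  rw [← sum_union]
  · congr 1
    ext z
    simp only [mem_inter, mem_union, mem_sdiff]
    constructor
    · rintro ⟨h1, h2⟩
      by_cases h3 : z ∈ v
      · exact Or.inl ⟨h1, h3⟩
      · exact Or.inr ⟨h1, h2, h3⟩
    · rintro (⟨h1, h2⟩ | ⟨h1, h2, _⟩)
      · exact ⟨h1, h h2⟩
      · exact ⟨h1, h2⟩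
  · rw [disjoint_left]
    intro z h1 h2
    exact (mem_sdiff.mp (mem_inter.mp h2).2).2 (mem_inter.mp h1).2

theorem cr_sum (u : Finset (Fin n)) (c : ι → ℝ) (x : ι → Finset (Fin n) → ℝ)
    (s : Finset (Fin n)) : cr u (fun s => ∑ i, c i * x i s) s = ∑ i, c i * cr u (x i) s := by
  unfold cr
  simp only [mul_sum]
  rw [sum_comm]
  exact sum_congr rfl fun i _ => sum_congr rfl fun z _ => by ring

theorem b_Fc (a : ℝ) (ρ s : Finset (Fin n)) :
    ∑ i, X.b ρ i * Fc X Φ i s =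
      cr ρ (fun s => X.Th Φ ρ s - a * X.dg ρ s) s + Gh X Φ ρ s := by
  have h1 : ∀ i, X.b ρ i * Fc X Φ i s =
      X.b ρ i * cr ρ (Φ i) s + X.b ρ i * cr ((X.T i) \ ρ) (Φ i) s := by
    intro i
    by_cases hb : X.b ρ i = 0
    · rw [hb]; ring
    · obtain ⟨_, z, hz, hT, _⟩ := X.b_ne hb
      unfold Fc
      rw [cr_split (v := ρ) (by rw [hT]; exact subset_insert _ _)]
      ring
  simp only [h1, sum_add_distrib]
  unfold Gh
  congr 1
  rw [← cr_sum ρ (fun i => X.b ρ i) Φ s]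
  unfold cr
  refine sum_congr rfl fun z hz => ?_
  congr 1
  have h2 : X.dg ρ (s.erase z) = 0 := by
    unfold dg
    rw [if_neg]
    rintro ⟨h3, _⟩
    have h4 := (mem_inter.mp hz).2
    rw [← h3] at h4
    simp at h4
  simp only [h2, mul_zero, sub_zero]
  rfl

theorem Gh_sq_le (ρ s : Finset (Fin n)) :
    Gh X Φ ρ s ^ 2 ≤ ∑ z ∈ s, ((s \ ρ).card : ℝ) *
      ∑ i, X.b ρ i ^ 2 * (if z ∈ (X.T i) \ ρ then Φ i (s.erase z) ^ 2 else 0) := by
  classical
  set H : Fin n → ℝ := fun z => ∑ i, X.b ρ i * (if z ∈ (X.T i) \ ρ then Φ i (s.erase z) else 0)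
    with hH
  have h1 : Gh X Φ ρ s = ∑ z ∈ s \ ρ, sr z s * H z := by
    have h2 : Gh X Φ ρ s = ∑ z ∈ s, sr z s * H z := by
      unfold Gh cr
      simp only [hH, mul_sum]
      rw [sum_comm]
      refine sum_congr rfl fun i _ => ?_
      rw [← sum_filter_add_sum_filter_not s (fun z => z ∈ (X.T i) \ ρ)]
      have h3 : ∑ z ∈ s.filter (fun z => ¬ z ∈ (X.T i) \ ρ),
          sr z s * (X.b ρ i * if z ∈ (X.T i) \ ρ then Φ i (s.erase z) else 0) = 0 := by
        refine sum_eq_zero fun z hz => ?_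
        rw [if_neg (mem_filter.mp hz).2]; ring
      rw [h3, add_zero]
      have h4 : s ∩ ((X.T i) \ ρ) = s.filter (fun z => z ∈ (X.T i) \ ρ) := by
        ext z; simp
      rw [h4]
      refine sum_congr rfl fun z hz => ?_
      rw [if_pos (mem_filter.mp hz).2]; ring
    rw [h2]
    symm
    refine sum_subset sdiff_subset fun z hz hz' => ?_
    have h5 : H z = 0 := by
      simp only [hH]
      refine sum_eq_zero fun i _ => ?_
      rw [if_neg, mul_zero]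
      intro h6
      exact hz' (mem_sdiff.mpr ⟨hz, (mem_sdiff.mp h6).2⟩)
    rw [h5, mul_zero]
  have h2 : ∀ z, H z ^ 2 =
      ∑ i, X.b ρ i ^ 2 * (if z ∈ (X.T i) \ ρ then Φ i (s.erase z) ^ 2 else 0) := by
    intro z
    have h3 : H z ^ 2 = ∑ i, ∑ j, (X.b ρ i * (if z ∈ (X.T i) \ ρ then Φ i (s.erase z) else 0)) *
        (X.b ρ j * (if z ∈ (X.T j) \ ρ then Φ j (s.erase z) else 0)) := by
      simp only [hH]
      rw [sq, sum_mul_sum]
    rw [h3]
    refine sum_congr rfl fun i _ => ?_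
    rw [sum_eq_single i]
    · split_ifs <;> ring
    · intro j _ hji
      by_contra hc
      have c1 := left_ne_zero_of_mul hc
      have c2 := right_ne_zero_of_mul hc
      have d1 := left_ne_zero_of_mul c1
      have d2 := right_ne_zero_of_mul c1
      have d3 := left_ne_zero_of_mul c2
      have d4 := right_ne_zero_of_mul c2
      have e1 : z ∈ (X.T i) \ ρ := by
        by_contra h; rw [if_neg h] at d2; exact d2 rfl
      have e2 : z ∈ (X.T j) \ ρ := by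
        by_contra h; rw [if_neg h] at d4; exact d4 rfl
      obtain ⟨_, y, hy, hT, _⟩ := X.b_ne d1
      obtain ⟨_, y', hy', hT', _⟩ := X.b_ne d3
      have f1 : z = y := by
        rw [hT] at e1
        have := mem_sdiff.mp e1
        rcases mem_insert.mp this.1 with h | h
        · exact h
        · exact absurd h this.2
      have f2 : z = y' := by
        rw [hT'] at e2
        have := mem_sdiff.mp e2
        rcases mem_insert.mp this.1 with h | h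
        · exact h
        · exact absurd h this.2
      apply hji
      apply X.T_inj
      rw [hT, hT', ← f1, ← f2]
    · intro h; exact absurd (mem_univ i) h
  rw [h1]
  have h5 : (∑ z ∈ s \ ρ, sr z s * H z) ^ 2 ≤ ((s \ ρ).card : ℝ) * ∑ z ∈ s \ ρ, H z ^ 2 := by
    have h6 := sum_mul_sq_le_sq_mul_sq (s \ ρ) (fun z => sr z s) H
    have h7 : ∑ z ∈ s \ ρ, sr z s ^ 2 = ((s \ ρ).card : ℝ) := by
      rw [sum_congr rfl fun z _ => sr_sq' z s]
      simp
    rw [h7] at h6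
    exact h6
  refine h5.trans ?_
  rw [mul_sum]
  have h8 : ∑ z ∈ s \ ρ, ((s \ ρ).card : ℝ) * H z ^ 2 ≤ ∑ z ∈ s, ((s \ ρ).card : ℝ) * H z ^ 2 := by
    refine sum_le_sum_of_subset_of_nonneg sdiff_subset fun z _ _ => ?_
    positivity
  refine h8.trans (le_of_eq ?_)
  exact sum_congr rfl fun z _ => by rw [h2]

theorem Gh_bound (hΦ : X.IsSol Φ) :
    ∑ ρ, ∑ s, X.w ρ * Gh X Φ ρ s ^ 2 ≤
      ∑ i, ∑ s, (((X.T i) \ s).card : ℝ) ^ 2 * Φ i s ^ 2 := by
  classical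
  -- drop the weight and insert the pointwise bound
  have h1 : ∀ ρ, ∑ s, X.w ρ * Gh X Φ ρ s ^ 2 ≤
      ∑ i, ∑ s, X.chi s ρ i * (((X.T i) \ s).card : ℝ) * Φ i s ^ 2 := by
    intro ρ
    have h2 : ∑ s, X.w ρ * Gh X Φ ρ s ^ 2 ≤ ∑ s : Finset (Fin n), ∑ z ∈ s, ((s \ ρ).card : ℝ) *
      ∑ i, X.b ρ i ^ 2 * (if z ∈ (X.T i) \ ρ then Φ i (s.erase z) ^ 2 else 0) := by
      refine sum_le_sum fun s _ => ?_
      refine le_trans ?_ (Gh_sq_le ρ s)
      have := X.w_le ρ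
      nlinarith [sq_nonneg (Gh X Φ ρ s)]
    refine h2.trans ?_
    have h3 : ∑ s : Finset (Fin n), ∑ z ∈ s, ((s \ ρ).card : ℝ) *
      ∑ i, X.b ρ i ^ 2 * (if z ∈ (X.T i) \ ρ then Φ i (s.erase z) ^ 2 else 0) =
      ∑ s : Finset (Fin n), ∑ z ∈ sᶜ, (((insert z s) \ ρ).card : ℝ) *
      ∑ i, X.b ρ i ^ 2 * (if z ∈ (X.T i) \ ρ then Φ i s ^ 2 else 0) := by
      rw [← sum_erase_swap (fun s z => (((insert z s) \ ρ).card : ℝ) *
        ∑ i, X.b ρ i ^ 2 * (if z ∈ (X.T i) \ ρ then Φ i s ^ 2 else 0))]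
      refine sum_congr rfl fun s _ => sum_congr rfl fun z hz => ?_
      rw [insert_erase hz]
    rw [h3, sum_comm (f := fun i s => X.chi s ρ i * (((X.T i) \ s).card : ℝ) * Φ i s ^ 2)]
    refine sum_le_sum fun s _ => ?_
    simp only [mul_sum]
    rw [sum_comm]
    refine sum_le_sum fun i _ => ?_
    by_cases hb : X.b ρ i = 0
    · rw [hb]
      have h4 := X.chi_nonneg s ρ i
      have h5 : 0 ≤ X.chi s ρ i * (((X.T i) \ s).card : ℝ) * Φ i s ^ 2 := by positivity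
      refine le_trans (le_of_eq ?_) h5
      exact sum_eq_zero fun z _ => by ring
    · by_cases hs : s ∈ X.Rd
      · obtain ⟨hρ, y, hy, hT, hby⟩ := X.b_ne hb
        have hTd : (X.T i) \ ρ = {y} := by
          rw [hT]
          ext x
          simp only [mem_sdiff, mem_insert, mem_singleton]
          constructor
          · rintro ⟨rfl | h1, h2⟩
            · rfl
            · exact absurd h1 h2
          · rintro rfl
            exact ⟨Or.inl rfl, hy⟩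
        have hb2 : X.b ρ i ^ 2 = 1 := by rw [hby, sr_sq']
        rw [hTd, hb2]
        by_cases hys : y ∈ s
        · refine le_trans (le_of_eq ?_) (by
            have h4 := X.chi_nonneg s ρ i
            positivity : 0 ≤ X.chi s ρ i * (((X.T i) \ s).card : ℝ) * Φ i s ^ 2)
          refine sum_eq_zero fun z hz => ?_
          rw [if_neg]
          · ring
          · rw [mem_singleton]
            rintro rfl
            exact (mem_compl.mp hz) hys
        · have hchi : X.chi s ρ i = 1 := by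
            unfold chi
            rw [if_pos]
            exact ⟨hb, by rw [hTd]; simpa using hys⟩
          rw [hchi, sum_eq_single y]
          · rw [if_pos (mem_singleton_self y), one_mul, one_mul]
            have hcard : ((insert y s) \ ρ).card = ((X.T i) \ s).card := by
              rw [hT, insert_sdiff_of_notMem _ hy, insert_sdiff_of_notMem _ hys,
                card_insert_of_notMem (by simp [hys]), card_insert_of_notMem (by simp [hy])]
              have c1 := card_sdiff_add_card_inter s ρ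
              have c2 := card_sdiff_add_card_inter ρ s
              rw [inter_comm] at c2
              have c3 := X.Rd_card s hs
              have c4 := X.Rd_card ρ hρ
              omega
            rw [hcard]
          · intro z _ hz
            rw [if_neg (by simpa using hz)]
            ring
          · intro h
            exact absurd (mem_compl.mpr hys) h
      · have h6 : Φ i s = 0 := hΦ.supp i s hs
        rw [h6]
        simp
  have h2 : ∀ i s, ∑ ρ, X.chi s ρ i * (((X.T i) \ s).card : ℝ) * Φ i s ^ 2 ≤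
      (((X.T i) \ s).card : ℝ) ^ 2 * Φ i s ^ 2 := by
    intro i s
    rw [← sum_mul, ← sum_mul]
    have h3 := X.sum_chi_le s i
    have h4 : 0 ≤ (((X.T i) \ s).card : ℝ) * Φ i s ^ 2 := by positivity
    calc _ = (∑ ρ, X.chi s ρ i) * ((((X.T i) \ s).card : ℝ) * Φ i s ^ 2) := by ring
      _ ≤ (((X.T i) \ s).card : ℝ) * ((((X.T i) \ s).card : ℝ) * Φ i s ^ 2) :=
        mul_le_mul_of_nonneg_right h3 h4
      _ = _ := by ring
  calc ∑ ρ, ∑ s, X.w ρ * Gh X Φ ρ s ^ 2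
      ≤ ∑ ρ, ∑ i, ∑ s, X.chi s ρ i * (((X.T i) \ s).card : ℝ) * Φ i s ^ 2 :=
        sum_le_sum fun ρ _ => h1 ρ
    _ = ∑ i, ∑ s, ∑ ρ, X.chi s ρ i * (((X.T i) \ s).card : ℝ) * Φ i s ^ 2 := by
        rw [sum_comm]
        exact sum_congr rfl fun i _ => sum_comm
    _ ≤ _ := sum_le_sum fun i _ => sum_le_sum fun s _ => h2 i s

/-- the energy of the created function -/
def EF (X : Sys n ι) (Φ : ι → Finset (Fin n) → ℝ) : ℝ :=
  ∑ ρ, ∑ s, X.w ρ * (∑ i, X.b ρ i * Fc X Φ i s) ^ 2 + X.η * ∑ i, ∑ s, Fc X Φ i s ^ 2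

theorem EF_le (hΦ : X.IsSol Φ) (a ε : ℝ) (hε : 0 < ε) :
    (1 - ε) * EF X Φ ≤ (X.k + 1) * (X.tau Φ - 2 * a * X.tau Φ + a ^ 2 * X.Mw) +
      1 / ε * ∑ i, ∑ s, (((X.T i) \ s).card : ℝ) ^ 2 * Φ i s ^ 2 := by
  have hk : (0 : ℝ) ≤ X.k := Nat.cast_nonneg _
  -- norm of the created function
  have h1 : ∑ i, ∑ s, Fc X Φ i s ^ 2 ≤ (X.k + 1) * ∑ i, ∑ s, Φ i s ^ 2 := by
    rw [mul_sum]
    refine sum_le_sum fun i _ => ?_
    have h2 := cr_norm (X.T i) (Φ i) X.k (fun s hs => hΦ.supp i s fun hm => hs (X.Rd_card s hm))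
    rw [X.T_card i] at h2
    push_cast at h2
    exact h2
  have h2 : ∑ ρ, ∑ s, X.w ρ * (cr ρ (fun s => X.Th Φ ρ s - a * X.dg ρ s) s) ^ 2 ≤
      (X.k + 1) * ∑ ρ, ∑ s, X.w ρ * (X.Th Φ ρ s - a * X.dg ρ s) ^ 2 := by
    rw [mul_sum]
    refine sum_le_sum fun ρ _ => ?_
    rw [← mul_sum, ← mul_sum]
    have hw := X.w_pos ρ
    by_cases hρ : ρ ∈ X.Rd
    · have h3 := cr_norm ρ (fun s => X.Th Φ ρ s - a * X.dg ρ s) X.k (by
        intro s hs
        have h4 : s ∉ X.Rd := fun hm => hs (X.Rd_card s hm)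
        have h5 : X.dg ρ s = 0 := by
          unfold dg
          rw [if_neg]
          rintro ⟨rfl, h6⟩
          exact h4 h6
        simp only [Th_of_right hΦ h4, h5]
        ring)
      rw [X.Rd_card ρ hρ] at h3
      have h6 : 0 ≤ ∑ s, (X.Th Φ ρ s - a * X.dg ρ s) ^ 2 := sum_nonneg fun s _ => sq_nonneg _
      calc X.w ρ * ∑ s, (cr ρ (fun s => X.Th Φ ρ s - a * X.dg ρ s) s) ^ 2
          ≤ X.w ρ * (X.k * ∑ s, (X.Th Φ ρ s - a * X.dg ρ s) ^ 2) :=
            mul_le_mul_of_nonneg_left h3 hw.le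
        _ ≤ _ := by nlinarith [mul_nonneg hw.le h6]
    · have h3 : ∀ s, cr ρ (fun s => X.Th Φ ρ s - a * X.dg ρ s) s = 0 := by
        intro s
        unfold cr
        refine sum_eq_zero fun z _ => ?_
        have h5 : X.dg ρ (s.erase z) = 0 := by
          unfold dg
          rw [if_neg (fun h => hρ h.2)]
        simp only [Th_of_left hρ, h5]
        ring
      simp only [h3]
      have : 0 ≤ ∑ s, (X.Th Φ ρ s - a * X.dg ρ s) ^ 2 := sum_nonneg fun s _ => sq_nonneg _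
      have h7 : 0 ≤ (X.k + 1) * (X.w ρ * ∑ s, (X.Th Φ ρ s - a * X.dg ρ s) ^ 2) := by positivity
      simpa using h7
  rw [shifted] at h2
  have h3 : (1 - ε) * ∑ ρ, ∑ s, X.w ρ * (∑ i, X.b ρ i * Fc X Φ i s) ^ 2 ≤
      ∑ ρ, ∑ s, X.w ρ * (cr ρ (fun s => X.Th Φ ρ s - a * X.dg ρ s) s) ^ 2 +
      1 / ε * ∑ ρ, ∑ s, X.w ρ * Gh X Φ ρ s ^ 2 := by
    rw [mul_sum, mul_sum, ← sum_add_distrib]
    refine sum_le_sum fun ρ _ => ?_
    rw [mul_sum, mul_sum, ← sum_add_distrib]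
    refine sum_le_sum fun s _ => ?_
    rw [b_Fc a ρ s]
    set x := cr ρ (fun s => X.Th Φ ρ s - a * X.dg ρ s) s
    set y := Gh X Φ ρ s
    have hw := X.w_pos ρ
    have h4 : (1 - ε) * (x + y) ^ 2 ≤ x ^ 2 + 1 / ε * y ^ 2 := by
      have h5 : x ^ 2 + 1 / ε * y ^ 2 - (1 - ε) * (x + y) ^ 2 =
          (ε * x - (1 - ε) * y) ^ 2 / ε + y ^ 2 := by
        field_simp
        ring
      have h6 : 0 ≤ (ε * x - (1 - ε) * y) ^ 2 / ε := by positivity
      nlinarith [sq_nonneg y]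
    have h7 := mul_le_mul_of_nonneg_left h4 hw.le
    linarith
  have h4 := Gh_bound hΦ
  have h5 := energy hΦ
  have h6 : 0 ≤ ∑ i, ∑ s, Fc X Φ i s ^ 2 :=
    sum_nonneg fun i _ => sum_nonneg fun s _ => sq_nonneg _
  have hη := X.η_pos
  unfold EF
  have h7 : 1 / ε * ∑ ρ, ∑ s, X.w ρ * Gh X Φ ρ s ^ 2 ≤
      1 / ε * ∑ i, ∑ s, (((X.T i) \ s).card : ℝ) ^ 2 * Φ i s ^ 2 :=
    mul_le_mul_of_nonneg_left h4 (by positivity)
  have h8 : (1 - ε) * (X.η * ∑ i, ∑ s, Fc X Φ i s ^ 2) ≤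
      X.η * ((X.k + 1) * ∑ i, ∑ s, Φ i s ^ 2) := by
    have h9 : X.η * ∑ i, ∑ s, Fc X Φ i s ^ 2 ≤ X.η * ((X.k + 1) * ∑ i, ∑ s, Φ i s ^ 2) :=
      mul_le_mul_of_nonneg_left h1 hη.le
    have h10 : 0 ≤ X.η * ∑ i, ∑ s, Fc X Φ i s ^ 2 := mul_nonneg hη.le h6
    nlinarith
  calc _ = (1 - ε) * ∑ ρ, ∑ s, X.w ρ * (∑ i, X.b ρ i * Fc X Φ i s) ^ 2 +
      (1 - ε) * (X.η * ∑ i, ∑ s, Fc X Φ i s ^ 2) := by ring
    _ ≤ (X.k + 1) * (∑ ρ, ∑ s, X.w ρ * X.Th Φ ρ s ^ 2 - 2 * a * X.tau Φ + a ^ 2 * X.Mw) +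
      1 / ε * ∑ i, ∑ s, (((X.T i) \ s).card : ℝ) ^ 2 * Φ i s ^ 2 +
      X.η * ((X.k + 1) * ∑ i, ∑ s, Φ i s ^ 2) := by linarith
    _ = _ := by rw [← h5]; ring

/-- the diagonal of the created function has sum `τ` -/
theorem sum_Fc (hΦ : X.IsSol Φ) : ∑ i, Fc X Φ i (X.T i) = X.tau Φ := by
  unfold tau Th
  rw [sum_comm]
  refine sum_congr rfl fun i _ => ?_
  unfold Fc cr
  rw [inter_self]
  have h1 : ∑ ρ, X.b ρ i * Φ i ρ = ∑ ρ ∈ (X.T i).image (fun z => (X.T i).erase z),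
      X.b ρ i * Φ i ρ := by
    symm
    refine sum_subset (subset_univ _) fun ρ _ hρ => ?_
    by_contra hc
    obtain ⟨_, z, hz, hT, _⟩ := X.b_ne (left_ne_zero_of_mul hc)
    apply hρ
    rw [mem_image]
    refine ⟨z, ?_, ?_⟩
    · rw [hT]; exact mem_insert_self _ _
    · rw [hT, erase_insert hz]
  rw [h1, sum_image]
  · refine sum_congr rfl fun z hz => ?_
    by_cases hm : (X.T i).erase z ∈ X.Rd
    · congr 1
      unfold b sr
      rw [if_pos hm]
      have h2 : inc ((X.T i).erase z) (X.T i) = sg z ((X.T i).erase z) := by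
        conv_lhs => rw [← insert_erase hz]
        rw [erase_insert_eq_erase, erase_idem]
        exact inc_insert (by simp)
      rw [h2]
      have h3 := sg_insert (v := z) (notMem_erase z (X.T i))
      rw [insert_erase hz, if_neg (lt_irrefl z), one_mul] at h3
      rw [h3]
    · rw [hΦ.supp i _ hm]; ring
  · intro a ha c hc hac
    by_contra hne
    have hac' : (X.T i).erase a = (X.T i).erase c := hac
    have : a ∈ (X.T i).erase c := mem_erase.mpr ⟨hne, ha⟩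
    rw [← hac'] at this
    simp at this

end Sys

end Pool.Agent.Lib.MP_9701dc_gt.DD
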