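import Pool.Agent.Lib.MP_9701dc_gt.DD.Assemble2

set_option autoImplicit false

/-!
# The sharp determinant bound for all `n` (module W7b)
-/

namespace Pool.Agent.Lib.MP_9701dc_gt.DD

open Finset Matrix Pool.Agent.Lib.MP_9701dc_gt.GR

theorem card_rows2 (n k : ℕ) (v : Fin n) : (rows n k v).card = (n - 1).choose k := by
  have : rows n k v = (univ.erase v).powersetCard k := by
    ext σ
    rw [mem_rows, mem_powersetCard]
    constructor
    · rintro ⟨h1, h2⟩
      exact ⟨fun x hx => mem_erase.mpr ⟨fun h => h2 (h ▸ hx), mem_univ _⟩, h1⟩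
    · rintro ⟨h1, h2⟩
      exact ⟨h2, fun h => (mem_erase.mp (h1 h)).1 rfl⟩
  rw [this, card_powersetCard, card_erase_of_mem (mem_univ _), card_univ, Fintype.card_fin]

/-- an elementary bound -/
theorem mul_log_ge {q : ℝ} (hq : 0 < q) : - (2 * Real.sqrt q) ≤ q * Real.log q := by
  have hs : 0 < Real.sqrt q := Real.sqrt_pos.mpr hq
  have h1 : Real.log (1 / Real.sqrt q) ≤ 1 / Real.sqrt q := by
    have := Real.log_le_sub_one_of_pos (one_div_pos.mpr hs)
    linarith
  have h2 : Real.log q = 2 * Real.log (Real.sqrt q) := by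
    rw [Real.log_sqrt hq.le]; ring
  rw [one_div, Real.log_inv] at h1
  have h3 : q = Real.sqrt q * Real.sqrt q := (Real.mul_self_sqrt hq.le).symm
  have h4 : q * (Real.sqrt q)⁻¹ = Real.sqrt q := by
    nth_rewrite 1 [h3]
    field_simp
  have h5 : -(q * (Real.sqrt q)⁻¹) ≤ q * Real.log (Real.sqrt q) := by
    have := mul_le_mul_of_nonneg_left (neg_le_neg h1) hq.le
    rw [neg_neg] at this
    linarith
  rw [h2]
  rw [h4] at h5
  linarith

/-- the quantity `(q/p) log q`, with `p = (k+1)/n`, `q = 1 - p` -/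
noncomputable def wc (n k : ℕ) : ℝ :=
  (1 - ((k : ℝ) + 1) / n) / (((k : ℝ) + 1) / n) * Real.log (1 - ((k : ℝ) + 1) / n)

/-- The main case: `q₀ ≤ 1 - (k+1)/n`. -/
theorem det_main (ε q₀ : ℝ) (hε : 0 < ε) (hq₀ : 0 < q₀) : ∃ k₀ : ℕ, ∀ k ≥ k₀, ∀ (n : ℕ),
    q₀ ≤ 1 - ((k : ℝ) + 1) / n → ∀ (v : Fin n)
    (T : Row n k v → Finset (Fin n)), Function.Injective T → (∀ i, (T i).card = k + 1) →
      0 < ((Bf T)ᵀ * Bf T).det → Real.log ((Bf T)ᵀ * Bf T).det ≤
        (Fintype.card (Row n k v)) * (Real.log (k + 1) + wc n k + ε) := by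
  obtain ⟨h₀, H, θ, h0, hH, hθ, hθ1, hcmp⟩ := wachter_compare (ε / 2) (by linarith)
  obtain ⟨K, D₀, hK, hKε, hpar⟩ := params2 h₀ H θ q₀ (ε / 2) h0 hH hθ hθ1 hq₀ (by linarith)
  refine ⟨⌈D₀⌉₊, fun k hk n hqn v T hT hc hdet => ?_⟩
  rcases isEmpty_or_nonempty (Row n k v) with hemp | hne
  · rw [det_isEmpty, Real.log_one, Fintype.card_eq_zero, Nat.cast_zero, zero_mul]
  have hD : (0 : ℝ) < (k : ℝ) + 1 := by positivity
  have hDD : D₀ ≤ (k : ℝ) + 1 := by
    have h1 : D₀ ≤ ⌈D₀⌉₊ := Nat.le_ceil _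
    have h2 : ((⌈D₀⌉₊ : ℕ) : ℝ) ≤ k := by exact_mod_cast hk
    linarith
  have hnpos : (0 : ℝ) < n := by
    have : 0 < n := lt_of_le_of_lt (Nat.zero_le _) v.isLt
    exact_mod_cast this
  have hkn : (k : ℝ) + 1 < n := by
    have h1 : ((k : ℝ) + 1) / n < 1 := by linarith
    rwa [div_lt_one hnpos] at h1
  have hkn' : k + 1 ≤ n := by
    have : k + 1 < n := by exact_mod_cast hkn
    omega
  have hKpos : 0 < K := by linarith
  have hL : 0 < K * ((k : ℝ) + 1) := by positivity
  set N : ℝ := (Fintype.card (Row n k v) : ℝ) with hN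
  have hNpos : 0 < N := by
    rw [hN]
    exact_mod_cast Fintype.card_pos
  have hNc : N = (((n - 1).choose k : ℕ) : ℝ) := by
    rw [hN, Fintype.card_coe, card_rows2]
  -- the systems
  set X : (h : ℝ) → 0 < h → Sys n (Row n k v) := fun h hh =>
    mkSys2 k T hT hc (K * (k + 1)) ((k + 1) * h) hL (by positivity) with hX
  set γ : Row n k v → ℝ := (X h₀ h0).ev with hγ
  have hev : ∀ h (hh : 0 < h), (X h hh).ev = γ := fun h hh => rfl
  have hγ0 : ∀ i, 0 ≤ γ i := fun i => (X h₀ h0).ev_nonneg i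
  have hγs : ∑ i, γ i ≤ (k + 1) * N := (X h₀ h0).sum_ev_le
  have hw : ∀ ρ, 0 < wt2 k T (K * (k + 1)) ρ := fun ρ => wt2_pos k T hL ρ
  have hw1 : ∀ ρ, wt2 k T (K * (k + 1)) ρ ≤ 1 := fun ρ => wt2_le k T hL ρ
  have hGw : (X h₀ h0).G = (Bf T)ᵀ * diagonal (wt2 k T (K * (k + 1))) * Bf T := by
    ext i j
    rw [Sys.G_apply, mul_apply]
    refine sum_congr rfl fun ρ _ => ?_
    rw [mul_diagonal, transpose_apply]
    simp only [hX, b_full]
    change wt2 k T (K * (k + 1)) ρ * (inc ρ (T i) : ℝ) * (inc ρ (T j) : ℝ) =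
      (inc ρ (T i) : ℝ) * wt2 k T (K * (k + 1)) ρ * (inc ρ (T j) : ℝ)
    ring
  -- M
  set M : ℝ := ((n.choose k : ℕ) : ℝ) with hM
  have hMN : M * ((n : ℝ) - ((k : ℝ) + 1) + 1) = N * n := by
    obtain ⟨m, hm⟩ : ∃ m, n = m + 1 := ⟨n - 1, by omega⟩
    have h1 := Nat.choose_mul_succ_eq m k
    rw [hM, hNc, hm, Nat.add_sub_cancel]
    have h2 : ((m + 1 - k : ℕ) : ℝ) = (m : ℝ) + 1 - k := by
      rw [Nat.cast_sub (by omega)]; push_cast; ring
    have h3 := congrArg (Nat.cast : ℕ → ℝ) h1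
    push_cast at h3
    rw [h2] at h3
    push_cast
    linarith
  have hMw : ∀ h (hh : 0 < h), (X h hh).Mw = ∑ σ ∈ allR n k, 1 / wt2 k T (K * (k + 1)) σ :=
    fun h hh => rfl
  have hsub := sum_inv_wt2_sub_le k T hc hKpos
  rw [← hN] at hsub
  have hMcard : M = ∑ _σ ∈ allR n k, (1 : ℝ) := by
    rw [sum_const, nsmul_eq_mul, mul_one, card_allR]
  have hMge : M ≤ ∑ σ ∈ allR n k, 1 / wt2 k T (K * (k + 1)) σ := by
    rw [hMcard]
    refine sum_le_sum fun σ _ => ?_
    rw [le_div_iff₀ (hw σ), one_mul]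
    exact hw1 σ
  have hMle : ∑ σ ∈ allR n k, 1 / wt2 k T (K * (k + 1)) σ ≤ M + N / K := by
    rw [sum_sub_distrib, ← hMcard] at hsub
    linarith
  have hMpos : 0 < M := by
    have h1 : 0 < (n : ℝ) - ((k : ℝ) + 1) + 1 := by linarith
    by_contra hcon
    push Not at hcon
    have h2 : 0 < N * n := by positivity
    rw [← hMN] at h2
    have := mul_nonpos_of_nonpos_of_nonneg hcon h1.le
    linarith
  set p : ℝ := ((k : ℝ) + 1) / n with hp
  have hppos : 0 < p := by positivity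
  have hqpos : 0 < 1 - p := by linarith
  -- the hypothesis of the comparison
  have hmain : ∑ i, Real.log (h₀ + γ i / (k + 1)) ≤ ((1 - p) / p * Real.log (1 - p) + ε / 2) * N := by
    refine hcmp p (1 - p) hppos hqpos (by ring) (Row n k v) (fun i => γ i / (k + 1))
      (fun i => div_nonneg (hγ0 i) hD.le) ?_ ?_
    · rw [← sum_div, div_le_iff₀ hD]
      linarith
    · intro h hh0 hhH
      have hh : 0 < h := lt_of_lt_of_le h0 hh0
      have hS : (X h hh).S = ∑ i, 1 / ((k + 1) * h + γ i) := by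
        rw [(X h hh).S_eq, hev h hh]
        rfl
      have hgs : gs (fun i => γ i / ((k : ℝ) + 1)) h = ((k : ℝ) + 1) * (X h hh).S / N := by
        unfold gs
        rw [hS, mul_sum]
        congr 1
        refine sum_congr rfl fun i _ => ?_
        have h1 := hγ0 i
        have h2 : (0 : ℝ) < ((k : ℝ) + 1) * h + γ i := by positivity
        have h3 : h + γ i / ((k : ℝ) + 1) = (((k : ℝ) + 1) * h + γ i) / ((k : ℝ) + 1) := by
          field_simp
        rw [h3, one_div_div]
        field_simp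
      rw [hgs]
      have hSpos : 0 < (X h hh).S := by
        rw [hS]
        refine sum_pos (fun i _ => ?_) univ_nonempty
        have h1 := hγ0 i
        positivity
      have hSle : (X h hh).S ≤ N / (((k : ℝ) + 1) * h) := by
        rw [hS]
        calc ∑ i, 1 / (((k : ℝ) + 1) * h + γ i) ≤ ∑ _i : Row n k v, 1 / (((k : ℝ) + 1) * h) := by
              refine sum_le_sum fun i _ => ?_
              have h1 := hγ0 i
              apply one_div_le_one_div_of_le (by positivity)
              linarith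
          _ = _ := by
              rw [sum_const, nsmul_eq_mul, card_univ, ← hN]
              ring
      have hLκ : (X h hh).L = K / h * (X h hh).η := by
        change K * ((k : ℝ) + 1) = K / h * (((k : ℝ) + 1) * h)
        field_simp
      have hMwpos : 0 < (X h hh).Mw := by
        rw [hMw h hh]; linarith
      refine hpar ((k : ℝ) + 1) n N M (X h hh).Mw (X h hh).S ((X h hh).tau (X h hh).Ph) h hDD
        (by
          have : (0 : ℝ) ≤ k := Nat.cast_nonneg _
          linarith) hkn.le hqn hNpos hMN ?_ ?_ hh0 hhH hSpos ?_ ?_ ?_ (X h hh).tau_le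
        (X h hh).tau_nonneg ?_
      · rw [hMw h hh]; exact hMge
      · rw [hMw h hh]; exact hMle
      · rw [le_div_iff₀ (by positivity)] at hSle
        rw [← mul_div_assoc, div_le_one hNpos]
        linarith
      · have := (X h hh).tau_ge
        exact this
      · have := (X h hh).tau_le'
        refine this.trans ?_
        refine add_le_add ?_ hsub
        exact le_refl _
      · intro β e he he1
        have := (X h hh).key2 (K / h) e β hLκ he he1 hMwpos hkn'
          ((X h hh).Ph_cyc fun ρ hρ => mem_allR.mpr hρ)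
        have e1 : (n : ℝ) - ((k : ℝ) + 1) + 1 = (n : ℝ) - k := by ring
        have e2 : ((k : ℝ) + 1) - 1 = k := by ring
        rw [e1, e2]
        exact this
  -- determinants
  have hprodw : 0 < ∏ ρ, wt2 k T (K * (k + 1)) ρ := prod_pos fun ρ _ => hw ρ
  have hη0 : 0 < ((k : ℝ) + 1) * h₀ := by positivity
  have hdw := det_weights (Bf T) (wt2 k T (K * (k + 1))) hw hw1 (((k : ℝ) + 1) * h₀) hη0
  rw [← hGw] at hdw
  have hMdet : ((X h₀ h0).G + (((k : ℝ) + 1) * h₀) • (1 : Matrix (Row n k v) (Row n k v) ℝ)).det =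
      ∏ i, (((k : ℝ) + 1) * h₀ + γ i) := by
    obtain ⟨U, h1, h2, hU⟩ := spectral_real (X h₀ h0).G (X h₀ h0).G_symm
    have e1 : diagonal (fun i => ((k : ℝ) + 1) * h₀ + γ i) =
        (((k : ℝ) + 1) * h₀) • (1 : Matrix (Row n k v) (Row n k v) ℝ) +
          diagonal (X h₀ h0).G_symm.eigenvalues := by
      ext i j
      by_cases h : i = j
      · subst h
        simp [hγ, Sys.ev]
      · simp [h]
    have e2 : (X h₀ h0).G + (((k : ℝ) + 1) * h₀) • (1 : Matrix (Row n k v) (Row n k v) ℝ) =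
        U * diagonal (fun i => ((k : ℝ) + 1) * h₀ + γ i) * Uᵀ := by
      rw [e1, Matrix.mul_add, Matrix.add_mul, ← hU, mul_smul_comm, mul_one, smul_mul_assoc, h1,
        add_comm]
    rw [e2, det_mul, det_mul, det_diagonal]
    have h3 : U.det * Uᵀ.det = 1 := by
      rw [← det_mul, h1, det_one]
    calc U.det * (∏ i, (((k : ℝ) + 1) * h₀ + γ i)) * Uᵀ.det =
        (U.det * Uᵀ.det) * ∏ i, (((k : ℝ) + 1) * h₀ + γ i) := by ring
      _ = _ := by rw [h3, one_mul]
  have hlog1 : Real.log ((Bf T)ᵀ * Bf T).det + ∑ ρ, Real.log (wt2 k T (K * (k + 1)) ρ) ≤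
      N * Real.log (k + 1) + ∑ i, Real.log (h₀ + γ i / (k + 1)) := by
    have h1 := Real.log_le_log (mul_pos hprodw hdet) hdw
    rw [Real.log_mul hprodw.ne' hdet.ne', Real.log_prod (fun ρ _ => (hw ρ).ne'), hMdet,
      Real.log_prod (fun i _ => by
        have := hγ0 i
        positivity)] at h1
    have h2 : ∀ i, Real.log (((k : ℝ) + 1) * h₀ + γ i) =
        Real.log (k + 1) + Real.log (h₀ + γ i / (k + 1)) := by
      intro i
      have := hγ0 i
      rw [← Real.log_mul hD.ne' (by positivity)]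
      congr 1
      field_simp
    rw [sum_congr rfl fun i _ => h2 i, sum_add_distrib, sum_const, nsmul_eq_mul, card_univ,
      ← hN] at h1
    linarith
  have hlog2 : - ∑ ρ, Real.log (wt2 k T (K * (k + 1)) ρ) ≤ ε / 2 * N := by
    have h1 : ∑ ρ, Real.log (wt2 k T (K * (k + 1)) ρ) =
        ∑ ρ ∈ allR n k, Real.log (wt2 k T (K * (k + 1)) ρ) := by
      symm
      refine sum_subset (subset_univ _) fun ρ _ hρ => ?_
      unfold wt2
      rw [if_neg (fun h => hρ (mem_allR.mpr h)), Real.log_one]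
    rw [h1, ← sum_neg_distrib]
    calc ∑ σ ∈ allR n k, - Real.log (wt2 k T (K * (k + 1)) σ)
        ≤ ∑ σ ∈ allR n k, (1 / wt2 k T (K * (k + 1)) σ - 1) := by
          refine sum_le_sum fun σ _ => ?_
          rw [← Real.log_inv, ← one_div]
          exact Real.log_le_sub_one_of_pos (one_div_pos.mpr (hw σ))
      _ ≤ N / K := hsub
      _ = 1 / K * N := by ring
      _ ≤ _ := mul_le_mul_of_nonneg_right hKε hNpos.le
  have hwc : wc n k = (1 - p) / p * Real.log (1 - p) := rfl
  rw [hwc]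
  linarith

/-- **Sharp bound for the Gram determinant, all `n`.** -/
theorem det_sharp2 (ε : ℝ) (hε : 0 < ε) : ∃ k₀ : ℕ, ∀ k ≥ k₀, ∀ (n : ℕ) (v : Fin n)
    (T : Row n k v → Finset (Fin n)), k + 1 ≤ n → Function.Injective T →
    (∀ i, (T i).card = k + 1) → 0 < ((Bf T)ᵀ * Bf T).det →
      Real.log ((Bf T)ᵀ * Bf T).det ≤
        (Fintype.card (Row n k v)) * (Real.log (k + 1) + wc n k + ε) := by
  set q₀ : ℝ := min (1 / 2) ((ε / 4) ^ 2) with hq₀
  have hq₀pos : 0 < q₀ := lt_min (by norm_num) (by positivity)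
  obtain ⟨k₀, hk₀⟩ := det_main ε q₀ hε hq₀pos
  refine ⟨k₀, fun k hk n v T hkn hT hc hdet => ?_⟩
  rcases le_or_gt q₀ (1 - ((k : ℝ) + 1) / n) with hcase | hcase
  · exact hk₀ k hk n hcase v T hT hc hdet
  · refine (log_det_gram_le k T hT hc hdet).trans ?_
    refine mul_le_mul_of_nonneg_left ?_ (Nat.cast_nonneg _)
    have hnpos : (0 : ℝ) < n := by
      have : 0 < n := by omega
      exact_mod_cast this
    have hkn' : (k : ℝ) + 1 ≤ n := by exact_mod_cast hkn
    set p : ℝ := ((k : ℝ) + 1) / n with hp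
    have hp1 : p ≤ 1 := by rw [hp, div_le_one hnpos]; exact hkn'
    have hq : 0 ≤ 1 - p := by linarith
    have hwc : wc n k = (1 - p) / p * Real.log (1 - p) := rfl
    rw [hwc]
    rcases eq_or_lt_of_le hq with h | h
    · rw [← h, zero_div, zero_mul]
      linarith
    · have h1 : 1 - p < 1 / 2 := lt_of_lt_of_le hcase (min_le_left _ _)
      have h2 : 1 - p < (ε / 4) ^ 2 := lt_of_lt_of_le hcase (min_le_right _ _)
      have hp2 : 1 / 2 < p := by linarith
      have h3 := mul_log_ge h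
      have h4 : Real.sqrt (1 - p) ≤ ε / 4 := by
        rw [Real.sqrt_le_left (by positivity)]
        exact h2.le
      have h5 : (1 - p) / p * Real.log (1 - p) = ((1 - p) * Real.log (1 - p)) / p := by ring
      rw [h5]
      have h6 : -ε ≤ ((1 - p) * Real.log (1 - p)) / p := by
        rw [le_div_iff₀ (by linarith)]
        nlinarith
      linarith

end Pool.Agent.Lib.MP_9701dc_gt.DD
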