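import Pool.Agent.Lib.MP_9701dc_gt.Incidence

set_option autoImplicit false

/-!
# Creation operators (module M1)

For `u : Finset (Fin n)` and `x : Finset (Fin n) → ℝ` put
`cr u x s = ∑ z ∈ s ∩ u, sg z s * x (s.erase z)`. If `x` is supported on the sets with `k` elements
then `∑ s, (cr u x s)^2 ≤ u.card * ∑ s, (x s)^2`.
-/

namespace Pool.Agent.Lib.MP_9701dc_gt.DD

open Finset

variable {n : ℕ}

/-- real sign -/
def sr (v : Fin n) (s : Finset (Fin n)) : ℝ := (sg v s : ℝ)

theorem sr_sq (v : Fin n) (s : Finset (Fin n)) : sr v s * sr v s = 1 := by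
  unfold sr
  exact_mod_cast sg_sq v s

theorem sr_sq' (v : Fin n) (s : Finset (Fin n)) : sr v s ^ 2 = 1 := by
  rw [sq]; exact sr_sq v s

/-- toggling an element -/
def tg (z : Fin n) (s : Finset (Fin n)) : Finset (Fin n) :=
  if z ∈ s then s.erase z else insert z s

theorem mem_tg {z x : Fin n} {s : Finset (Fin n)} :
    x ∈ tg z s ↔ (if x = z then x ∉ s else x ∈ s) := by
  unfold tg
  by_cases hz : z ∈ s
  · rw [if_pos hz, mem_erase]
    by_cases hx : x = z
    · subst hx; simp [hz]
    · simp [hx]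
  · rw [if_neg hz, mem_insert]
    by_cases hx : x = z
    · subst hx; simp [hz]
    · simp [hx]

theorem tg_tg (z : Fin n) (s : Finset (Fin n)) : tg z (tg z s) = s := by
  ext x
  rw [mem_tg, mem_tg]
  by_cases hx : x = z
  · simp [hx]
  · simp [hx]

theorem tg_comm (z y : Fin n) (s : Finset (Fin n)) : tg z (tg y s) = tg y (tg z s) := by
  ext x
  simp only [mem_tg]
  split_ifs <;> tauto

theorem sg_tg (u v : Fin n) (s : Finset (Fin n)) :
    sg v (tg u s) = (if u < v then -1 else 1) * sg v s := by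
  unfold tg
  split_ifs with h1 h2 h2
  · have h3 := sg_insert (v := v) (notMem_erase u s)
    rw [insert_erase h1, if_pos h2] at h3
    rw [h3]; ring
  · have h3 := sg_insert (v := v) (notMem_erase u s)
    rw [insert_erase h1, if_neg h2] at h3
    rw [h3]; ring
  · rw [sg_insert h1, if_pos h2]
  · rw [sg_insert h1, if_neg h2]

theorem sr_tg (u v : Fin n) (s : Finset (Fin n)) :
    sr v (tg u s) = (if u < v then -1 else 1) * sr v s := by
  unfold sr
  rw [sg_tg]
  push_cast
  split_ifs <;> simp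

/-- the toggling equivalence -/
def tgE (z : Fin n) : Finset (Fin n) ≃ Finset (Fin n) where
  toFun := tg z
  invFun := tg z
  left_inv := tg_tg z
  right_inv := tg_tg z

theorem sum_tg (z : Fin n) (f : Finset (Fin n) → ℝ) : ∑ s, f (tg z s) = ∑ s, f s :=
  Equiv.sum_comp (tgE z) f

/-- Clifford multiplication -/
def gam (u : Finset (Fin n)) (x : Finset (Fin n) → ℝ) (s : Finset (Fin n)) : ℝ :=
  ∑ z ∈ u, sr z s * x (tg z s)

theorem gam_cross {z y : Fin n} (hzy : z ≠ y) (x : Finset (Fin n) → ℝ) :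
    ∑ s, (sr z s * x (tg z s)) * (sr y s * x (tg y s)) = 0 := by
  have h1 : ∑ s, (sr z s * x (tg z s)) * (sr y s * x (tg y s)) =
      - ∑ s, (sr z s * x (tg z s)) * (sr y s * x (tg y s)) := by
    conv_lhs => rw [← sum_tg z, ← sum_tg y]
    rw [← sum_neg_distrib]
    refine sum_congr rfl fun s _ => ?_
    rw [tg_tg, sr_tg, sr_tg, sr_tg, sr_tg, tg_comm y z (tg y s), tg_tg, if_neg (lt_irrefl z),
      if_neg (lt_irrefl y)]
    rcases lt_or_gt_of_ne hzy with h | h
    · rw [if_pos h, if_neg (not_lt_of_gt h)]; ring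
    · rw [if_pos h, if_neg (not_lt_of_gt h)]; ring
  linarith

theorem gam_norm (u : Finset (Fin n)) (x : Finset (Fin n) → ℝ) :
    ∑ s, (gam u x s) ^ 2 = u.card * ∑ s, (x s) ^ 2 := by
  have h1 : ∀ s, (gam u x s) ^ 2 =
      ∑ z ∈ u, ∑ y ∈ u, (sr z s * x (tg z s)) * (sr y s * x (tg y s)) := by
    intro s
    unfold gam
    rw [sq, sum_mul_sum]
  simp only [h1]
  rw [sum_comm]
  have h2 : ∀ z ∈ u, ∑ s, ∑ y ∈ u, (sr z s * x (tg z s)) * (sr y s * x (tg y s)) =
      ∑ s, (x s) ^ 2 := by
    intro z hz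
    rw [sum_comm, sum_eq_single z]
    · rw [← sum_tg z (fun s => (x s) ^ 2)]
      refine sum_congr rfl fun s _ => ?_
      have := sr_sq z s
      calc _ = (sr z s * sr z s) * (x (tg z s)) ^ 2 := by ring
        _ = _ := by rw [this, one_mul]
    · intro y _ hy
      exact gam_cross hy.symm x
    · intro h; exact absurd hz h
  rw [sum_congr rfl h2, sum_const, nsmul_eq_mul]

/-- Creation operator -/
def cr (u : Finset (Fin n)) (x : Finset (Fin n) → ℝ) (s : Finset (Fin n)) : ℝ :=
  ∑ z ∈ s ∩ u, sr z s * x (s.erase z)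

theorem cr_norm (u : Finset (Fin n)) (x : Finset (Fin n) → ℝ) (k : ℕ)
    (hx : ∀ s, s.card ≠ k → x s = 0) :
    ∑ s, (cr u x s) ^ 2 ≤ u.card * ∑ s, (x s) ^ 2 := by
  rw [← gam_norm]
  refine sum_le_sum fun s _ => ?_
  by_cases hs : s.card = k + 1
  · have : gam u x s = cr u x s := by
      unfold gam cr
      have e : s ∩ u = u.filter (fun z => z ∈ s) := by
        ext z; simp [and_comm]
      rw [e, sum_filter]
      refine sum_congr rfl fun z _ => ?_
      split_ifs with h
      · unfold tg; rw [if_pos h]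
      · unfold tg
        rw [if_neg h, hx (insert z s), mul_zero]
        rw [card_insert_of_notMem h]; omega
    rw [this]
  · have : cr u x s = 0 := by
      unfold cr
      refine sum_eq_zero fun z hz => ?_
      rw [hx, mul_zero]
      have h1 : z ∈ s := (mem_inter.mp hz).1
      rw [card_erase_of_mem h1]
      have : 0 < s.card := card_pos.mpr ⟨z, h1⟩
      omega
    rw [this]
    nlinarith [sq_nonneg (gam u x s)]

theorem cr_add (u : Finset (Fin n)) (x y : Finset (Fin n) → ℝ) (s : Finset (Fin n)) :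
    cr u (fun s => x s + y s) s = cr u x s + cr u y s := by
  unfold cr
  rw [← sum_add_distrib]
  exact sum_congr rfl fun z _ => by ring

/-- change of variables -/
theorem sum_erase_swap (f : Finset (Fin n) → Fin n → ℝ) :
    ∑ s : Finset (Fin n), ∑ z ∈ s, f (s.erase z) z = ∑ s : Finset (Fin n), ∑ z ∈ sᶜ, f s z := by
  rw [sum_sigma', sum_sigma']
  refine sum_bij' (fun p _ => ⟨p.1.erase p.2, p.2⟩) (fun p _ => ⟨insert p.2 p.1, p.2⟩) ?_ ?_ ?_ ?_ ?_
  · rintro ⟨s, z⟩ h
    simp
  · rintro ⟨s, z⟩ h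
    simp
  · rintro ⟨s, z⟩ h
    simp only [mem_sigma, mem_univ, true_and] at h
    simp [insert_erase h]
  · rintro ⟨s, z⟩ h
    simp only [mem_sigma, mem_univ, true_and, mem_compl] at h
    simp [erase_insert h]
  · rintro ⟨s, z⟩ h
    rfl

end Pool.Agent.Lib.MP_9701dc_gt.DD
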