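import Pool.Agent.Lib.MP_9701dc_gt.DD.Sign

set_option autoImplicit false

/-!
# Creation and annihilation operators of a vector
-/

namespace Pool.Agent.Lib.MP_9701dc_gt.DD

open Finset

variable {n : ℕ}

/-- Clifford multiplication by the vector `f` -/
def gamf (f : Fin n → ℝ) (x : Finset (Fin n) → ℝ) (s : Finset (Fin n)) : ℝ :=
  ∑ z, f z * (sr z s * x (tg z s))

theorem gamf_norm (f : Fin n → ℝ) (x : Finset (Fin n) → ℝ) :
    ∑ s, (gamf f x s) ^ 2 = (∑ z, f z ^ 2) * ∑ s, (x s) ^ 2 := by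
  have h1 : ∀ s, (gamf f x s) ^ 2 =
      ∑ z, ∑ y, f z * f y * ((sr z s * x (tg z s)) * (sr y s * x (tg y s))) := by
    intro s
    unfold gamf
    rw [sq, sum_mul_sum]
    exact sum_congr rfl fun z _ => sum_congr rfl fun y _ => by ring
  simp only [h1]
  rw [sum_comm, sum_mul]
  refine sum_congr rfl fun z _ => ?_
  rw [sum_comm, sum_eq_single z]
  · rw [← mul_sum, ← sum_tg z (fun s => (x s) ^ 2)]
    have : ∑ s, (sr z s * x (tg z s)) * (sr z s * x (tg z s)) = ∑ s, (x (tg z s)) ^ 2 := by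
      refine sum_congr rfl fun s _ => ?_
      have := sr_sq z s
      calc _ = (sr z s * sr z s) * (x (tg z s)) ^ 2 := by ring
        _ = _ := by rw [this, one_mul]
    rw [this]
    ring
  · intro y _ hy
    rw [← mul_sum, gam_cross hy.symm x, mul_zero]
  · intro h; exact absurd (mem_univ z) h

/-- Creation operator of `f` -/
def crf (f : Fin n → ℝ) (x : Finset (Fin n) → ℝ) (s : Finset (Fin n)) : ℝ :=
  ∑ z ∈ s, f z * (sr z s * x (s.erase z))

/-- Annihilation operator of `f` -/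
def anf (f : Fin n → ℝ) (x : Finset (Fin n) → ℝ) (s : Finset (Fin n)) : ℝ :=
  ∑ z ∈ sᶜ, f z * (sr z s * x (insert z s))

theorem gamf_eq (f : Fin n → ℝ) (x : Finset (Fin n) → ℝ) (s : Finset (Fin n)) :
    gamf f x s = crf f x s + anf f x s := by
  unfold gamf crf anf
  rw [← sum_add_sum_compl s]
  congr 1
  · refine sum_congr rfl fun z hz => ?_
    unfold tg; rw [if_pos hz]
  · refine sum_congr rfl fun z hz => ?_
    unfold tg; rw [if_neg (mem_compl.mp hz)]

theorem crf_anf_norm (f : Fin n → ℝ) (x : Finset (Fin n) → ℝ) (k : ℕ)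
    (hx : ∀ s, s.card ≠ k → x s = 0) :
    ∑ s, (crf f x s) ^ 2 + ∑ s, (anf f x s) ^ 2 = (∑ z, f z ^ 2) * ∑ s, (x s) ^ 2 := by
  rw [← gamf_norm, ← sum_add_distrib]
  refine sum_congr rfl fun s _ => ?_
  rw [gamf_eq]
  have : crf f x s * anf f x s = 0 := by
    by_cases hs : s.card = k + 1
    · have : anf f x s = 0 := by
        unfold anf
        refine sum_eq_zero fun z hz => ?_
        rw [hx (insert z s)]
        · ring
        · rw [card_insert_of_notMem (mem_compl.mp hz)]; omega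
      rw [this, mul_zero]
    · have : crf f x s = 0 := by
        unfold crf
        refine sum_eq_zero fun z hz => ?_
        rw [hx (s.erase z)]
        · ring
        · rw [card_erase_of_mem hz]
          have : 0 < s.card := card_pos.mpr ⟨z, hz⟩
          omega
      rw [this, zero_mul]
  nlinarith

theorem crf_norm_le (f : Fin n → ℝ) (x : Finset (Fin n) → ℝ) (k : ℕ)
    (hx : ∀ s, s.card ≠ k → x s = 0) :
    ∑ s, (crf f x s) ^ 2 ≤ (∑ z, f z ^ 2) * ∑ s, (x s) ^ 2 := by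
  rw [← crf_anf_norm f x k hx]
  have : 0 ≤ ∑ s, (anf f x s) ^ 2 := sum_nonneg fun s _ => sq_nonneg _
  linarith

/-- the vector `1_u - (1 - β) 1_V` -/
def fv (β : ℝ) (u : Finset (Fin n)) (z : Fin n) : ℝ := (if z ∈ u then 1 else 0) - (1 - β)

theorem fv_norm (β : ℝ) (u : Finset (Fin n)) :
    ∑ z, fv β u z ^ 2 = u.card * β ^ 2 + ((n : ℝ) - u.card) * (1 - β) ^ 2 := by
  have h1 : ∀ z, fv β u z ^ 2 = (1 - β) ^ 2 + (if z ∈ u then (β ^ 2 - (1 - β) ^ 2) else 0) := by
    intro z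
    unfold fv
    split_ifs <;> ring
  simp only [h1]
  rw [sum_add_distrib, sum_const, card_univ, Fintype.card_fin, nsmul_eq_mul, sum_ite_mem,
    univ_inter, sum_const, nsmul_eq_mul]
  ring

theorem crf_fv_split {β : ℝ} {u v : Finset (Fin n)} (h : v ⊆ u) (x : Finset (Fin n) → ℝ)
    (s : Finset (Fin n)) : crf (fv β u) x s = crf (fv β v) x s + cr (u \ v) x s := by
  unfold crf cr
  have h1 : ∑ z ∈ s ∩ (u \ v), sr z s * x (s.erase z) =
      ∑ z ∈ s, (if z ∈ u \ v then sr z s * x (s.erase z) else 0) := by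
    rw [← sum_filter, filter_mem_eq_inter]
  rw [h1, ← sum_add_distrib]
  refine sum_congr rfl fun z _ => ?_
  unfold fv
  by_cases hu : z ∈ u
  · by_cases hv : z ∈ v
    · rw [if_pos hu, if_pos hv, if_neg (by simp [hv])]; ring
    · rw [if_pos hu, if_neg hv, if_pos (by simp [hu, hv])]; ring
  · have hv : z ∉ v := fun hv => hu (h hv)
    rw [if_neg hu, if_neg hv, if_neg (by simp [hu])]; ring

theorem anf_fv (β : ℝ) (u : Finset (Fin n)) (x : Finset (Fin n) → ℝ) (s : Finset (Fin n))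
    (hx : ∑ z ∈ sᶜ, sr z s * x (insert z s) = 0) :
    anf (fv β u) x s = ∑ z ∈ sᶜ, (if z ∈ u then sr z s * x (insert z s) else 0) := by
  unfold anf
  have h1 : ∀ z, fv β u z * (sr z s * x (insert z s)) =
      (if z ∈ u then sr z s * x (insert z s) else 0) - (1 - β) * (sr z s * x (insert z s)) := by
    intro z
    unfold fv
    split_ifs <;> ring
  simp only [h1]
  rw [sum_sub_distrib, ← mul_sum, hx, mul_zero, sub_zero]

theorem anf_fv_erase (β : ℝ) {ρ : Finset (Fin n)} {y : Fin n} (hy : y ∈ ρ)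
    (x : Finset (Fin n) → ℝ)
    (hx : ∑ z ∈ (ρ.erase y)ᶜ, sr z (ρ.erase y) * x (insert z (ρ.erase y)) = 0) :
    anf (fv β ρ) x (ρ.erase y) = sr y (ρ.erase y) * x ρ := by
  rw [anf_fv β ρ x _ hx, sum_eq_single y]
  · rw [if_pos hy, insert_erase hy]
  · intro z hz hzy
    rw [if_neg]
    intro hzρ
    exact (mem_compl.mp hz) (mem_erase.mpr ⟨hzy, hzρ⟩)
  · intro h
    exact absurd (mem_compl.mpr (notMem_erase y ρ)) h

/-- the annihilation of a cycle by the vector of `ρ` has norm at least `|ρ| x(ρ)^2` -/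
theorem anf_fv_norm_ge (β : ℝ) (ρ : Finset (Fin n)) (x : Finset (Fin n) → ℝ)
    (hx : ∀ s : Finset (Fin n), ∑ z ∈ sᶜ, sr z s * x (insert z s) = 0) :
    (ρ.card : ℝ) * x ρ ^ 2 ≤ ∑ s, (anf (fv β ρ) x s) ^ 2 := by
  have h1 : ∑ s ∈ ρ.image (fun y => ρ.erase y), (anf (fv β ρ) x s) ^ 2 = (ρ.card : ℝ) * x ρ ^ 2 := by
    rw [sum_image]
    · rw [sum_congr rfl fun y hy => by
        rw [anf_fv_erase β hy x (hx _), mul_pow, sr_sq', one_mul], sum_const, nsmul_eq_mul]
    · intro a ha b hb hab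
      by_contra hne
      have hab' : ρ.erase a = ρ.erase b := hab
      have : a ∈ ρ.erase b := mem_erase.mpr ⟨hne, ha⟩
      rw [← hab'] at this
      simp at this
  rw [← h1]
  exact sum_le_sum_of_subset_of_nonneg (subset_univ _) fun s _ _ => sq_nonneg _

end Pool.Agent.Lib.MP_9701dc_gt.DD
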