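import Pool.Agent.Lib.MP_9701dc_gt.DD.Resolvent
import Pool.Agent.Lib.MP_9701dc_gt.DD.Compare
import Pool.Agent.Lib.MP_9701dc_gt.Assembly

set_option autoImplicit false
set_option linter.unusedSectionVars false
set_option linter.unusedVariables false

/-!
# Eigenvalues of the weighted Gram matrix and the weights (module M7a)
-/

namespace Pool.Agent.Lib.MP_9701dc_gt.DD

open Finset Matrix

namespace Sys

variable {n : ℕ} {ι : Type*} [Fintype ι] [DecidableEq ι] (X : Sys n ι)

/-- the eigenvalues of `G` -/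
noncomputable def ev : ι → ℝ := X.G_symm.eigenvalues

theorem G_posSemidef : X.G.PosSemidef := by
  refine Matrix.PosSemidef.of_dotProduct_mulVec_nonneg X.G_symm fun x => ?_
  rw [star_trivial, G_quad]
  exact sum_nonneg fun ρ _ => mul_nonneg (X.w_pos ρ).le (sq_nonneg _)

theorem ev_nonneg (i : ι) : 0 ≤ X.ev i := X.G_posSemidef.eigenvalues_nonneg i

theorem det_G : X.G.det = ∏ i, X.ev i := by
  rw [X.G_symm.det_eq_prod_eigenvalues]; rfl

/-- the trace of the resolvent -/
theorem S_eq : X.S = ∑ i, 1 / (X.η + X.ev i) := by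
  obtain ⟨U, h1, h2, hU⟩ := spectral_real X.G X.G_symm
  have hpos : ∀ i, 0 < X.η + X.ev i := fun i => by
    have := X.η_pos
    have := X.ev_nonneg i
    linarith
  have hM : X.M = U * diagonal (fun i => X.η + X.ev i) * Uᵀ := by
    unfold M
    have e1 : diagonal (fun i => X.η + X.ev i) =
        X.η • (1 : Matrix ι ι ℝ) + diagonal X.G_symm.eigenvalues := by
      ext i j
      by_cases h : i = j
      · subst h
        simp [ev]
      · simp [h]
    rw [e1, mul_add, add_mul, ← hU, mul_smul_comm, mul_one, smul_mul_assoc, h1, add_comm]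
  have hR : X.R = U * diagonal (fun i => 1 / (X.η + X.ev i)) * Uᵀ := by
    unfold R
    apply Matrix.inv_eq_right_inv
    rw [hM]
    calc U * diagonal (fun i => X.η + X.ev i) * Uᵀ * (U * diagonal (fun i => 1 / (X.η + X.ev i)) * Uᵀ)
        = U * diagonal (fun i => X.η + X.ev i) * (Uᵀ * U) *
          diagonal (fun i => 1 / (X.η + X.ev i)) * Uᵀ := by
          simp only [Matrix.mul_assoc]
      _ = U * (diagonal (fun i => X.η + X.ev i) * diagonal (fun i => 1 / (X.η + X.ev i))) * Uᵀ := by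
          rw [h2, Matrix.mul_one]
          simp only [Matrix.mul_assoc]
      _ = 1 := by
          rw [diagonal_mul_diagonal]
          have : (fun i => (X.η + X.ev i) * (1 / (X.η + X.ev i))) = fun _ => (1 : ℝ) := by
            funext i
            have := (hpos i).ne'
            field_simp
          rw [this, diagonal_one, Matrix.mul_one, h1]
  unfold S
  rw [hR, trace_mul_cycle, h2, Matrix.one_mul, trace_diagonal]

theorem sum_b_sq_le (i : ι) : ∑ ρ, X.b ρ i ^ 2 ≤ X.k + 1 := by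
  have h1 : ∀ ρ, X.b ρ i ^ 2 ≤ X.chi ∅ ρ i := by
    intro ρ
    by_cases hb : X.b ρ i = 0
    · rw [hb]
      have := X.chi_nonneg ∅ ρ i
      simpa using this
    · have h2 : X.chi ∅ ρ i = 1 := by
        unfold chi
        rw [if_pos]
        refine ⟨hb, ?_⟩
        obtain ⟨_, z, hz, hT, _⟩ := X.b_ne hb
        intro h
        have : z ∈ (∅ : Finset (Fin n)) := h (by
          rw [mem_sdiff, hT]
          exact ⟨mem_insert_self _ _, hz⟩)
        simp at this
      rw [h2]
      exact X.b_sq_le ρ i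
  have h3 := X.sum_chi_le ∅ i
  rw [sdiff_empty, X.T_card i] at h3
  push_cast at h3
  exact (sum_le_sum fun ρ _ => h1 ρ).trans h3

theorem sum_ev_le : ∑ i, X.ev i ≤ (X.k + 1) * Fintype.card ι := by
  have h1 : ∑ i, X.ev i = X.G.trace := by
    rw [X.G_symm.trace_eq_sum_eigenvalues]
    simp [ev]
  rw [h1]
  unfold trace
  have h2 : ∀ i, X.G.diag i ≤ X.k + 1 := by
    intro i
    rw [diag_apply, G_apply]
    refine le_trans (sum_le_sum fun ρ _ => ?_) (X.sum_b_sq_le i)
    have := X.w_le ρ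
    nlinarith [sq_nonneg (X.b ρ i)]
  calc ∑ i, X.G.diag i ≤ ∑ _i : ι, ((X.k : ℝ) + 1) := sum_le_sum fun i _ => h2 i
    _ = _ := by rw [sum_const, nsmul_eq_mul, card_univ]; ring

end Sys

/-! ### Weights -/

section weights

variable {n : ℕ} {ι : Type*} [Fintype ι]

/-- degree -/
def dgr (T : ι → Finset (Fin n)) (ρ : Finset (Fin n)) : ℝ :=
  ((univ.filter fun i => ρ ⊆ T i).card : ℝ)

theorem dgr_nonneg (T : ι → Finset (Fin n)) (ρ : Finset (Fin n)) : 0 ≤ dgr T ρ :=
  Nat.cast_nonneg _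

/-- weight -/
noncomputable def wt (T : ι → Finset (Fin n)) (L : ℝ) (ρ : Finset (Fin n)) : ℝ :=
  L / max L (dgr T ρ)

theorem wt_pos (T : ι → Finset (Fin n)) {L : ℝ} (hL : 0 < L) (ρ : Finset (Fin n)) :
    0 < wt T L ρ := div_pos hL (lt_max_of_lt_left hL)

theorem wt_le (T : ι → Finset (Fin n)) {L : ℝ} (hL : 0 < L) (ρ : Finset (Fin n)) :
    wt T L ρ ≤ 1 := by
  unfold wt
  rw [div_le_one (lt_max_of_lt_left hL)]
  exact le_max_left _ _

theorem wt_deg (T : ι → Finset (Fin n)) {L : ℝ} (hL : 0 < L) (ρ : Finset (Fin n)) :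
    wt T L ρ * dgr T ρ ≤ L := by
  unfold wt
  rw [div_mul_eq_mul_div, div_le_iff₀ (lt_max_of_lt_left hL)]
  exact mul_le_mul_of_nonneg_left (le_max_right _ _) hL.le

theorem inv_wt (T : ι → Finset (Fin n)) {L : ℝ} (hL : 0 < L) (ρ : Finset (Fin n)) :
    1 / wt T L ρ = max L (dgr T ρ) / L := by
  unfold wt
  rw [one_div_div]

theorem inv_wt_ge (T : ι → Finset (Fin n)) {L : ℝ} (hL : 0 < L) (ρ : Finset (Fin n)) :
    1 ≤ 1 / wt T L ρ := by
  rw [inv_wt T hL, le_div_iff₀ hL, one_mul]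
  exact le_max_left _ _

theorem inv_wt_le (T : ι → Finset (Fin n)) {L : ℝ} (hL : 0 < L) (ρ : Finset (Fin n)) :
    1 / wt T L ρ ≤ 1 + dgr T ρ / L := by
  rw [inv_wt T hL, div_le_iff₀ hL, add_mul, one_mul, div_mul_cancel₀ _ hL.ne']
  refine max_le ?_ ?_
  · have := dgr_nonneg T ρ
    linarith
  · linarith

/-- the system -/
noncomputable def mkSys (k : ℕ) (v : Fin n) (T : ι → Finset (Fin n)) (hT : Function.Injective T)
    (hc : ∀ i, (T i).card = k + 1) (L η : ℝ) (hL : 0 < L) (hη : 0 < η) : Sys n ι where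
  k := k
  T := T
  Rd := rows n k v
  w := wt T L
  η := η
  L := L
  T_inj := hT
  T_card := hc
  Rd_card := fun _ h => (mem_rows.mp h).1
  w_pos := wt_pos T hL
  w_le := wt_le T hL
  η_pos := hη
  L_pos := hL
  deg := fun ρ _ => wt_deg T hL ρ

theorem sum_dgr_le (k : ℕ) (v : Fin n) (T : ι → Finset (Fin n))
    (hc : ∀ i, (T i).card = k + 1) :
    ∑ ρ ∈ rows n k v, dgr T ρ ≤ (k + 1) * Fintype.card ι := by
  classical
  have h1 : ∀ ρ, dgr T ρ = ∑ i, if ρ ⊆ T i then (1 : ℝ) else 0 := by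
    intro ρ
    unfold dgr
    rw [sum_boole]
  simp only [h1]
  rw [sum_comm]
  have h2 : ∀ i, ∑ ρ ∈ rows n k v, (if ρ ⊆ T i then (1 : ℝ) else 0) ≤ k + 1 := by
    intro i
    rw [← sum_filter, sum_const, nsmul_eq_mul, mul_one]
    have h3 : ((rows n k v).filter (· ⊆ T i)).card ≤ ((T i).powersetCard k).card := by
      refine card_le_card fun σ hσ => ?_
      rw [mem_filter, mem_rows] at hσ
      rw [mem_powersetCard]
      exact ⟨hσ.2, hσ.1.1⟩
    rw [card_powersetCard, hc i, Nat.choose_succ_self_right] at h3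
    exact_mod_cast h3
  calc _ ≤ ∑ _i : ι, ((k : ℝ) + 1) := sum_le_sum fun i _ => h2 i
    _ = _ := by rw [sum_const, nsmul_eq_mul, card_univ]; ring

end weights

end Pool.Agent.Lib.MP_9701dc_gt.DD
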