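import Pool.Agent.Lib.MP_9701dc_gt.DD.Sign

set_option autoImplicit false

/-!
# Weighted incidence systems and the a priori estimate (module M2)
-/

namespace Pool.Agent.Lib.MP_9701dc_gt.DD

open Finset

/-- `ι` indexes sets `T i` with `k + 1` elements; `Rd` is a set of sets with `k` elements, with
weights `w ≤ 1` such that `w ρ * deg ρ ≤ L`. -/
structure Sys (n : ℕ) (ι : Type*) [Fintype ι] where
  k : ℕ
  T : ι → Finset (Fin n)
  Rd : Finset (Finset (Fin n))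
  w : Finset (Fin n) → ℝ
  η : ℝ
  L : ℝ
  T_inj : Function.Injective T
  T_card : ∀ i, (T i).card = k + 1
  Rd_card : ∀ ρ ∈ Rd, ρ.card = k
  w_pos : ∀ ρ, 0 < w ρ
  w_le : ∀ ρ, w ρ ≤ 1
  η_pos : 0 < η
  L_pos : 0 < L
  deg : ∀ ρ ∈ Rd, w ρ * ((univ.filter fun i => ρ ⊆ T i).card : ℝ) ≤ L

namespace Sys

variable {n : ℕ} {ι : Type*} [Fintype ι] (X : Sys n ι)

/-- the incidence matrix, restricted to the rows in `Rd` -/
def b (ρ : Finset (Fin n)) (i : ι) : ℝ := if ρ ∈ X.Rd then (inc ρ (X.T i) : ℝ) else 0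

theorem b_ne {ρ : Finset (Fin n)} {i : ι} (h : X.b ρ i ≠ 0) :
    ρ ∈ X.Rd ∧ ∃ z, z ∉ ρ ∧ X.T i = insert z ρ ∧ X.b ρ i = sr z ρ := by
  unfold b at h
  by_cases hρ : ρ ∈ X.Rd
  · rw [if_pos hρ] at h
    have h' : inc ρ (X.T i) ≠ 0 := by exact_mod_cast h
    obtain ⟨z, hz, hT⟩ := inc_ne_zero h'
    refine ⟨hρ, z, hz, hT, ?_⟩
    unfold b sr
    rw [if_pos hρ, hT, inc_insert hz]
  · rw [if_neg hρ] at h
    exact absurd rfl h

theorem b_sq_le (ρ : Finset (Fin n)) (i : ι) : X.b ρ i ^ 2 ≤ 1 := by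
  by_cases h : X.b ρ i = 0
  · rw [h]; norm_num
  · obtain ⟨_, z, _, _, hb⟩ := X.b_ne h
    rw [hb, sr_sq']

theorem b_of_notMem {ρ : Finset (Fin n)} (h : ρ ∉ X.Rd) (i : ι) : X.b ρ i = 0 := by
  unfold b; rw [if_neg h]

theorem b_of_card {ρ : Finset (Fin n)} (h : ρ.card ≠ X.k) (i : ι) : X.b ρ i = 0 :=
  X.b_of_notMem (fun hm => h (X.Rd_card ρ hm)) i

/-- indicator of the removals outside `s` -/
noncomputable def chi (s ρ : Finset (Fin n)) (i : ι) : ℝ :=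
  open Classical in if X.b ρ i ≠ 0 ∧ ¬ ((X.T i) \ ρ ⊆ s) then 1 else 0

theorem chi_nonneg (s ρ : Finset (Fin n)) (i : ι) : 0 ≤ X.chi s ρ i := by
  unfold chi; split_ifs <;> norm_num

theorem chi_sq (s ρ : Finset (Fin n)) (i : ι) : X.chi s ρ i ^ 2 = X.chi s ρ i := by
  unfold chi; split_ifs <;> norm_num

/-- on the incident pairs, the number of elements outside `s` -/
theorem q_eq {s ρ : Finset (Fin n)} {i : ι} (h : X.b ρ i ≠ 0) :
    (((X.T i) \ s).card : ℝ) = ((ρ \ s).card : ℝ) + X.chi s ρ i := by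
  obtain ⟨_, z, hz, hT, _⟩ := X.b_ne h
  have h1 : (X.T i) \ ρ = {z} := by
    rw [hT]
    ext x
    simp only [mem_sdiff, mem_insert, mem_singleton]
    constructor
    · rintro ⟨rfl | h1, h2⟩
      · rfl
      · exact absurd h1 h2
    · rintro rfl
      exact ⟨Or.inl rfl, hz⟩
  unfold chi
  rw [h1]
  by_cases hzs : z ∈ s
  · rw [if_neg (by simp [hzs]), hT, insert_sdiff_of_mem _ hzs, add_zero]
  · rw [if_pos (by simp [hzs, h]), hT, insert_sdiff_of_notMem _ hzs,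
      card_insert_of_notMem (by simp [hz])]
    push_cast
    ring

theorem sum_chi_le (s : Finset (Fin n)) (i : ι) :
    ∑ ρ, X.chi s ρ i ≤ (((X.T i) \ s).card : ℝ) := by
  classical
  have h1 : ∀ ρ, X.chi s ρ i ≤ if ρ ∈ ((X.T i) \ s).image (fun z => (X.T i).erase z) then
      (1 : ℝ) else 0 := by
    intro ρ
    unfold chi
    split_ifs with h h2 h2
    · exact le_refl _
    · exfalso
      apply h2
      obtain ⟨_, z, hz, hT, _⟩ := X.b_ne h.1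
      rw [mem_image]
      have hzs : z ∉ s := by
        intro hzs
        apply h.2
        rw [hT]
        intro x hx
        simp only [mem_sdiff, mem_insert] at hx
        rcases hx.1 with rfl | h3
        · exact hzs
        · exact absurd h3 hx.2
      refine ⟨z, ?_, ?_⟩
      · rw [mem_sdiff, hT]
        exact ⟨mem_insert_self _ _, hzs⟩
      · rw [hT, erase_insert hz]
    · norm_num
    · exact le_refl _
  calc ∑ ρ, X.chi s ρ i ≤ ∑ ρ, (if ρ ∈ ((X.T i) \ s).image (fun z => (X.T i).erase z) then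
      (1 : ℝ) else 0) := sum_le_sum fun ρ _ => h1 ρ
    _ = ((((X.T i) \ s).image (fun z => (X.T i).erase z)).card : ℝ) := by
        rw [sum_ite_mem, univ_inter, sum_const, nsmul_eq_mul, mul_one]
    _ ≤ _ := by exact_mod_cast card_image_le

theorem w_sum_chi_le (s ρ : Finset (Fin n)) :
    X.w ρ * ∑ i, X.chi s ρ i ≤ X.L := by
  classical
  by_cases hρ : ρ ∈ X.Rd
  · refine le_trans (mul_le_mul_of_nonneg_left ?_ (X.w_pos ρ).le) (X.deg ρ hρ)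
    have h1 : ∀ i, X.chi s ρ i ≤ if ρ ⊆ X.T i then (1 : ℝ) else 0 := by
      intro i
      unfold chi
      split_ifs with h h2 h2
      · exact le_refl _
      · exfalso
        apply h2
        obtain ⟨_, z, hz, hT, _⟩ := X.b_ne h.1
        rw [hT]; exact subset_insert _ _
      · norm_num
      · exact le_refl _
    calc _ ≤ ∑ i, (if ρ ⊆ X.T i then (1 : ℝ) else 0) := sum_le_sum fun i _ => h1 i
      _ = _ := by rw [sum_boole]
  · have : ∀ i, X.chi s ρ i = 0 := by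
      intro i
      unfold chi
      rw [if_neg]
      rintro ⟨h, _⟩
      exact h (X.b_of_notMem hρ i)
    simp only [this, sum_const_zero, mul_zero]
    exact X.L_pos.le

/-- **A priori estimate.** -/
theorem apriori (s : Finset (Fin n)) (φ : ι → ℝ) (ψ : Finset (Fin n) → ℝ) (κ : ℝ)
    (hκ : X.L = κ * X.η)
    (h1 : ∀ i, ∑ ρ, X.w ρ * X.b ρ i * ψ ρ = X.η * φ i)
    (h2 : ∀ ρ, ρ ≠ s → ψ ρ = - ∑ i, X.b ρ i * φ i) :
    X.η * ∑ i, (((X.T i) \ s).card : ℝ) ^ 2 * φ i ^ 2 ≤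
      2 * κ * (1 + κ) * (X.η * ∑ i, φ i ^ 2 + ∑ ρ, X.w ρ * ψ ρ ^ 2) := by
  have hη := X.η_pos
  have hL := X.L_pos
  have hκ0 : 0 < κ := by
    rw [hκ] at hL
    exact pos_of_mul_pos_left hL hη.le
  set q : ι → ℝ := fun i => (((X.T i) \ s).card : ℝ) with hq
  set p : Finset (Fin n) → ℝ := fun ρ => ((ρ \ s).card : ℝ) with hp
  have hq0 : ∀ i, 0 ≤ q i := fun i => Nat.cast_nonneg _
  have hp0 : ∀ ρ, 0 ≤ p ρ := fun ρ => Nat.cast_nonneg _
  have hps : p s = 0 := by simp [hp]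
  -- the identity
  have e1 : X.η * ∑ i, q i ^ 2 * φ i ^ 2 = ∑ ρ, ∑ i, X.w ρ * X.b ρ i * q i ^ 2 * φ i * ψ ρ := by
    rw [sum_comm, mul_sum]
    refine sum_congr rfl fun i _ => ?_
    calc X.η * (q i ^ 2 * φ i ^ 2) = (X.η * φ i) * (q i ^ 2 * φ i) := by ring
      _ = (∑ ρ, X.w ρ * X.b ρ i * ψ ρ) * (q i ^ 2 * φ i) := by rw [h1]
      _ = _ := by
        rw [sum_mul]
        exact sum_congr rfl fun ρ _ => by ring
  have e2 : ∑ ρ, X.w ρ * p ρ ^ 2 * ψ ρ ^ 2 =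
      - ∑ ρ, ∑ i, X.w ρ * X.b ρ i * p ρ ^ 2 * φ i * ψ ρ := by
    rw [← sum_neg_distrib]
    refine sum_congr rfl fun ρ _ => ?_
    by_cases hρ : ρ = s
    · rw [hρ, hps]; simp
    · calc X.w ρ * p ρ ^ 2 * ψ ρ ^ 2 = (X.w ρ * p ρ ^ 2 * ψ ρ) * ψ ρ := by ring
        _ = (X.w ρ * p ρ ^ 2 * ψ ρ) * (- ∑ i, X.b ρ i * φ i) := by rw [← h2 ρ hρ]
        _ = _ := by
          rw [mul_neg, mul_sum]
          congr 1
          exact sum_congr rfl fun i _ => by ring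
  have e3 : X.η * ∑ i, q i ^ 2 * φ i ^ 2 + ∑ ρ, X.w ρ * p ρ ^ 2 * ψ ρ ^ 2 =
      ∑ ρ, ∑ i, X.w ρ * X.b ρ i * (q i ^ 2 - p ρ ^ 2) * φ i * ψ ρ := by
    rw [e1, e2, ← sub_eq_add_neg, ← sum_sub_distrib]
    refine sum_congr rfl fun ρ _ => ?_
    rw [← sum_sub_distrib]
    exact sum_congr rfl fun i _ => by ring
  -- edge inequality
  have e4 : ∀ ρ i, X.w ρ * X.b ρ i * (q i ^ 2 - p ρ ^ 2) * φ i * ψ ρ ≤
      X.chi s ρ i * ((X.L + X.η / 4 * q i) * φ i ^ 2) +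
      X.w ρ * X.chi s ρ i * (X.w ρ * (p ρ ^ 2 / (4 * X.L) + (p ρ + 1) / X.η) * ψ ρ ^ 2) := by
    intro ρ i
    have hw := (X.w_pos ρ)
    by_cases hb : X.b ρ i = 0
    · rw [hb]
      have h3 := X.chi_nonneg s ρ i
      have h4 : 0 ≤ X.chi s ρ i * ((X.L + X.η / 4 * q i) * φ i ^ 2) := by
        have := hq0 i
        positivity
      have h5 : 0 ≤ X.w ρ * X.chi s ρ i *
          (X.w ρ * (p ρ ^ 2 / (4 * X.L) + (p ρ + 1) / X.η) * ψ ρ ^ 2) := by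
        have := hp0 ρ
        positivity
      linarith
    · have hqe : q i = p ρ + X.chi s ρ i := X.q_eq hb
      obtain ⟨_, z, _, _, hbz⟩ := X.b_ne hb
      have hb2 : X.b ρ i ^ 2 = 1 := by rw [hbz, sr_sq']
      have hchi : X.chi s ρ i = 0 ∨ X.chi s ρ i = 1 := by
        unfold chi; split_ifs
        · right; rfl
        · left; rfl
      rcases hchi with h0 | h0
      · rw [h0, add_zero] at hqe
        rw [h0, hqe]
        simp
      · rw [h0] at hqe ⊢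
        have hp0' := hp0 ρ
        -- two products
        have hA : X.w ρ * X.b ρ i * p ρ * φ i * ψ ρ ≤
            X.L * φ i ^ 2 + X.w ρ ^ 2 * p ρ ^ 2 / (4 * X.L) * ψ ρ ^ 2 := by
          have h6 : 0 ≤ (X.L * φ i - X.w ρ * X.b ρ i * p ρ * ψ ρ / 2) ^ 2 / X.L := by positivity
          have h7 : (X.L * φ i - X.w ρ * X.b ρ i * p ρ * ψ ρ / 2) ^ 2 / X.L =
              X.L * φ i ^ 2 - X.w ρ * X.b ρ i * p ρ * φ i * ψ ρ +
                X.w ρ ^ 2 * p ρ ^ 2 / (4 * X.L) * ψ ρ ^ 2 * X.b ρ i ^ 2 := by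
            field_simp
            ring
          rw [h7, hb2] at h6
          linarith
        have hB : X.w ρ * X.b ρ i * φ i * ψ ρ ≤
            X.η / 4 * φ i ^ 2 + X.w ρ ^ 2 / X.η * ψ ρ ^ 2 := by
          have h6 : 0 ≤ (X.η * φ i / 2 - X.w ρ * X.b ρ i * ψ ρ) ^ 2 / X.η := by positivity
          have h7 : (X.η * φ i / 2 - X.w ρ * X.b ρ i * ψ ρ) ^ 2 / X.η =
              X.η / 4 * φ i ^ 2 - X.w ρ * X.b ρ i * φ i * ψ ρ +
                X.w ρ ^ 2 / X.η * ψ ρ ^ 2 * X.b ρ i ^ 2 := by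
            field_simp
            ring
          rw [h7, hb2] at h6
          linarith
        have hqi := hq0 i
        have hB' := mul_le_mul_of_nonneg_left hB hqi
        calc X.w ρ * X.b ρ i * (q i ^ 2 - p ρ ^ 2) * φ i * ψ ρ
            = X.w ρ * X.b ρ i * p ρ * φ i * ψ ρ + q i * (X.w ρ * X.b ρ i * φ i * ψ ρ) := by
              rw [hqe]; ring
          _ ≤ (X.L * φ i ^ 2 + X.w ρ ^ 2 * p ρ ^ 2 / (4 * X.L) * ψ ρ ^ 2) +
              q i * (X.η / 4 * φ i ^ 2 + X.w ρ ^ 2 / X.η * ψ ρ ^ 2) := by linarith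
          _ = _ := by rw [hqe]; ring
  -- sum up
  have e5 : ∑ ρ, ∑ i, X.chi s ρ i * ((X.L + X.η / 4 * q i) * φ i ^ 2) ≤
      X.η * ∑ i, (q i ^ 2 / 2 + κ ^ 2) * φ i ^ 2 := by
    rw [sum_comm, mul_sum]
    refine sum_le_sum fun i _ => ?_
    rw [← sum_mul]
    have h3 := X.sum_chi_le s i
    have hqi := hq0 i
    have h4 : 0 ≤ (X.L + X.η / 4 * q i) * φ i ^ 2 := by positivity
    refine (mul_le_mul_of_nonneg_right h3 h4).trans ?_
    have h5 : q i * (X.L + X.η / 4 * q i) ≤ X.η * (q i ^ 2 / 2 + κ ^ 2) := by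
      rw [hκ]
      nlinarith [mul_nonneg hη.le (sq_nonneg (q i / 2 - κ))]
    have h6 := mul_le_mul_of_nonneg_right h5 (sq_nonneg (φ i))
    calc _ = q i * (X.L + X.η / 4 * q i) * φ i ^ 2 := by simp only [hq]; ring
      _ ≤ _ := h6
      _ = _ := by ring
  have e6 : ∑ ρ, ∑ i, X.w ρ * X.chi s ρ i *
      (X.w ρ * (p ρ ^ 2 / (4 * X.L) + (p ρ + 1) / X.η) * ψ ρ ^ 2) ≤
      ∑ ρ, (p ρ ^ 2 / 2 + κ ^ 2 + κ) * (X.w ρ * ψ ρ ^ 2) := by
    refine sum_le_sum fun ρ _ => ?_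
    rw [← sum_mul, ← mul_sum]
    have h3 := X.w_sum_chi_le s ρ
    have hpi := hp0 ρ
    have hw := X.w_pos ρ
    have h4 : 0 ≤ X.w ρ * (p ρ ^ 2 / (4 * X.L) + (p ρ + 1) / X.η) * ψ ρ ^ 2 := by positivity
    refine (mul_le_mul_of_nonneg_right h3 h4).trans ?_
    have h5 : X.L * (p ρ ^ 2 / (4 * X.L) + (p ρ + 1) / X.η) ≤ p ρ ^ 2 / 2 + κ ^ 2 + κ := by
      have h6 : X.L * (p ρ ^ 2 / (4 * X.L) + (p ρ + 1) / X.η) =
          p ρ ^ 2 / 4 + X.L / X.η * (p ρ + 1) := by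
        field_simp
      have h7 : X.L / X.η = κ := by
        rw [hκ]; field_simp
      rw [h6, h7]
      nlinarith [sq_nonneg (p ρ / 2 - κ)]
    have h6 : 0 ≤ X.w ρ * ψ ρ ^ 2 := by positivity
    calc _ = X.L * (p ρ ^ 2 / (4 * X.L) + (p ρ + 1) / X.η) * (X.w ρ * ψ ρ ^ 2) := by ring
      _ ≤ _ := mul_le_mul_of_nonneg_right h5 h6
  have e7 : ∑ ρ, ∑ i, X.w ρ * X.b ρ i * (q i ^ 2 - p ρ ^ 2) * φ i * ψ ρ ≤
      X.η * ∑ i, (q i ^ 2 / 2 + κ ^ 2) * φ i ^ 2 +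
      ∑ ρ, (p ρ ^ 2 / 2 + κ ^ 2 + κ) * (X.w ρ * ψ ρ ^ 2) := by
    refine le_trans ?_ (add_le_add e5 e6)
    rw [← sum_add_distrib]
    refine sum_le_sum fun ρ _ => ?_
    rw [← sum_add_distrib]
    exact sum_le_sum fun i _ => e4 ρ i
  rw [← e3] at e7
  have e8 : ∑ i, (q i ^ 2 / 2 + κ ^ 2) * φ i ^ 2 =
      1 / 2 * ∑ i, q i ^ 2 * φ i ^ 2 + κ ^ 2 * ∑ i, φ i ^ 2 := by
    rw [mul_sum, mul_sum, ← sum_add_distrib]
    exact sum_congr rfl fun i _ => by ring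
  have e9 : ∑ ρ, (p ρ ^ 2 / 2 + κ ^ 2 + κ) * (X.w ρ * ψ ρ ^ 2) =
      1 / 2 * ∑ ρ, X.w ρ * p ρ ^ 2 * ψ ρ ^ 2 + (κ ^ 2 + κ) * ∑ ρ, X.w ρ * ψ ρ ^ 2 := by
    rw [mul_sum, mul_sum, ← sum_add_distrib]
    exact sum_congr rfl fun ρ _ => by ring
  rw [e8, e9] at e7
  have e10 : 0 ≤ ∑ ρ, X.w ρ * p ρ ^ 2 * ψ ρ ^ 2 :=
    sum_nonneg fun ρ _ => by
      have := X.w_pos ρ
      positivity
  have e11 : 0 ≤ X.η * ∑ i, φ i ^ 2 := mul_nonneg hη.le (sum_nonneg fun i _ => sq_nonneg _)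
  nlinarith [mul_nonneg hκ0.le e11]

end Sys

end Pool.Agent.Lib.MP_9701dc_gt.DD
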