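import Pool.Agent.Lib.MP_9701dc_gt.DD.Assemble
import Pool.Agent.Lib.MP_9701dc_gt.GR.Lower

set_option autoImplicit false

/-!
# The sharp bounds for the maximal torsion (module M7c)
-/

namespace Pool.Agent.Lib.MP_9701dc_gt.DD

open Finset Pool.Agent.Results.MP_9701dc_gt.TorsionBound Pool.Agent.Lib.MP_9701dc_gt
open Pool.Agent.Lib.MP_9701dc_gt.GR Filter Topology

theorem card_rows (n k : ℕ) (v : Fin n) : (rows n k v).card = (n - 1).choose k := by
  have : rows n k v = (univ.erase v).powersetCard k := by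
    ext σ
    rw [mem_rows, mem_powersetCard]
    constructor
    · rintro ⟨h1, h2⟩
      exact ⟨fun x hx => mem_erase.mpr ⟨fun h => h2 (h ▸ hx), mem_univ _⟩, h1⟩
    · rintro ⟨h1, h2⟩
      exact ⟨h2, fun h => (mem_erase.mp (h1 h)).1 rfl⟩
  rw [this, card_powersetCard, card_erase_of_mem (mem_univ _), card_univ, Fintype.card_fin]

/-- The sharp upper bound. -/
theorem upper (ε : ℝ) (hε : 0 < ε) : ∃ d₀ : ℕ, ∀ d ≥ d₀, ∀ n : ℕ,
    2 * Real.log (Tmax n d) ≤ ((n - 1).choose d : ℝ) * (Real.log (d + 1) - 1 + ε) := by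
  obtain ⟨k₀, hk₀⟩ := det_sharp ε hε
  refine ⟨max k₀ 2, fun d hd n => ?_⟩
  have hd1 : k₀ ≤ d := (le_max_left _ _).trans hd
  have hd2 : 2 ≤ d := (le_max_right _ _).trans hd
  have hpos : 0 < Real.log ((d : ℝ) + 1) - 1 + ε := by
    have h1 : 1 < Real.log ((d : ℝ) + 1) := by
      rw [Real.lt_log_iff_exp_lt (by positivity)]
      have h1 : (2 : ℝ) ≤ d := by exact_mod_cast hd2
      have := Real.exp_one_lt_d9
      linarith
    linarith
  rcases lt_or_ge n (d + 1) with hn | hn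
  · rw [Tmax_eq_zero hn, Nat.cast_zero, Real.log_zero, mul_zero]
    positivity
  · obtain ⟨X, hX, hXd, hXT⟩ := Tmax_attained hn
    obtain ⟨m, rfl⟩ : ∃ m, d = m + 1 := ⟨d - 1, by omega⟩
    have hm : 1 ≤ m := by omega
    have v : Fin n := ⟨0, by omega⟩
    obtain ⟨T, A, hT, hTc, hA, hdet, hfin, hle⟩ := core hm hX v
    set A' : Matrix (Row n (m + 1) v) (Row n (m + 1) v) ℝ := A.map (Int.cast : ℤ → ℝ) with hA'
    have hdetA' : A'.det = (A.det : ℝ) := by
      have := (Int.castRingHom ℝ).map_det A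
      simpa [hA'] using this.symm
    have hdet' : A'.det ≠ 0 := by
      rw [hdetA']; exact_mod_cast hdet
    have hb := hk₀ (m + 1) hd1 n v T hT hTc A'
      (fun i σ => by rw [hA', Matrix.map_apply, hA]) hdet'
    rw [Fintype.card_coe, card_rows] at hb
    have htm : Tmax n (m + 1) ≤ A.det.natAbs := by
      rw [hXT, Nat.add_sub_cancel]
      exact hle
    have hA2 : Real.log (A'.det ^ 2) = 2 * Real.log (A.det.natAbs : ℝ) := by
      rw [hdetA', Real.log_pow, ← Real.log_abs, Nat.cast_natAbs, Int.cast_abs]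
      push_cast
      ring
    have hlog : Real.log (Tmax n (m + 1)) ≤ Real.log (A.det.natAbs : ℝ) := by
      rcases Nat.eq_zero_or_pos (Tmax n (m + 1)) with h0 | h0
      · rw [h0, Nat.cast_zero, Real.log_zero]
        exact Real.log_natCast_nonneg _
      · exact Real.log_le_log (by exact_mod_cast h0) (by exact_mod_cast htm)
    rw [hA2] at hb
    linarith

/-- The lower bound in the range `n ≥ A d log d`. -/
theorem lower' (ε : ℝ) (hε : 0 < ε) : ∃ (d₀ : ℕ) (A : ℝ), ∀ d ≥ d₀, ∀ n : ℕ,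
    A * d * Real.log d ≤ n →
    ((n - 1).choose d : ℝ) * (Real.log (d + 1) - 1 - ε) ≤ 2 * Real.log (Tmax n d) := by
  set A : ℝ := max (6 / ε) 2 with hA
  have hA2 : 2 ≤ A := le_max_right _ _
  have hA6 : 6 / ε ≤ A := le_max_left _ _
  have hApos : 0 < A := by linarith
  refine ⟨max 3 ⌈A⌉₊, A, fun d hd n hn => ?_⟩
  have hd3 : 3 ≤ d := (le_max_left _ _).trans hd
  have hdA : A ≤ d := by
    have h1 : A ≤ ⌈A⌉₊ := Nat.le_ceil _
    have h2 : ((⌈A⌉₊ : ℕ) : ℝ) ≤ d := by exact_mod_cast (le_max_right _ _).trans hd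
    linarith
  have hd3' : (3 : ℝ) ≤ d := by exact_mod_cast hd3
  have hdpos : (0 : ℝ) < d := by linarith
  have hlogd : 1 ≤ Real.log d := by
    rw [Real.le_log_iff_exp_le hdpos]
    have := Real.exp_one_lt_d9
    linarith
  have hnd : 2 * (d : ℝ) ≤ n := by
    have h1 : 2 * (d : ℝ) ≤ A * d * Real.log d := by
      have : 2 * (d : ℝ) * 1 ≤ A * d * Real.log d := by gcongr
      linarith
    linarith
  have hn1 : d + 1 ≤ n := by
    have : 2 * d ≤ n := by exact_mod_cast hnd
    omega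
  have hnpos : (0 : ℝ) < n := by linarith
  refine le_trans ?_ (lower (by omega : 2 ≤ d) hn1)
  refine mul_le_mul_of_nonneg_left ?_ (Nat.cast_nonneg _)
  have hn0 : (0 : ℝ) < (n : ℝ) - 1 := by linarith
  have key : (d : ℝ) * Real.log n / ((n : ℝ) - 1) ≤ ε := by
    rw [div_le_iff₀ hn0]
    -- log n = log d + log (n/d)
    have h1 : Real.log n = Real.log d + Real.log (n / d) := by
      rw [Real.log_div hnpos.ne' hdpos.ne']; ring
    have h2 : Real.log ((n : ℝ) / d) ≤ (n : ℝ) / d / A + Real.log A := by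
      have h3 : Real.log ((n : ℝ) / d / A) ≤ (n : ℝ) / d / A - 1 :=
        Real.log_le_sub_one_of_pos (by positivity)
      rw [Real.log_div (by positivity) hApos.ne'] at h3
      linarith
    have h3 : Real.log A ≤ Real.log d := Real.log_le_log hApos hdA
    have h4 : (d : ℝ) * Real.log d ≤ n / A := by
      rw [le_div_iff₀ hApos]
      linarith
    have h5 : (d : ℝ) * ((n : ℝ) / d / A) = n / A := by field_simp
    have h6 : (d : ℝ) * Real.log n ≤ 3 * (n / A) := by
      rw [h1]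
      have h7 : (d : ℝ) * (Real.log d + Real.log (n / d)) ≤
          d * (Real.log d + ((n : ℝ) / d / A + Real.log d)) := by
        refine mul_le_mul_of_nonneg_left ?_ hdpos.le
        linarith
      refine h7.trans ?_
      rw [mul_add, mul_add, h5]
      linarith
    have h7 : (n : ℝ) / A ≤ n * (ε / 6) := by
      rw [div_le_iff₀ hApos]
      have : 6 ≤ A * ε := by
        rwa [div_le_iff₀ hε] at hA6
      nlinarith
    nlinarith
  linarith

/-- The growth constants. -/
theorem constants : ∃ lam : ℕ → ℝ, (∀ d, 2 ≤ d →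
    Tendsto (fun n : ℕ => Real.log (Tmax n d) / (n : ℝ) ^ d) atTop (𝓝 (lam d)) ∧
      (∀ n : ℕ, Real.log (Tmax n d) ≤ lam d * (n : ℝ) ^ d) ∧
      (Real.log (d + 1) - 1) / (2 * d.factorial) ≤ lam d ∧
      lam d ≤ Real.log ((4 / 27 : ℝ) * (d + 1) ^ 5) / (10 * d.factorial)) ∧
    Tendsto (fun d : ℕ => 2 * d.factorial * lam d - Real.log (d + 1)) atTop (𝓝 (-1)) := by
  have h0 : ∀ d : ℕ, ∃ l : ℝ, 2 ≤ d →
      Tendsto (fun n : ℕ => Real.log (Tmax n d) / (n : ℝ) ^ d) atTop (𝓝 l) ∧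
      (∀ n : ℕ, Real.log (Tmax n d) ≤ l * (n : ℝ) ^ d) ∧
      (Real.log (d + 1) - 1) / (2 * d.factorial) ≤ l ∧
      l ≤ Real.log ((4 / 27 : ℝ) * (d + 1) ^ 5) / (10 * d.factorial) := by
    intro d
    by_cases hd : 2 ≤ d
    · obtain ⟨l, h1, h2, h3⟩ := growth hd
      exact ⟨l, fun _ => ⟨h1, h2, lower_limit hd h2 fun n hn => lower hd hn, h3⟩⟩
    · exact ⟨0, fun h => absurd h hd⟩
  choose lam hlam using h0
  refine ⟨lam, hlam, ?_⟩
  rw [Metric.tendsto_atTop]
  intro ε hε
  obtain ⟨d₀, hd₀⟩ := upper (ε / 2) (by linarith)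
  refine ⟨max d₀ 2, fun d hd => ?_⟩
  have hd1 : d₀ ≤ d := (le_max_left _ _).trans hd
  have hd2 : 2 ≤ d := (le_max_right _ _).trans hd
  obtain ⟨h1, h2, h3, _⟩ := hlam d hd2
  have hf : (0 : ℝ) < 2 * d.factorial := by positivity
  have hpos : 0 < Real.log ((d : ℝ) + 1) - 1 := by
    have h1 : 1 < Real.log ((d : ℝ) + 1) := by
      rw [Real.lt_log_iff_exp_lt (by positivity)]
      have h1 : (2 : ℝ) ≤ d := by exact_mod_cast hd2
      have := Real.exp_one_lt_d9
      linarith
    linarith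
  have hup : lam d ≤ (Real.log (d + 1) - 1 + ε / 2) / (2 * d.factorial) := by
    refine le_of_tendsto h1 ?_
    filter_upwards [eventually_ge_atTop 1] with n hn
    have hnpos : (0 : ℝ) < n := by exact_mod_cast hn
    have hnd : (0 : ℝ) < (n : ℝ) ^ d := by positivity
    have h4 := hd₀ d hd1 n
    have h5 : (((n - 1).choose d : ℕ) : ℝ) ≤ (n : ℝ) ^ d / d.factorial := by
      refine (Nat.choose_le_pow_div d (n - 1)).trans ?_
      refine div_le_div_of_nonneg_right ?_ (by positivity)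
      refine pow_le_pow_left₀ (by positivity) ?_ d
      exact_mod_cast Nat.sub_le n 1
    have h6 : 2 * Real.log (Tmax n d) ≤
        (n : ℝ) ^ d / d.factorial * (Real.log (d + 1) - 1 + ε / 2) :=
      h4.trans (mul_le_mul_of_nonneg_right h5 (by linarith))
    rw [div_le_iff₀ hnd, div_mul_eq_mul_div, le_div_iff₀ hf]
    have h7 : (n : ℝ) ^ d / d.factorial * (Real.log (d + 1) - 1 + ε / 2) * d.factorial =
        (Real.log (d + 1) - 1 + ε / 2) * (n : ℝ) ^ d := by
      field_simp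
    have h8 := mul_le_mul_of_nonneg_right h6 (by positivity : (0 : ℝ) ≤ d.factorial)
    rw [h7] at h8
    linarith
  rw [le_div_iff₀ hf] at hup
  rw [div_le_iff₀ hf] at h3
  rw [Real.dist_eq, abs_lt]
  constructor <;> linarith

end Pool.Agent.Lib.MP_9701dc_gt.DD
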