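import Pool.Agent.Lib.MP_9701dc_gt.DD.Sharp2
import Pool.Agent.Lib.MP_9701dc_gt.DD.Binom
import Pool.Agent.Lib.MP_9701dc_gt.DD.Dual
import Pool.Agent.Lib.MP_9701dc_gt.GR.Lower

set_option autoImplicit false

/-!
# The maximal torsion and the average (module W7c)
-/

namespace Pool.Agent.Lib.MP_9701dc_gt.DD

open Finset Pool.Agent.Results.MP_9701dc_gt.TorsionBound Pool.Agent.Lib.MP_9701dc_gt
open Pool.Agent.Lib.MP_9701dc_gt.GR Filter Topology

/-- logarithm of the average of `|Tors|^2` -/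
noncomputable def tgt (n d : ℕ) : ℝ :=
  ((n - 2).choose d : ℝ) * Real.log n - Real.log ((n.choose (d + 1)).choose ((n - 1).choose d))

theorem tgt_eq {n d : ℕ} (hn : 2 ≤ n) (hd : d + 1 ≤ n) :
    ((n - 2).choose d : ℝ) = ((n - 1).choose d : ℝ) * ((n : ℝ) - d - 1) / ((n : ℝ) - 1) := by
  obtain ⟨m, rfl⟩ : ∃ m, n = m + 2 := ⟨n - 2, by omega⟩
  have h1 := Nat.choose_mul_succ_eq m d
  have h3 := congrArg (Nat.cast : ℕ → ℝ) h1
  push_cast at h3
  rw [Nat.cast_sub (by omega)] at h3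
  have e1 : m + 2 - 2 = m := by omega
  have e2 : m + 2 - 1 = m + 1 := by omega
  rw [e1, e2]
  have h4 : (((m + 2 : ℕ) : ℝ) - 1) = (m : ℝ) + 1 := by push_cast; ring
  have h5 : ((m : ℝ) + 1) ≠ 0 := by positivity
  rw [h4, eq_div_iff h5]
  push_cast at h3 ⊢
  linarith

theorem tgt_symm {n d : ℕ} (hd : d + 2 ≤ n) : tgt n (n - 2 - d) = tgt n d := by
  unfold tgt
  have e1 : (n - 2).choose (n - 2 - d) = (n - 2).choose d := Nat.choose_symm (by omega)
  have e2 : n - 2 - d + 1 = n - (d + 1) := by omega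
  have e3 : n.choose (n - 2 - d + 1) = n.choose (d + 1) := by
    rw [e2]; exact Nat.choose_symm (by omega)
  have e4 : n - 2 - d = n - 1 - (d + 1) := by omega
  have e5 : (n - 1).choose (n - 2 - d) = (n - 1).choose (d + 1) := by
    rw [e4]; exact Nat.choose_symm (by omega)
  have e6 : n.choose (d + 1) = (n - 1).choose d + (n - 1).choose (d + 1) := by
    obtain ⟨m, rfl⟩ : ∃ m, n = m + 1 := ⟨n - 1, by omega⟩
    rw [Nat.add_sub_cancel]
    exact Nat.choose_succ_succ m d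
  have e7 : (n.choose (d + 1)).choose ((n - 1).choose (d + 1)) =
      (n.choose (d + 1)).choose ((n - 1).choose d) := by
    have h := Nat.choose_symm_add (a := (n - 1).choose d) (b := (n - 1).choose (d + 1))
    rw [← e6] at h
    exact h.symm
  rw [e1, e3, e5, e7]

/-- the value given by the law is at most the target -/
theorem law_le_tgt {n k : ℕ} (hk : 1 ≤ k) (hkn : k + 1 ≤ n) :
    ((n - 1).choose k : ℝ) * (Real.log (k + 1) + wc n k) -
      ((n - 1).choose k : ℝ) * k / ((n : ℝ) - 1) * Real.log n ≤ tgt n k := by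
  have hn2 : 2 ≤ n := by omega
  have hnpos : (0 : ℝ) < n := by
    have : 0 < n := by omega
    exact_mod_cast this
  have hn1 : (0 : ℝ) < (n : ℝ) - 1 := by
    have : (2 : ℝ) ≤ n := by exact_mod_cast hn2
    linarith
  have hD : (0 : ℝ) < (k : ℝ) + 1 := by positivity
  have hkn' : (k : ℝ) + 1 ≤ n := by exact_mod_cast hkn
  set N : ℝ := ((n - 1).choose k : ℝ) with hN
  set p : ℝ := ((k : ℝ) + 1) / n with hp
  have hppos : 0 < p := by positivity
  have hp1 : p ≤ 1 := by rw [hp, div_le_one hnpos]; exact hkn'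
  have hwc : wc n k = (1 - p) / p * Real.log (1 - p) := rfl
  have hlogp : Real.log p = Real.log (k + 1) - Real.log n := by
    rw [hp, Real.log_div hD.ne' hnpos.ne']
  have hchoose : Real.log ((n.choose (k + 1)).choose ((n - 1).choose k)) ≤
      - (N * Real.log p) - N * ((1 - p) / p) * Real.log (1 - p) := by
    rcases eq_or_lt_of_le hp1 with h | h
    · -- n = k + 1
      have h1 : (k : ℝ) + 1 = n := by
        rw [hp, div_eq_one_iff_eq hnpos.ne'] at h; exact h
      have h2 : n = k + 1 := by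
        have : ((k + 1 : ℕ) : ℝ) = (n : ℝ) := by push_cast; exact h1
        exact_mod_cast this.symm
      rw [h]
      subst h2
      simp
    · refine log_choose_le _ _ p (1 - p) hppos (by linarith) (by ring) ?_
      have h1 : (n : ℝ) * ((n - 1).choose k : ℝ) = (n.choose (k + 1) : ℝ) * ((k : ℝ) + 1) := by
        obtain ⟨m, rfl⟩ : ∃ m, n = m + 1 := ⟨n - 1, by omega⟩
        rw [Nat.add_sub_cancel]
        have := Nat.add_one_mul_choose_eq m k
        exact_mod_cast this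
      rw [hp, div_mul_eq_mul_div, eq_div_iff hnpos.ne']
      linarith
  unfold tgt
  rw [tgt_eq hn2 hkn, hwc, ← hN]
  have e1 : N * ((n : ℝ) - k - 1) / ((n : ℝ) - 1) * Real.log n =
      N * Real.log n - N * k / ((n : ℝ) - 1) * Real.log n := by
    field_simp
    ring
  rw [e1]
  have e2 : N * (Real.log (k + 1) + (1 - p) / p * Real.log (1 - p)) =
      N * Real.log n + N * Real.log p + N * ((1 - p) / p) * Real.log (1 - p) := by
    rw [hlogp]; ring
  rw [e2]
  linarith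

/-- **Bound for the minors.** -/
theorem minor_bound (ε : ℝ) (hε : 0 < ε) : ∃ k₀ : ℕ, ∀ k ≥ k₀, ∀ (n : ℕ) (v : Fin n)
    (T : Row n k v → Finset (Fin n)), 1 ≤ k → k + 1 ≤ n → Function.Injective T →
    (∀ i, (T i).card = k + 1) →
    ∀ A : Matrix (Row n k v) (Row n k v) ℝ, (∀ i σ, A i σ = (inc σ.1 (T i) : ℝ)) → A.det ≠ 0 →
      Real.log (A.det ^ 2) ≤ tgt n k + ε * ((n - 1).choose k : ℝ) := by
  obtain ⟨k₀, hk₀⟩ := det_sharp2 ε hε
  refine ⟨k₀, fun k hk n v T hk1 hkn hT hc A hA hdet => ?_⟩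
  have hn2 : 2 ≤ n := by omega
  obtain ⟨hE, hElog⟩ := det_Err (d := k) hn2 v
  have hg := gram_det v T hc A hA
  rw [← Bf_gram] at hg
  have hA2 : 0 < A.det ^ 2 := by positivity
  have hpos : 0 < ((Bf T).transpose * Bf T).det := by
    rw [hg]; exact mul_pos hA2 hE
  have h1 := hk₀ k hk n v T hkn hT hc hpos
  rw [hg, Real.log_mul hA2.ne' hE.ne', hElog, Fintype.card_coe, card_rows2] at h1
  have h2 := law_le_tgt hk1 hkn
  linarith

theorem log_Tmax_le_of_det {n d : ℕ} {a : ℤ} {B : ℝ} (h : Tmax n d ≤ a.natAbs)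
    (hb : Real.log ((a : ℝ) ^ 2) ≤ B) : 2 * Real.log (Tmax n d) ≤ B := by
  have hA2 : Real.log ((a : ℝ) ^ 2) = 2 * Real.log (a.natAbs : ℝ) := by
    rw [Real.log_pow, ← Real.log_abs, Nat.cast_natAbs, Int.cast_abs]
    push_cast
    ring
  have hlog : Real.log (Tmax n d) ≤ Real.log (a.natAbs : ℝ) := by
    rcases Nat.eq_zero_or_pos (Tmax n d) with h0 | h0
    · rw [h0, Nat.cast_zero, Real.log_zero]
      exact Real.log_natCast_nonneg _
    · exact Real.log_le_log (by exact_mod_cast h0) (by exact_mod_cast h)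
  rw [hA2] at hb
  linarith

/-- **Upper bound**, both forms. -/
theorem upper2 (ε : ℝ) (hε : 0 < ε) : ∃ d₀ : ℕ, ∀ n d : ℕ, 2 ≤ d → d + 1 ≤ n →
    (d₀ ≤ d → 2 * Real.log (Tmax n d) ≤ tgt n d + ε * ((n - 1).choose d : ℝ)) ∧
    (d₀ + d ≤ n → 2 * Real.log (Tmax n d) ≤ tgt n d + ε * ((n - 1).choose (d + 1) : ℝ)) := by
  obtain ⟨k₀, hk₀⟩ := minor_bound ε hε
  refine ⟨k₀ + 3, fun n d hd hn => ?_⟩
  obtain ⟨X, hX, hXd, hXT⟩ := Tmax_attained hn
  obtain ⟨m, rfl⟩ : ∃ m, d = m + 1 := ⟨d - 1, by omega⟩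
  have hm : 1 ≤ m := by omega
  have v : Fin n := ⟨0, by omega⟩
  obtain ⟨T, A, hT, hTc, hA, hdet, hfin, hle⟩ := core hm hX v
  set A' : Matrix (Row n (m + 1) v) (Row n (m + 1) v) ℝ := A.map (Int.cast : ℤ → ℝ) with hA'
  have hdetA' : A'.det = (A.det : ℝ) := by
    have := (Int.castRingHom ℝ).map_det A
    simpa [hA'] using this.symm
  have hdet' : A'.det ≠ 0 := by
    rw [hdetA']; exact_mod_cast hdet
  have hAe : ∀ i σ, A' i σ = (inc σ.1 (T i) : ℝ) := fun i σ => by
    rw [hA', Matrix.map_apply, hA]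
  have htm : Tmax n (m + 1) ≤ A.det.natAbs := by
    rw [hXT, Nat.add_sub_cancel]
    exact hle
  constructor
  · intro hd0
    refine log_Tmax_le_of_det htm ?_
    rw [← hdetA']
    exact hk₀ (m + 1) (by omega) n v T (by omega) hn hT hTc A' hAe hdet'
  · intro hd0
    refine log_Tmax_le_of_det htm ?_
    rw [← hdetA']
    obtain ⟨T', A'', hT', hTc', hA'', hdd⟩ :=
      dual_det (by omega) v T hT hTc A' hAe
    have hdet'' : A''.det ≠ 0 := by
      intro h0
      rw [h0] at hdd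
      have : A'.det ^ 2 ≠ 0 := by positivity
      apply this
      rw [← hdd]; norm_num
    have h1 := hk₀ (n - 2 - (m + 1)) (by omega) n v T' (by omega) (by omega) hT' hTc' A'' hA'' hdet''
    rw [hdd, tgt_symm (by omega)] at h1
    have e4 : n - 2 - (m + 1) = n - 1 - (m + 1 + 1) := by omega
    have e5 : (n - 1).choose (n - 2 - (m + 1)) = (n - 1).choose (m + 1 + 1) := by
      rw [e4]; exact Nat.choose_symm (by omega)
    rw [e5] at h1
    exact h1

/-- **Lower bound** (averaging). -/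
theorem lower2 {n d : ℕ} (hd : 2 ≤ d) (hn : d + 1 ≤ n) : tgt n d ≤ 2 * Real.log (Tmax n d) := by
  obtain ⟨m, rfl⟩ : ∃ m, d = m + 1 := ⟨d - 1, by omega⟩
  have hm : 1 ≤ m := by omega
  obtain ⟨v⟩ : Nonempty (Fin n) := ⟨⟨0, by omega⟩⟩
  have hN : Fintype.card (Row n (m + 1) v) = (n - 1).choose (m + 1) := by
    rw [Fintype.card_coe, card_rows2]
  obtain ⟨c, hpos, hc⟩ := exists_faces_choose (d := m + 1) (by omega : 2 ≤ n) v
  set A : Matrix (Row n (m + 1) v) (Row n (m + 1) v) ℤ :=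
    Matrix.of fun i σ : Row n (m + 1) v => inc σ.1 (c i).1 with hA
  have hAe : ∀ i σ, A i σ = inc σ.1 (c i).1 := fun i σ => rfl
  clear_value A
  have hdet : A.det ≠ 0 := by
    intro h0
    rw [h0] at hpos
    exact lt_irrefl _ hpos
  have hne : Nonempty (Row n (m + 1) v) := by
    rw [← Fintype.card_pos_iff, hN]
    exact Nat.choose_pos (by omega)
  obtain ⟨S, hS⟩ : ∃ S : Finset (Finset (Fin n)),
      S = univ.image fun i : Row n (m + 1) v => (c i).1 := ⟨_, rfl⟩
  have hfac : ∀ σ ∈ S, σ.card = m + 1 + 1 := by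
    intro σ hσ
    rw [hS] at hσ
    obtain ⟨i, _, rfl⟩ := mem_image.mp hσ
    exact (c i).2
  have hmemS : ∃ σ ∈ S, σ.card = m + 1 + 1 := by
    obtain ⟨i⟩ := hne
    refine ⟨(c i).1, ?_, (c i).2⟩
    rw [hS]
    exact mem_image.mpr ⟨i, mem_univ _, rfl⟩
  have h1 : A.det.natAbs ≤ tors (skel (m + 1) S) m := by
    rw [hS]
    exact tors_skel hm v (fun i => (c i).1) (fun i => (c i).2) A hAe hdet
  have hXc : IsComplex (skel (m + 1) S) := isComplex_skel (by omega) hfac
  have hXd : IsDim (m + 1) (skel (m + 1) S) := by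
    obtain ⟨σ, hσ, hσc⟩ := hmemS
    exact ⟨⟨σ, mem_skel.mpr (Or.inr hσ), hσc⟩, fun σ hσ => card_le_of_mem_skel hfac hσ⟩
  have h2' := le_Tmax hXc hXd
  rw [Nat.add_sub_cancel] at h2'
  have h2 : A.det.natAbs ≤ Tmax n (m + 1) := h1.trans h2'
  have h3 : Real.log ((A.det : ℝ) ^ 2) ≤ 2 * Real.log (Tmax n (m + 1)) := by
    rw [Real.log_pow]
    have h4 : |(A.det : ℝ)| ≤ (Tmax n (m + 1) : ℝ) := by
      rw [← Int.cast_abs, Int.abs_eq_natAbs]
      exact_mod_cast h2
    have h5 : (0 : ℝ) < |(A.det : ℝ)| := by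
      rw [abs_pos]
      exact_mod_cast hdet
    have h6 := Real.log_le_log h5 h4
    rw [Real.log_abs] at h6
    rw [Nat.cast_ofNat]
    linarith
  rw [hN] at hc
  unfold tgt
  rw [tgt_eq (by omega) hn]
  linarith

end Pool.Agent.Lib.MP_9701dc_gt.DD
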